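import Pool.Agent.Lib.H1F.Rings
import Pool.Agent.Lib.H1F.Defs

/-!
# H1F, part KLT: coordinates, Jacobians and local equations on the charts

`ω = dA ∧ dv ∧ dw`.  On the chart `c` with coordinates `cx c, cy c, cz c`:
`ω = JJ c • (d(cx c) ∧ d(cy c) ∧ d(cz c))`; `FF c` is the equation of `S_x`, `RR c` the equation of
`Π` (`1` if absent); `dd c = JJ c ^ 10 * FF c ^ 2 * RR c ^ 9` is the local equation of
`D = 10 (K_X + Δ)`, `Δ = 1/5 S_x + 9/10 Π`.  On `X'` the divisor is `D' = 20 (K_X' + Δ')` with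
local equations `dd' c`.
-/

open MvPolynomial

namespace H1F

section

variable {K : Type*} [Field K] (p : ℕ)

/-- `ω = lamF f • (da ∧ dv' ∧ dw')` for the frame `f = (a; v', w')`. -/
def lamF (v w : K) : Fin 6 → K :=
  ![1, -1, -v ^ (p + 3), v ^ (p + 3), w ^ (p + 3), -w ^ (p + 3)]

/-- The frame of the chart `M i`. -/
def fm : Fin 3 → Fin 6 := ![0, 2, 4]

/-- First coordinate. -/
def cx (A v w : K) : Ch → K
  | .NI f => fv v w f - 1
  | .NII f => fa p A v w f - 1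
  | .M i => fa p A v w (fm i)
  | .T6 => A
  | .P1 => (w - 1) / (v - 1)
  | .P2 => (v - 1) / (w - 1)
  | .P3 => v - 1
  | .P4 => v - 1
  | .Y0 => v - 1

/-- Second coordinate. -/
def cy (A v w : K) : Ch → K
  | .NI f => (fa p A v w f - 1) / (fv v w f - 1)
  | .NII f => (fv v w f - 1) / (fa p A v w f - 1)
  | .M i => (fv v w (fm i) - 1)⁻¹
  | .T6 => v
  | .P1 => v - 1
  | .P2 => w - 1
  | .P3 => w - 1
  | .P4 => w - 1
  | .Y0 => w - 1

/-- Third coordinate. -/
def cz (A v w : K) : Ch → K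
  | .NI f => (fw v w f - 1)⁻¹
  | .NII f => (fw v w f - 1)⁻¹
  | .M i => (fw v w (fm i) - 1)⁻¹
  | .T6 => w
  | .P1 => -(((v - 1) / (w - 1)) ^ 2 * nn p A v w + p * ((v - 1) / (w - 1)))
  | .P2 => nn p A v w
  | .P3 => yy p A v w
  | .P4 => yy p A v w
  | .Y0 => yy p A v w

/-- The Jacobian. -/
def JJ (A v w : K) : Ch → K
  | .NI f => lamF p v w f * ((fv v w f - 1) * (fw v w f - 1) ^ 2)
  | .NII f => -(lamF p v w f * ((fa p A v w f - 1) * (fw v w f - 1) ^ 2))
  | .M i => lamF p v w (fm i) * ((fv v w (fm i) - 1) ^ 2 * (fw v w (fm i) - 1) ^ 2)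
  | .T6 => 1
  | .P1 => (w - 1) * (v - w)
  | .P2 => (v - 1) * (v - w)
  | .P3 => (v - 1) * (w - 1) * (v - w)
  | .P4 => (v - 1) * (w - 1) * (v - w)
  | .Y0 => (v - 1) * (w - 1) * (v - w)

/-- The equation of `S_x`. -/
def FF (A v w : K) : Ch → K
  | .NI f => ![(A - 1) / (v - 1), (A - 1) / (w - 1), (A - 1) / (v ^ (p - 1) * (1 - v)),
      (A - 1) / (1 - v) ^ p, (A - 1) / (w ^ (p - 1) * (1 - w)), (A - 1) / (1 - w) ^ p] f
  | .NII f => ![1, 1, (A - 1) / (A - v ^ p), (A - 1) / (1 - v) ^ p, (A - 1) / (A - w ^ p),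
      (A - 1) / (1 - w) ^ p] f
  | .M i => ![A - 1, 1, 1] i
  | .T6 => 1
  | .P1 => (A - 1) / (w - 1)
  | .P2 => (A - 1) / (v - 1)
  | .P3 => (A - 1) / ((v - 1) * (w - 1))
  | .P4 => (A - 1) / ((v - 1) * (w - 1))
  | .Y0 => (A - 1) / ((v - 1) * (w - 1))

/-- The equation of `Π`. -/
def RR (v w : K) : Ch → K
  | .P1 => v - 1
  | .P2 => w - 1
  | _ => 1

/-- The local equation of `D = 10 (K_X + Δ)` on the chart `c` of `X`. -/
def dd (A v w : K) (c : Ch) : K := JJ p A v w c ^ 10 * FF p A v w c ^ 2 * RR v w c ^ 9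

/-- The local equation of `D' = 20 (K_X' + Δ')` on the chart `c` of `X'`. -/
def dd' (A v w : K) : Ch → K
  | .P4 => dd p A v w .P4 ^ 2 / yy p A v w
  | c => dd p A v w c ^ 2

end

/-- `K` is the field of rational functions in `A`, `v`, `w`. -/
structure Gen (k : Type*) {K : Type*} [Field k] [Field K] [Algebra k K] (A v w : K) : Prop where
  indep : AlgebraicIndependent k ![A, v, w]
  gen : ∀ f : K, ∃ a b : MvPolynomial (Fin 3) k,
    aeval ![A, v, w] b ≠ 0 ∧ f * aeval ![A, v, w] b = aeval ![A, v, w] a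

/-- Every element of `O` is a quotient of polynomials in `x, y, z`, with a denominator which is a
unit of `O`. -/
structure Coord {k : Type*} {K : Type*} [Field k] [Field K] [Algebra k K] (O : Subalgebra k K)
    (x y z : K) : Prop where
  hx : x ∈ O
  hy : y ∈ O
  hz : z ∈ O
  quot : ∀ f ∈ O, ∃ a ∈ Algebra.adjoin k {x, y, z}, ∃ s ∈ Algebra.adjoin k {x, y, z}, s ≠ 0 ∧
    s⁻¹ ∈ O ∧ f = a * s⁻¹

/-- `L` is a localization of `R` (with fraction field `K`) and a discrete valuation ring. -/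
structure IsLocDVR {k : Type*} {K : Type*} [Field k] [Field K] [Algebra k K]
    (R L : Subalgebra k K) : Prop where
  le : R ≤ L
  dvr : IsDiscreteValuationRing L
  frac : IsFractionRing L K
  loc : ∀ f ∈ L, ∃ a ∈ R, ∃ s ∈ R, s ≠ 0 ∧ s⁻¹ ∈ L ∧ f = a * s⁻¹

end H1F
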