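import Pool.Agent.Lib.H1F.KLT.K14

/-! # H1F, part KLT, chunk K15: the pair `(X, Δ)` is klt -/

open CategoryTheory AlgebraicGeometry Order

universe u

namespace H1F

variable {k : Type u} [Field k]

theorem K15_map_dvr {K₁ K₂ : Type u} [Field K₁] [Algebra k K₁] [Field K₂] [Algebra k K₂]
    (e : K₁ ≃ₐ[k] K₂) {O : Subalgebra k K₁} (h : IsDiscreteValuationRing O) :
    IsDiscreteValuationRing (O.map e.toAlgHom) := by
  let E : O ≃ₐ[k] (O.map e.toAlgHom) := e.subalgebraMap O
  exact IsDiscreteValuationRing.RingEquivClass.isDiscreteValuationRing E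

theorem K15_map_frac {K₁ K₂ : Type u} [Field K₁] [Algebra k K₁] [Field K₂] [Algebra k K₂]
    (e : K₁ ≃ₐ[k] K₂) {O : Subalgebra k K₁} (h : IsFractionRing O K₁) :
    IsFractionRing (O.map e.toAlgHom) K₂ := by
  refine IsFractionRing.of_field _ _ fun z ↦ ?_
  obtain ⟨r, s, -, hrs⟩ := IsFractionRing.div_surjective (A := O) (e.symm z)
  refine ⟨⟨e r, ⟨r, r.2, rfl⟩⟩, ⟨e s, ⟨s, s.2, rfl⟩⟩, ?_⟩
  have h1 := congrArg e hrs
  rw [map_div₀, e.apply_symm_apply] at h1
  exact h1.symm

theorem K15_charK {p : ℕ} [CharP k p] (K : Type u) [Field K] [Algebra k K] : CharP K p :=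
  charP_of_injective_algebraMap (algebraMap k K).injective p

theorem K15_symm_mem {X : Over (Spec (CommRingCat.of k))} [IsIntegral X.left] {K : Type u}
    [Field K] [Algebra k K] (e : X.left.functionField ≃ₐ[k] K) {x : X.left} {f : K}
    (hf : f ∈ LK X e x) : e.symm f ∈ localRing k X x := by
  obtain ⟨g, hg, rfl⟩ := hf
  change e.symm (e g) ∈ _
  rwa [e.symm_apply_apply]

theorem K15_mem {X : Over (Spec (CommRingCat.of k))} [IsIntegral X.left] {K : Type u}
    [Field K] [Algebra k K] (e : X.left.functionField ≃ₐ[k] K) {x : X.left} {f : K}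
    (hf : e.symm f ∈ localRing k X x) : f ∈ LK X e x :=
  ⟨e.symm f, hf, e.apply_symm_apply f⟩

variable {p : ℕ} [Fact p.Prime] [CharP k p]

/-- MAIN THEOREM of part KLT for `X`.  Choose for every `z` a chart `i z` with
`z ∈ range (a.c (i z))`; `KX z = ord (JJ (i z)) z`, `D z = ord (dd (i z)) z` and
`Δ z = D z / 10 - KX z` if `coheight z = 1`, `Δ z = 0` otherwise.
* `IsCanonical`: `wedge_ne_zero` (for `e.symm A`, ..: apply `exists_formMap`), `hasFormOrd_JJ`.
* local equations: `ord_dd`.
* effective: `10 Δ z = 2 ord FF + 9 ord RR ≥ 0` (`Scheme.ord_mul`, `FF_mem`, `RR_mem`, `LK_hasOrd_iff`,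
  `HasOrd.nonneg_iff`).
* finite support: `Δ z ≠ 0` implies that `FF` or `RR` vanishes at `z` for `i = i z`;
  `finite_zeros`.
* log discrepancies, `N = 10`: `IsCartier` with the open set `range (a.c i)`, `dd i`.  Let `O` have
  centre `x ∈ range (a.c i)`.  `dd i` is a local equation at `x` (a point `z` with `z ⤳ x` lies in
  this open set), so `h / dd i` is a unit of the local ring at `x` (`LocalEq.div_mem`), hence of `O`
  (`HasCentre.le`), `HasOrd O (dd i) b`; transport to `K` by `e` and use `klt_final`. -/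
theorem exists_divisors (hp : 5 ≤ p) {K : Type u} [Field K] [Algebra k K] {A v w : K}
    (h : Gen k A v w) {X : Over (Spec (CommRingCat.of k))} [IsIntegral X.left]
    [IsLocallyNoetherian X.left] (hX : Variety k X) (e : X.left.functionField ≃ₐ[k] K)
    (a : Atlas (fun i : {c : Ch // c.inX} ↦ ring k p A v w i) X)
    (hL : FLIP.LocData a (LK X e)) :
    ∃ (KX : X.left → ℤ) (Δ : X.left → ℚ),
      IsCanonical k X (wedge (e.symm A) (e.symm v) (e.symm w)) KX ∧ Klt k X Δ ∧
      ∀ (i : {c : Ch // c.inX}) (z : X.left), z ∈ Set.range (a.c i) → coheight z = 1 →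
        (Scheme.ord (e.symm (dd p A v w i)) z : ℚ) = 10 * (KX z + Δ z) := by
  classical
  have hcK : CharP K p := K15_charK (k := k) K
  have hd := trdeg_eq h
  have hp2 : 2 ≤ p := by omega
  have hp3 : 3 ≤ p := by omega
  have hcov : ∀ z : X.left, ∃ i, z ∈ Set.range (a.c i) := fun z ↦ by
    obtain ⟨i, y, hy⟩ := a.cover z
    exact ⟨i, y, hy⟩
  choose ix hix using hcov
  have hJ0 : ∀ c, JJ p A v w c ≠ 0 := fun c ↦ JJ_ne_zero h hp2 c
  have hF0 : ∀ c, FF p A v w c ≠ 0 := fun c ↦ FF_ne_zero h hp2 c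
  have hR0 : ∀ c, RR v w c ≠ 0 := fun c ↦ RR_ne_zero (k := k) h c
  have hD0 : ∀ c, dd p A v w c ≠ 0 := fun c ↦ dd_ne_zero (k := k) h hp2 c
  have hs0 : ∀ {f : K}, f ≠ 0 → e.symm f ≠ 0 := fun {f} hf h0 ↦ hf (by
    rw [← e.apply_symm_apply f, h0, map_zero])
  have hdd : ∀ c z, Scheme.ord (e.symm (dd p A v w c)) z =
      10 * Scheme.ord (e.symm (JJ p A v w c)) z + (2 * Scheme.ord (e.symm (FF p A v w c)) z +
        9 * Scheme.ord (e.symm (RR v w c)) z) := by
    intro c z
    have e1 : e.symm (dd p A v w c) = e.symm (JJ p A v w c) ^ 10 * e.symm (FF p A v w c) ^ 2 *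
        e.symm (RR v w c) ^ 9 := by
      simp only [dd, map_mul, map_pow]
    have h1 := pow_ne_zero 10 (hs0 (hJ0 c))
    have h2 := pow_ne_zero 2 (hs0 (hF0 c))
    have h3 := pow_ne_zero 9 (hs0 (hR0 c))
    rw [e1, Scheme.ord_mul (mul_ne_zero h1 h2) h3, Scheme.ord_mul h1 h2, A9_ord_pow (hs0 (hJ0 c)),
      A9_ord_pow (hs0 (hF0 c)), A9_ord_pow (hs0 (hR0 c))]
    push_cast
    ring
  let KX : X.left → ℤ := fun z ↦ Scheme.ord (e.symm (JJ p A v w (ix z))) z
  let D : X.left → ℤ := fun z ↦ Scheme.ord (e.symm (dd p A v w (ix z))) z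
  let Δ : X.left → ℚ := fun z ↦ if coheight z = 1 then
    (2 * Scheme.ord (e.symm (FF p A v w (ix z))) z + 9 * Scheme.ord (e.symm (RR v w (ix z))) z : ℤ) /
      10 else 0
  have hDK : ∀ z, coheight z = 1 → (D z : ℚ) = 10 * (KX z + Δ z) := by
    intro z hz
    simp only [D, KX, Δ, if_pos hz, hdd]
    push_cast
    ring
  have hFF : ∀ (c : {c : Ch // c.inX}) z, z ∈ Set.range (a.c c) → FF p A v w c ∈ LK X e z := by
    rintro c _ ⟨y, rfl⟩
    exact hL.le c y (FF_mem hp3 h (Or.inl c.2))
  have hRR : ∀ (c : {c : Ch // c.inX}) z, z ∈ Set.range (a.c c) → RR v w c ∈ LK X e z := by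
    rintro c _ ⟨y, rfl⟩
    exact hL.le c y (RR_mem c.2)
  have hcan : IsCanonical k X (wedge (e.symm A) (e.symm v) (e.symm w)) KX := by
    refine ⟨?_, fun z hz ↦ hasFormOrd_JJ e hp h a hL hX hd (hix z) hz⟩
    obtain ⟨Φ, -, h2⟩ := exists_formMap e
    intro h0
    apply wedge_ne_zero h
    have h3 := h2 (e.symm A) (e.symm v) (e.symm w)
    rw [h0, map_zero, e.apply_symm_apply, e.apply_symm_apply, e.apply_symm_apply] at h3
    exact h3.symm
  refine ⟨KX, Δ, hcan, ?_, ?_⟩
  · constructor
    · -- effective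
      intro z
      by_cases hz : coheight z = 1
      · have h1 : 0 ≤ Scheme.ord (e.symm (FF p A v w (ix z))) z :=
          (ord_nonneg_iff hX hz (hs0 (hF0 _))).2 (K15_symm_mem e (hFF _ z (hix z)))
        have h2 : 0 ≤ Scheme.ord (e.symm (RR v w (ix z))) z :=
          (ord_nonneg_iff hX hz (hs0 (hR0 _))).2 (K15_symm_mem e (hRR _ z (hix z)))
        have h3 : (0 : ℤ) ≤ 2 * Scheme.ord (e.symm (FF p A v w (ix z))) z +
            9 * Scheme.ord (e.symm (RR v w (ix z))) z := by omega
        simp only [Δ, if_pos hz]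
        have h4 : (0 : ℚ) ≤ ((2 * Scheme.ord (e.symm (FF p A v w (ix z))) z +
            9 * Scheme.ord (e.symm (RR v w (ix z))) z : ℤ) : ℚ) := by exact_mod_cast h3
        positivity
      · simp only [Δ, if_neg hz]
        exact le_rfl
    · -- support
      constructor
      · have hfin : (⋃ c : {c : Ch // c.inX},
            ({z : X.left | z ∈ Set.range (a.c c) ∧ coheight z = 1 ∧
              (FF p A v w c)⁻¹ ∉ LK X e z} ∪
            {z : X.left | z ∈ Set.range (a.c c) ∧ coheight z = 1 ∧
              (RR v w c)⁻¹ ∉ LK X e z})).Finite := by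
          refine Set.finite_iUnion fun c ↦ Set.Finite.union ?_ ?_
          · exact finite_zeros a e hL c (K13_ring_noeth p A v w c) (hF0 c)
              (FF_mem hp3 h (Or.inl c.2))
          · exact finite_zeros a e hL c (K13_ring_noeth p A v w c) (hR0 c) (RR_mem c.2)
        refine hfin.subset fun z hz ↦ ?_
        have hz1 : coheight z = 1 := by
          by_contra hcon
          exact hz (by simp only [Δ, if_neg hcon])
        rw [Set.mem_iUnion]
        refine ⟨ix z, ?_⟩
        by_contra hcon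
        simp only [Set.mem_union, Set.mem_ofPred_eq, hix z, hz1, true_and, not_or, not_not] at hcon
        obtain ⟨g1, g2⟩ := hcon
        apply hz
        have key : ∀ f : K, f ≠ 0 → f ∈ LK X e z → f⁻¹ ∈ LK X e z →
            Scheme.ord (e.symm f) z = 0 := by
          intro f hf h1 h2
          have h3 := (ord_nonneg_iff hX hz1 (hs0 hf)).2 (K15_symm_mem e h1)
          have h4 := K15_symm_mem e h2
          rw [map_inv₀] at h4
          have h5 := (ord_nonneg_iff hX hz1 (inv_ne_zero (hs0 hf))).2 h4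
          rw [A9_ord_inv (hs0 hf)] at h5
          omega
        simp only [Δ, if_pos hz1]
        rw [key _ (hF0 _) (hFF _ z (hix z)) g1, key _ (hR0 _) (hRR _ z (hix z)) g2]
        simp
      · intro z hz
        by_contra hcon
        exact hz (by simp only [Δ, if_neg hcon])
    · -- log discrepancies
      have hloc : ∀ (x : X.left) (c : {c : Ch // c.inX}), x ∈ Set.range (a.c c) → ∀ z, z ⤳ x →
          z ∈ Set.range (a.c c) := by
        intro x c hx z hz
        have := a.isOpen c
        exact hz.mem_open (a.c c).isOpenEmbedding.isOpen_range hx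
      have hDeq : ∀ (c : {c : Ch // c.inX}) z, z ∈ Set.range (a.c c) → coheight z = 1 →
          Scheme.ord (e.symm (dd p A v w c)) z = D z := fun c z hz h1 ↦
        ord_dd e hp h a hL hX hd hz (hix z) h1
      refine ⟨_, KX, hcan, 10, D, by norm_num, fun z hz ↦ by
        rw [hDK z hz]
        norm_num, ?_, ?_⟩
      · intro x
        have := a.isOpen (ix x)
        refine ⟨(a.c (ix x)).opensRange, hix x, e.symm (dd p A v w (ix x)), hs0 (hD0 _), ?_⟩
        intro z hz h1
        exact hDeq (ix x) z hz h1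
      · intro O x hO hOx g hg m b hm hb
        obtain ⟨hO1, hO2, -⟩ := hO
        have hle := HasCentre.le hOx
        have hdx : LocalEq D x (e.symm (dd p A v w (ix x))) :=
          ⟨hs0 (hD0 _), fun z hz hzx ↦ hDeq (ix x) z (hloc x _ (hix x) z hzx) hz⟩
        have h1 := hle (LocalEq.div_mem hX hg hdx)
        have h2 := hle (LocalEq.div_mem hX hdx hg)
        have hg0 := hg.1
        have hb' : HasOrd O (e.symm (dd p A v w (ix x))) b := by
          have h3 : HasOrd O (e.symm (dd p A v w (ix x)) / g) 0 := by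
            rw [HasOrd.zero_iff hO1 hO2 (div_ne_zero hdx.1 hg0), inv_div]
            exact ⟨h2, h1⟩
          have h4 := HasOrd.mul hO1 hO2 hb h3
          rw [add_zero, mul_div_cancel₀ _ hg0] at h4
          exact h4
        have hm' := HasFormOrd.map e hm
        have hb'' := HasOrd.map e hb'
        rw [e.apply_symm_apply, e.apply_symm_apply, e.apply_symm_apply] at hm'
        rw [e.apply_symm_apply] at hb''
        have hcO : ring k p A v w (ix x) ≤ O.map e.toAlgHom := by
          obtain ⟨y, hy⟩ := hix x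
          have h5 := hL.le (ix x) y
          rw [hy] at h5
          refine h5.trans ?_
          rintro _ ⟨f, hf, rfl⟩
          exact ⟨f, hle hf, rfl⟩
        have := klt_final (K15_map_dvr e hO1) (K15_map_frac e hO2) hp3 h (ix x).2 hcO hm' hb''
        exact_mod_cast this
  · intro i z hz h1
    rw [ord_dd e hp h a hL hX hd hz (hix z) h1]
    exact hDK z h1

end H1F
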