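import Pool.Agent.Lib.H1F.KLT.K14

/-! # H1F, part KLT, chunk K17: the divisor `K_X' + Δ'` on `X'` -/

open CategoryTheory AlgebraicGeometry Order

universe u

namespace H1F

variable {k : Type u} [Field k] {p : ℕ} [Fact p.Prime] [CharP k p]

/-- Every point `z'` of codimension one of `X'` has a point `z` of codimension one of `X` with the
same local ring `L` in `K`; `KX'` and `Δ'` are the transported functions.  Then `KX'` is the canonical
divisor of `ω` (`HasFormOrd.map` for `e` and for `e'.symm`), and `20 (K_X' + Δ')` has the local equations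
`dd'` (`LK_hasOrd_iff` for `X` and `X'`, `dd'_unit` for `L`, `LK_isLocDVR`, `Scheme.ord_mul`). -/
theorem divisors_X' (hp : 5 ≤ p) {K : Type u} [Field K] [Algebra k K] {A v w : K}
    (h : Gen k A v w) {X X' : Over (Spec (CommRingCat.of k))} [IsIntegral X.left]
    [IsLocallyNoetherian X.left] [IsIntegral X'.left] [IsLocallyNoetherian X'.left]
    (hX : Variety k X) (hX' : Variety k X') (e : X.left.functionField ≃ₐ[k] K)
    (e' : X'.left.functionField ≃ₐ[k] K)
    (a : Atlas (fun i : {c : Ch // c.inX} ↦ ring k p A v w i) X)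
    (a' : Atlas (fun i : {c : Ch // c.inX'} ↦ ring k p A v w i) X')
    (hL : FLIP.LocData a (LK X e)) (hL' : FLIP.LocData a' (LK X' e'))
    {KX : X.left → ℤ} {Δ : X.left → ℚ}
    (hK : IsCanonical k X (wedge (e.symm A) (e.symm v) (e.symm w)) KX)
    (hD : ∀ (i : {c : Ch // c.inX}) (z : X.left), z ∈ Set.range (a.c i) → coheight z = 1 →
        (Scheme.ord (e.symm (dd p A v w i)) z : ℚ) = 10 * (KX z + Δ z))
    (hex : ∀ z' : X'.left, coheight z' = 1 → ∃ z : X.left, coheight z = 1 ∧
      LK X e z = LK X' e' z')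
    {KX' : X'.left → ℤ} {Δ' : X'.left → ℚ}
    (htr : ∀ (z : X.left) (z' : X'.left), coheight z = 1 → coheight z' = 1 →
      LK X e z = LK X' e' z' → KX' z' = KX z ∧ Δ' z' = Δ z) :
    IsCanonical k X' (wedge (e'.symm A) (e'.symm v) (e'.symm w)) KX' ∧
      ∀ (i : {c : Ch // c.inX'}) (z' : X'.left), z' ∈ Set.range (a'.c i) → coheight z' = 1 →
        (Scheme.ord (e'.symm (dd' p A v w i)) z' : ℚ) = 20 * (KX' z' + Δ' z') := by
  have : CharP K p := charP_of_injective_algebraMap (algebraMap k K).injective p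
  have hd : Algebra.trdeg k K = 3 := trdeg_eq h
  refine ⟨⟨?_, fun z' hz' ↦ ?_⟩, fun i z' hi hz' ↦ ?_⟩
  · intro h0
    obtain ⟨Φ, -, h2⟩ := exists_formMap (k := k) e'
    have h3 := h2 (e'.symm A) (e'.symm v) (e'.symm w)
    rw [h0, map_zero, e'.apply_symm_apply, e'.apply_symm_apply, e'.apply_symm_apply] at h3
    exact wedge_ne_zero h h3.symm
  · obtain ⟨z, hz, hzz⟩ := hex z' hz'
    have h1 := HasFormOrd.map e (hK.2 z hz)
    rw [e.apply_symm_apply, e.apply_symm_apply, e.apply_symm_apply] at h1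
    have h1' : HasFormOrd (LK X' e' z') (wedge A v w : Form k K) (KX z) := by
      rw [← hzz]
      exact h1
    have h2 := HasFormOrd.map e'.symm h1'
    rw [K14_map_symm] at h2
    rw [(htr z z' hz hz' hzz).1]
    exact h2
  · obtain ⟨z, hz, hzz⟩ := hex z' hz'
    obtain ⟨hK1, hΔ1⟩ := htr z z' hz hz' hzz
    obtain ⟨j, y, hy⟩ := a.cover z
    have hj : z ∈ Set.range (a.c j) := ⟨y, hy⟩
    have hDz := hD j z hj hz
    have hLD := LK_isLocDVR e a hL hX hd j hj hz
    have hle : ring k p A v w i ≤ LK X e z := by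
      rw [hzz]
      exact (hL'.mem_range_iff z' i).1 hi
    obtain ⟨u1, u2⟩ := dd'_unit hp h j.2 i.2 hLD hle
    have hp2 : 2 ≤ p := by omega
    have hn1 := dd_ne_zero h hp2 j.1
    have hn2 := dd'_ne_zero h hp2 i.1
    have o1 : HasOrd (LK X e z) (dd p A v w j) (Scheme.ord (e.symm (dd p A v w j)) z) :=
      (LK_hasOrd_iff e hX hz hn1 _).2 rfl
    have o2 : HasOrd (LK X' e' z') (dd' p A v w i) (Scheme.ord (e'.symm (dd' p A v w i)) z') :=
      (LK_hasOrd_iff e' hX' hz' hn2 _).2 rfl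
    rw [← hzz] at o2
    have hO := hLD.dvr
    have hKf := hLD.frac
    have o3 := HasOrd.pow hO hKf o1 2
    have o4 := HasOrd.mul hO hKf o3 (HasOrd.inv hO hKf o2)
    have o5 := HasOrd.mul hO hKf o2 (HasOrd.inv hO hKf o3)
    rw [← div_eq_mul_inv] at o4 o5
    have i1 := (HasOrd.nonneg_iff hO hKf o4).2 u1
    have i2 := (HasOrd.nonneg_iff hO hKf o5).2 u2
    have i3 : Scheme.ord (e'.symm (dd' p A v w i)) z' =
        2 * Scheme.ord (e.symm (dd p A v w j)) z := by
      push_cast at i1 i2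
      omega
    rw [i3, hK1, hΔ1]
    push_cast
    rw [hDz]
    ring

end H1F
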