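import Pool.Agent.Lib.H1F.KLT.KDefs

/-! # H1F, part KLT, chunk K18: everything is compatible with isomorphisms of fields -/

universe u

namespace H1F

variable {k : Type u} [Field k] {K₁ K₂ : Type u} [Field K₁] [Algebra k K₁] [Field K₂]
  [Algebra k K₂] (e : K₁ ≃ₐ[k] K₂) (p : ℕ)

theorem K18_fa (A v w : K₁) (f : Fin 6) : fa p (e A) (e v) (e w) f = e (fa p A v w f) := by
  fin_cases f <;> simp [fa]

theorem K18_fv (v w : K₁) (f : Fin 6) : fv (e v) (e w) f = e (fv v w f) := by
  fin_cases f <;> simp [fv]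

theorem K18_fw (v w : K₁) (f : Fin 6) : fw (e v) (e w) f = e (fw v w f) := by
  fin_cases f <;> simp [fw]

theorem K18_lamF (v w : K₁) (f : Fin 6) : lamF p (e v) (e w) f = e (lamF p v w f) := by
  fin_cases f <;> simp [lamF]

theorem K18_nn (A v w : K₁) : e (nn p A v w) = nn p (e A) (e v) (e w) := by
  simp [nn]

theorem yy_map (A v w : K₁) : e (yy p A v w) = yy p (e A) (e v) (e w) := by
  simp [yy]

theorem K18_NI (a v w : K₁) : (NI k a v w).map e.toAlgHom = NI k (e a) (e v) (e w) := by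
  unfold NI
  rw [AlgHom.map_adjoin]
  congr 1
  simp [Set.image_insert_eq]

theorem K18_NII (a v w : K₁) : (NII k a v w).map e.toAlgHom = NII k (e a) (e v) (e w) := by
  unfold NII
  rw [AlgHom.map_adjoin]
  congr 1
  simp [Set.image_insert_eq]

theorem K18_MM (a v w : K₁) : (MM k p a v w).map e.toAlgHom = MM k p (e a) (e v) (e w) := by
  unfold MM
  rw [AlgHom.map_adjoin]
  congr 1
  simp [Set.image_insert_eq]

theorem ring_map (A v w : K₁) (c : Ch) :
    (ring k p A v w c).map e.toAlgHom = ring k p (e A) (e v) (e w) c := by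
  cases c with
  | NI f =>
    show (NI k (fa p A v w f) (fv v w f) (fw v w f)).map e.toAlgHom = NI k _ _ _
    rw [K18_NI, K18_fa, K18_fv, K18_fw]
  | NII f =>
    show (NII k (fa p A v w f) (fv v w f) (fw v w f)).map e.toAlgHom = NII k _ _ _
    rw [K18_NII, K18_fa, K18_fv, K18_fw]
  | M i =>
    fin_cases i
    · exact K18_MM e p A v w
    · show (MM k p (A / v ^ p) v⁻¹ (w / v)).map e.toAlgHom = MM k p _ _ _
      rw [K18_MM]
      simp
    · show (MM k p (A / w ^ p) w⁻¹ (v / w)).map e.toAlgHom = MM k p _ _ _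
      rw [K18_MM]
      simp
  | T6 =>
    show (T6 k p A v w).map e.toAlgHom = T6 k p _ _ _
    unfold T6
    rw [AlgHom.map_adjoin]
    congr 1
    simp [Set.image_insert_eq]
  | P1 =>
    show (P1 k p A v w).map e.toAlgHom = P1 k p _ _ _
    unfold P1
    rw [AlgHom.map_adjoin]
    congr 1
    simp [Set.image_insert_eq, K18_nn]
  | P2 =>
    show (P2 k p A v w).map e.toAlgHom = P2 k p _ _ _
    unfold P2
    rw [AlgHom.map_adjoin]
    congr 1
    simp [Set.image_insert_eq, K18_nn]
  | P3 =>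
    show (P3 k p A v w).map e.toAlgHom = P3 k p _ _ _
    unfold P3
    rw [AlgHom.map_adjoin]
    congr 1
    simp [Set.image_insert_eq, yy_map]
  | P4 =>
    show (P4 k p A v w).map e.toAlgHom = P4 k p _ _ _
    unfold P4
    rw [AlgHom.map_adjoin]
    congr 1
    simp [Set.image_insert_eq, yy_map]
  | Y0 =>
    show (Y0 k p A v w).map e.toAlgHom = Y0 k p _ _ _
    unfold Y0
    rw [AlgHom.map_adjoin]
    congr 1
    simp [Set.image_insert_eq, yy_map]

theorem ring_comap (A v w : K₂) (c : Ch) :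
    (ring k p A v w c).comap e.toAlgHom = ring k p (e.symm A) (e.symm v) (e.symm w) c := by
  have h := ring_map e p (e.symm A) (e.symm v) (e.symm w) c
  rw [e.apply_symm_apply, e.apply_symm_apply, e.apply_symm_apply] at h
  rw [← h]
  exact Subalgebra.comap_map_eq_self_of_injective e.injective _

theorem JJ_map (A v w : K₁) (c : Ch) : e (JJ p A v w c) = JJ p (e A) (e v) (e w) c := by
  cases c <;> simp [JJ, K18_fa, K18_fv, K18_fw, K18_lamF]

theorem FF_map (A v w : K₁) (c : Ch) : e (FF p A v w c) = FF p (e A) (e v) (e w) c := by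
  cases c with
  | NI f => fin_cases f <;> simp [FF]
  | NII f => fin_cases f <;> simp [FF]
  | M i => fin_cases i <;> simp [FF]
  | _ => simp [FF]

theorem K18_RR (v w : K₁) (c : Ch) : e (RR v w c) = RR (e v) (e w) c := by
  cases c <;> simp [RR]

theorem dd_map (A v w : K₁) (c : Ch) : e (dd p A v w c) = dd p (e A) (e v) (e w) c := by
  simp [dd, JJ_map, FF_map, K18_RR]

theorem dd'_map (A v w : K₁) (c : Ch) : e (dd' p A v w c) = dd' p (e A) (e v) (e w) c := by
  cases c <;> simp [dd', dd_map, yy_map]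

theorem K18_vec (A v w : K₁) : (![e A, e v, e w] : Fin 3 → K₂) = fun i => e (![A, v, w] i) := by
  funext i
  fin_cases i <;> rfl

theorem K18_aeval (A v w : K₁) (P : MvPolynomial (Fin 3) k) :
    MvPolynomial.aeval ![e A, e v, e w] P = e (MvPolynomial.aeval ![A, v, w] P) := by
  rw [K18_vec]
  have h := MvPolynomial.comp_aeval_apply (![A, v, w] : Fin 3 → K₁) (e : K₁ →ₐ[k] K₂) P
  exact h.symm

theorem Gen.map {A v w : K₁} (h : Gen k A v w) : Gen k (e A) (e v) (e w) := by
  refine ⟨?_, ?_⟩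
  · have h1 : Function.Injective (MvPolynomial.aeval ![A, v, w] : MvPolynomial (Fin 3) k →ₐ[k] K₁) :=
      h.indep
    have h2 : Function.Injective
        (MvPolynomial.aeval ![e A, e v, e w] : MvPolynomial (Fin 3) k →ₐ[k] K₂) := by
      intro P Q hPQ
      rw [K18_aeval, K18_aeval] at hPQ
      exact h1 (e.injective hPQ)
    exact h2
  · intro f
    obtain ⟨a, b, hb, hab⟩ := h.gen (e.symm f)
    refine ⟨a, b, ?_, ?_⟩
    · rw [K18_aeval]
      exact (map_ne_zero e).2 hb
    · rw [K18_aeval, K18_aeval, ← hab, map_mul, e.apply_symm_apply]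

theorem IsLocDVR.map {R L : Subalgebra k K₁} (h : IsLocDVR R L) :
    IsLocDVR (R.map e.toAlgHom) (L.map e.toAlgHom) := by
  have hd := h.dvr
  have hf := h.frac
  have hmem : ∀ x, x ∈ L.map e.toAlgHom ↔ e.symm x ∈ L := by
    intro x
    constructor
    · rintro ⟨y, hy, rfl⟩
      have h1 : e.symm (e.toAlgHom y) = y := e.symm_apply_apply y
      show e.symm (e.toAlgHom y) ∈ L
      rw [h1]
      exact hy
    · intro hx
      exact ⟨e.symm x, hx, e.apply_symm_apply x⟩
  refine ⟨Subalgebra.map_mono h.le, ?_, ?_, ?_⟩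
  · exact IsDiscreteValuationRing.RingEquivClass.isDiscreteValuationRing (L.equivMapOfInjective e.toAlgHom e.injective)
  · refine (isLocalization_iff _ _).2 ⟨?_, ?_, ?_⟩
    · rintro ⟨y, hy⟩
      have : (y : K₂) ≠ 0 := fun h0 => nonZeroDivisors.ne_zero hy (Subtype.ext h0)
      exact IsUnit.mk0 _ this
    · intro z
      obtain ⟨⟨a, s⟩, has⟩ := IsLocalization.surj (nonZeroDivisors L) (e.symm z)
      have hs0 : ((s : L) : K₁) ≠ 0 := fun h0 => nonZeroDivisors.ne_zero s.2 (Subtype.ext h0)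
      have has' : e.symm z * ((s : L) : K₁) = (a : K₁) := has
      have ma : e (a : K₁) ∈ L.map e.toAlgHom := ⟨a, a.2, rfl⟩
      have ms : e ((s : L) : K₁) ∈ L.map e.toAlgHom := ⟨_, (s : L).2, rfl⟩
      refine ⟨(⟨e (a : K₁), ma⟩, ⟨⟨e ((s : L) : K₁), ms⟩, ?_⟩), ?_⟩
      · rw [mem_nonZeroDivisors_iff_ne_zero]
        intro h0
        have h1 : e ((s : L) : K₁) = 0 := congrArg Subtype.val h0
        exact hs0 ((map_eq_zero e).1 h1)
      · show z * e ((s : L) : K₁) = e (a : K₁)
        rw [← has', map_mul, e.apply_symm_apply]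
    · intro x y hxy
      refine ⟨1, ?_⟩
      have : x = y := Subtype.ext hxy
      rw [this]
  · intro f hf'
    obtain ⟨a, ha, s, hs, hs0, hsi, hfa⟩ := h.loc (e.symm f) ((hmem f).1 hf')
    refine ⟨e a, ⟨a, ha, rfl⟩, e s, ⟨s, hs, rfl⟩, (map_ne_zero e).2 hs0, ?_, ?_⟩
    · rw [hmem, map_inv₀, e.symm_apply_apply]
      exact hsi
    · rw [← map_inv₀, ← map_mul, ← hfa, e.apply_symm_apply]

end H1F
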