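import Pool.Agent.Lib.H1F.KLT.KDefs

/-! # H1F, part KLT, chunk K1: algebra of 3-forms -/

universe u

namespace H1F

variable {k : Type u} [Field k] {K : Type u} [Field K] [Algebra k K]

theorem K1_def (a b c : K) : (wedge a b c : Form k K) =
    exteriorPower.ιMulti K 3 ![KaehlerDifferential.D k K a, KaehlerDifferential.D k K b,
      KaehlerDifferential.D k K c] := rfl

/-- the linear map in the first slot -/
noncomputable def K1_lin (y z : Ω[K⁄k]) : Ω[K⁄k] →ₗ[K] Form k K :=
  (exteriorPower.ιMulti K 3).toMultilinearMap.toLinearMap ![0, y, z] 0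

theorem K1_lin_apply (x y z : Ω[K⁄k]) :
    K1_lin y z x = exteriorPower.ιMulti K 3 ![x, y, z] := by
  change (exteriorPower.ιMulti K 3) (Function.update ![0, y, z] 0 x) = _
  congr 1
  funext i
  fin_cases i <;> simp [Function.update]

/-- In the first argument `wedge` is a `k`-derivation of `K` with values in the forms:
`a ↦ ιMulti ![D a, D b, D c]`. -/
theorem exists_wD (b c : K) : ∃ δ : Derivation k K (Form k K), ∀ a, δ a = wedge a b c := by
  refine ⟨(K1_lin (KaehlerDifferential.D k K b) (KaehlerDifferential.D k K c)).compDer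
    (KaehlerDifferential.D k K), fun a ↦ ?_⟩
  rw [K1_def, ← K1_lin_apply]
  rfl

/-- `wedge` is alternating. -/
theorem wedge_swap (a b c : K) : (wedge a b c : Form k K) = -wedge b a c := by
  have h := (exteriorPower.ιMulti K 3 (M := Ω[K⁄k])).map_swap
    ![KaehlerDifferential.D k K b, KaehlerDifferential.D k K a,
      KaehlerDifferential.D k K c] (i := 0) (j := 1) (by decide)
  rw [K1_def, K1_def, ← h]
  congr 1
  funext i
  fin_cases i <;> simp [Equiv.swap_apply_def]

theorem K1_swap23 (a b c : K) : (wedge a b c : Form k K) = -wedge a c b := by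
  have h := (exteriorPower.ιMulti K 3 (M := Ω[K⁄k])).map_swap
    ![KaehlerDifferential.D k K a, KaehlerDifferential.D k K c,
      KaehlerDifferential.D k K b] (i := 1) (j := 2) (by decide)
  rw [K1_def, K1_def, ← h]
  congr 1
  funext i
  fin_cases i <;> simp [Equiv.swap_apply_def]

theorem wedge_cycle (a b c : K) : (wedge a b c : Form k K) = wedge b c a := by
  rw [wedge_swap, K1_swap23, neg_neg]

theorem wedge_self (a c : K) : (wedge a a c : Form k K) = 0 := by
  rw [K1_def]
  exact (exteriorPower.ιMulti K 3 (M := Ω[K⁄k])).map_eq_zero_of_eq _ (i := 0) (j := 1) (by simp)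
    (by decide)

theorem wedge_add (a a' b c : K) : (wedge (a + a') b c : Form k K) = wedge a b c + wedge a' b c := by
  obtain ⟨δ, hδ⟩ := exists_wD (k := k) b c
  rw [← hδ, ← hδ, ← hδ, map_add]

theorem wedge_sub (a a' b c : K) : (wedge (a - a') b c : Form k K) = wedge a b c - wedge a' b c := by
  obtain ⟨δ, hδ⟩ := exists_wD (k := k) b c
  rw [← hδ, ← hδ, ← hδ, map_sub]

theorem wedge_neg (a b c : K) : (wedge (-a) b c : Form k K) = -wedge a b c := by
  obtain ⟨δ, hδ⟩ := exists_wD (k := k) b c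
  rw [← hδ, ← hδ, map_neg]

theorem wedge_mul (a a' b c : K) :
    (wedge (a * a') b c : Form k K) = a • wedge a' b c + a' • wedge a b c := by
  obtain ⟨δ, hδ⟩ := exists_wD (k := k) b c
  rw [← hδ, ← hδ, ← hδ, Derivation.leibniz]

theorem wedge_const (r : k) (b c : K) : (wedge (algebraMap k K r) b c : Form k K) = 0 := by
  obtain ⟨δ, hδ⟩ := exists_wD (k := k) b c
  rw [← hδ, Derivation.map_algebraMap]

theorem wedge_one (b c : K) : (wedge 1 b c : Form k K) = 0 := by
  obtain ⟨δ, hδ⟩ := exists_wD (k := k) b c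
  rw [← hδ, Derivation.map_one_eq_zero]

theorem wedge_inv {a : K} (ha : a ≠ 0) (b c : K) :
    (wedge a⁻¹ b c : Form k K) = -((a ^ 2)⁻¹ • wedge a b c) := by
  have h := wedge_mul (k := k) a a⁻¹ b c
  rw [mul_inv_cancel₀ ha, wedge_one] at h
  have h2 : a • (wedge a⁻¹ b c : Form k K) = -(a⁻¹ • wedge a b c) := by
    rw [eq_neg_iff_add_eq_zero]
    exact h.symm
  have h3 := congrArg (fun x ↦ a⁻¹ • x) h2
  simp only [smul_smul, inv_mul_cancel₀ ha, one_smul, smul_neg] at h3
  rw [h3]
  congr 2
  field_simp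

theorem wedge_pow (a : K) (n : ℕ) (b c : K) :
    (wedge (a ^ n) b c : Form k K) = ((n : K) * a ^ (n - 1)) • wedge a b c := by
  obtain ⟨δ, hδ⟩ := exists_wD (k := k) b c
  rw [← hδ, ← hδ, Derivation.leibniz_pow, mul_smul, Nat.cast_smul_eq_nsmul]

/-- in characteristic `p` the differential of a `p`-th power is zero -/
theorem wedge_pow_char (p : ℕ) [CharP K p] (a b c : K) : (wedge (a ^ p) b c : Form k K) = 0 := by
  rw [wedge_pow, CharP.cast_eq_zero, zero_mul, zero_smul]

/-- the alternating map on differentials -/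
theorem K1_T12 (x y z : Ω[K⁄k]) : exteriorPower.ιMulti K 3 ![x, y, z] =
    -exteriorPower.ιMulti K 3 ![y, x, z] := by
  have h := (exteriorPower.ιMulti K 3 (M := Ω[K⁄k])).map_swap ![y, x, z] (i := 0) (j := 1)
    (by decide)
  rw [← h]
  congr 1
  funext i
  fin_cases i <;> simp [Equiv.swap_apply_def]

theorem K1_T23 (x y z : Ω[K⁄k]) : exteriorPower.ιMulti K 3 ![x, y, z] =
    -exteriorPower.ιMulti K 3 ![x, z, y] := by
  have h := (exteriorPower.ιMulti K 3 (M := Ω[K⁄k])).map_swap ![x, z, y] (i := 1) (j := 2)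
    (by decide)
  rw [← h]
  congr 1
  funext i
  fin_cases i <;> simp [Equiv.swap_apply_def]

theorem K1_T11 (x z : Ω[K⁄k]) : exteriorPower.ιMulti K 3 ![x, x, z] = 0 :=
  (exteriorPower.ιMulti K 3 (M := Ω[K⁄k])).map_eq_zero_of_eq _ (i := 0) (j := 1) (by simp)
    (by decide)

theorem K1_T22 (x z : Ω[K⁄k]) : exteriorPower.ιMulti K 3 ![x, z, z] = 0 :=
  (exteriorPower.ιMulti K 3 (M := Ω[K⁄k])).map_eq_zero_of_eq _ (i := 1) (j := 2) (by simp)
    (by decide)

theorem K1_T13 (x z : Ω[K⁄k]) : exteriorPower.ιMulti K 3 ![x, z, x] = 0 :=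
  (exteriorPower.ιMulti K 3 (M := Ω[K⁄k])).map_eq_zero_of_eq _ (i := 0) (j := 2) (by simp)
    (by decide)

/-- linearity in one slot: if the form is in `N` for the generators in the first slot, it is in `N` -/
theorem K1_slot (O : Subalgebra k K) (N : Submodule O (Form k K)) (S : Set Ω[K⁄k])
    (y z : Ω[K⁄k]) (h : ∀ x ∈ S, exteriorPower.ιMulti K 3 ![x, y, z] ∈ N) {x : Ω[K⁄k]}
    (hx : x ∈ Submodule.span O S) : exteriorPower.ιMulti K 3 ![x, y, z] ∈ N := by
  induction hx using Submodule.span_induction with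
  | mem x hx => exact h x hx
  | zero =>
    rw [← K1_lin_apply, map_zero]
    exact N.zero_mem
  | add x x' _ _ h1 h2 =>
    rw [← K1_lin_apply] at h1 h2 ⊢
    rw [map_add]
    exact N.add_mem h1 h2
  | smul a x _ h1 =>
    rw [← K1_lin_apply] at h1 ⊢
    have : (K1_lin y z) (a • x) = a • (K1_lin y z) x := by
      change (K1_lin y z) ((a : K) • x) = (a : K) • (K1_lin y z) x
      rw [map_smul]
    rw [this]
    exact N.smul_mem a h1

/-- If `D f`, `D g`, `D h` are combinations of `D x`, `D y`, `D z` with coefficients in `O`, then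
`wedge f g h ∈ O • wedge x y z`. (Expand; all terms are `±` multiples of `wedge x y z` or zero.) -/
theorem wedge_mem_span (O : Subalgebra k K) (x y z : K) {f g h : K}
    (hf : KaehlerDifferential.D k K f ∈ Submodule.span O {KaehlerDifferential.D k K x,
      KaehlerDifferential.D k K y, KaehlerDifferential.D k K z})
    (hg : KaehlerDifferential.D k K g ∈ Submodule.span O {KaehlerDifferential.D k K x,
      KaehlerDifferential.D k K y, KaehlerDifferential.D k K z})
    (hh : KaehlerDifferential.D k K h ∈ Submodule.span O {KaehlerDifferential.D k K x,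
      KaehlerDifferential.D k K y, KaehlerDifferential.D k K z}) :
    (wedge f g h : Form k K) ∈ Submodule.span O {(wedge x y z : Form k K)} := by
  set N := Submodule.span O {(wedge x y z : Form k K)} with hN
  set X := KaehlerDifferential.D k K x
  set Y := KaehlerDifferential.D k K y
  set Z := KaehlerDifferential.D k K z
  have h0 : exteriorPower.ιMulti K 3 ![X, Y, Z] ∈ N := Submodule.subset_span rfl
  have h0' : -exteriorPower.ιMulti K 3 ![X, Y, Z] ∈ N := N.neg_mem h0
  rw [K1_def]
  refine K1_slot O N {X, Y, Z} _ _ (fun a ha ↦ ?_) hf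
  rw [K1_T12]
  refine N.neg_mem (K1_slot O N {X, Y, Z} _ _ (fun b hb ↦ ?_) hg)
  rw [K1_T23, K1_T12]
  refine N.neg_mem (N.neg_mem (K1_slot O N {X, Y, Z} _ _ (fun c hc ↦ ?_) hh))
  simp only [Set.mem_insert_iff, Set.mem_singleton_iff] at ha hb hc
  have e1 : exteriorPower.ιMulti K 3 ![X, Z, Y] = -exteriorPower.ιMulti K 3 ![X, Y, Z] :=
    K1_T23 _ _ _
  have e2 : exteriorPower.ιMulti K 3 ![Y, X, Z] = -exteriorPower.ιMulti K 3 ![X, Y, Z] :=
    K1_T12 _ _ _
  have e3 : exteriorPower.ιMulti K 3 ![Y, Z, X] = exteriorPower.ιMulti K 3 ![X, Y, Z] := by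
    rw [K1_T23, e2, neg_neg]
  have e4 : exteriorPower.ιMulti K 3 ![Z, X, Y] = exteriorPower.ιMulti K 3 ![X, Y, Z] := by
    rw [K1_T12, e1, neg_neg]
  have e5 : exteriorPower.ιMulti K 3 ![Z, Y, X] = -exteriorPower.ιMulti K 3 ![X, Y, Z] := by
    rw [K1_T12, e3]
  rcases ha with rfl | rfl | rfl <;> rcases hb with rfl | rfl | rfl <;>
    rcases hc with rfl | rfl | rfl <;>
    first
    | exact h0
    | (rw [K1_T11]; exact N.zero_mem)
    | (rw [K1_T22]; exact N.zero_mem)
    | (rw [K1_T13]; exact N.zero_mem)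
    | (rw [e1]; exact h0')
    | (rw [e2]; exact h0')
    | (rw [e3]; exact h0)
    | (rw [e4]; exact h0)
    | (rw [e5]; exact h0')

end H1F
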