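import Pool.Agent.Lib.H1F.KLT.K9

/-! # H1F, part KLT, chunk K10: the log discrepancy inequality on the charts -/

universe u

namespace H1F

variable {k : Type u} [Field k] {K : Type u} [Field K] [Algebra k K] {O : Subalgebra k K}
  (hO : IsDiscreteValuationRing O) (hK : IsFractionRing O K)

include hO hK

/-- `F` and `x` are part of a coordinate system: `dx ∧ dF ∧ dz = g dx ∧ dy ∧ dz`, with a unit `g`
if `F` is not a unit.  Then `v(F) ≤ e + 1` by `HasFormOrd.log` with `x`, `F`, `z`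
(`x, z ≠ 0` elements of `O`; their orders are nonnegative). -/
theorem klt_of_coord {x y z F g : K} (hx : x ∈ O) (hz : z ∈ O) (hx0 : x ≠ 0) (hz0 : z ≠ 0)
    {e α : ℤ} (hF : HasOrd O F α) (hg : HasOrd O g 0)
    (hw : (wedge x F z : Form k K) = g • wedge x y z)
    (h : HasFormOrd O (wedge x y z : Form k K) e) : α ≤ e + 1 := by
  obtain ⟨m1, h1⟩ := HasOrd.exists hO hK hx0
  obtain ⟨m3, h3⟩ := HasOrd.exists hO hK hz0
  have p1 := (HasOrd.nonneg_iff hO hK h1).2 hx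
  have p3 := (HasOrd.nonneg_iff hO hK h3).2 hz
  have h' := HasFormOrd.smul hO hK h hg
  rw [← hw, add_zero] at h'
  have hl := HasFormOrd.log hO hK h1 hF h3 (HasOrd.one hO hK) (e := e) (by rwa [one_smul])
  omega

/-- the same with `F` in the first slot -/
theorem K10_of_coord1 {x y z F g : K} (hy : y ∈ O) (hz : z ∈ O) (hy0 : y ≠ 0) (hz0 : z ≠ 0)
    {e α : ℤ} (hF : HasOrd O F α) (hg : HasOrd O g 0)
    (hw : (wedge F y z : Form k K) = g • wedge x y z)
    (h : HasFormOrd O (wedge x y z : Form k K) e) : α ≤ e + 1 := by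
  obtain ⟨m1, h1⟩ := HasOrd.exists hO hK hy0
  obtain ⟨m3, h3⟩ := HasOrd.exists hO hK hz0
  have p1 := (HasOrd.nonneg_iff hO hK h1).2 hy
  have p3 := (HasOrd.nonneg_iff hO hK h3).2 hz
  have h' := HasFormOrd.smul hO hK h hg
  rw [← hw, add_zero] at h'
  have hl := HasFormOrd.log hO hK hF h1 h3 (HasOrd.one hO hK) (e := e) (by rwa [one_smul])
  omega

omit hO hK in
theorem K10_pow2 (a b c : K) (n : ℕ) :
    (wedge a (b ^ n) c : Form k K) = ((n : K) * b ^ (n - 1)) • wedge a b c := by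
  rw [wedge_swap, wedge_pow, wedge_swap b a c, smul_neg, neg_neg]

omit hO hK in
theorem K10_pow3 (a b c : K) (n : ℕ) :
    (wedge a b (c ^ n) : Form k K) = ((n : K) * c ^ (n - 1)) • wedge a b c := by
  rw [← wedge_cycle, wedge_pow, wedge_cycle c a b]

/-- `F = y - x ^ n` (any `n`). -/
theorem klt_a {x y z : K} (n : ℕ) (hx : x ∈ O) (hz : z ∈ O) (hx0 : x ≠ 0) (hz0 : z ≠ 0)
    {e α : ℤ} (hF : HasOrd O (y - x ^ n) α) (h : HasFormOrd O (wedge x y z : Form k K) e) :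
    α ≤ e + 1 := by
  refine klt_of_coord hO hK hx hz hx0 hz0 hF (HasOrd.one hO hK) ?_ h
  rw [K6_sub2, K10_pow2, wedge_self, smul_zero, sub_zero, one_smul]

/-- `F = y`. -/
theorem klt_b {x y z : K} (hx : x ∈ O) (hz : z ∈ O) (hx0 : x ≠ 0) (hz0 : z ≠ 0)
    {e α : ℤ} (hF : HasOrd O y α) (h : HasFormOrd O (wedge x y z : Form k K) e) :
    α ≤ e + 1 := by
  refine klt_of_coord hO hK hx hz hx0 hz0 hF (HasOrd.one hO hK) ?_ h
  rw [one_smul]

/-- `F = x y z^p - 1`: if `α > 0` then `x y z^p = 1 + F` is a unit (`HasOrd.one_add`), so `x`, `y`,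
`z` are units, and `dx ∧ dF ∧ dz = x z^p dx ∧ dy ∧ dz`.  If `α ≤ 0` use `HasFormOrd.nonneg`. -/
theorem klt_c {p : ℕ} [CharP K p] {x y z : K} (hx : x ∈ O) (hy : y ∈ O) (hz : z ∈ O)
    (hx0 : x ≠ 0) (hz0 : z ≠ 0) {e α : ℤ} (hF : HasOrd O (x * y * z ^ p - 1) α)
    (h : HasFormOrd O (wedge x y z : Form k K) e) : α ≤ e + 1 := by
  have he := HasFormOrd.nonneg hO hK hx hy hz h
  rcases le_or_gt α 0 with hα | hα
  · omega
  have h1 := HasOrd.one_add hO hK hF hα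
  have h2 : HasOrd O ((x * z ^ p) * y) 0 := by
    have e1 : 1 + (x * y * z ^ p - 1) = (x * z ^ p) * y := by ring
    rwa [e1] at h1
  have h3 := (HasOrd.of_mul_zero hO hK (O.mul_mem hx (O.pow_mem hz p)) hy h2).1
  refine klt_of_coord hO hK hx hz hx0 hz0 hF h3 ?_ h
  rw [K6_sub2, K6_one2, sub_zero, show x * y * z ^ p = (x * z ^ p) * y by ring, K6_mul2]
  have e2 : (wedge x (x * z ^ p) z : Form k K) = 0 := by
    rw [K6_mul2, wedge_self, smul_zero, add_zero, wedge_swap, wedge_pow_char, neg_zero, smul_zero]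
  rw [e2, smul_zero, add_zero]

/-- `F = 1 - y^p x^(p-1)`: `dF = -(p-1) y^p x^(p-2) dx = y^p x^(p-2) dx` in characteristic `p`;
if `α > 0` then `x`, `y` are units. Use `dF ∧ dy ∧ dz = y^p x^(p-2) dx ∧ dy ∧ dz`. -/
theorem klt_d {p : ℕ} [Fact p.Prime] [CharP K p] (hp : 3 ≤ p) {x y z : K} (hx : x ∈ O)
    (hy : y ∈ O) (hz : z ∈ O) (hy0 : y ≠ 0) (hz0 : z ≠ 0) {e α : ℤ}
    (hF : HasOrd O (1 - y ^ p * x ^ (p - 1)) α)
    (h : HasFormOrd O (wedge x y z : Form k K) e) : α ≤ e + 1 := by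
  have he := HasFormOrd.nonneg hO hK hx hy hz h
  rcases le_or_gt α 0 with hα | hα
  · omega
  have h1 := HasOrd.one_add hO hK (HasOrd.neg hO hK hF) hα
  obtain ⟨q, hq⟩ : ∃ q, p = q + 2 := ⟨p - 2, by omega⟩
  have e0 : p - 1 = q + 1 := by omega
  have h2 : HasOrd O ((y ^ p * x ^ q) * x) 0 := by
    have e1 : 1 + -(1 - y ^ p * x ^ (p - 1)) = (y ^ p * x ^ q) * x := by
      rw [e0]
      ring
    rwa [e1] at h1
  have h3 := (HasOrd.of_mul_zero hO hK (O.mul_mem (O.pow_mem hy p) (O.pow_mem hx q)) hx h2).1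
  refine K10_of_coord1 hO hK hy hz hy0 hz0 hF h3 ?_ h
  rw [wedge_sub, wedge_one, zero_sub, wedge_mul, wedge_pow_char p y, smul_zero, add_zero, wedge_pow,
    smul_smul, ← neg_smul]
  congr 1
  have hpz : ((p : ℕ) : K) = 0 := CharP.cast_eq_zero K p
  have e2 : ((p - 1 : ℕ) : K) = -1 := by
    have : ((p - 1 : ℕ) : K) + 1 = 0 := by
      rw [← hpz]
      have : p = (p - 1) + 1 := by omega
      conv_rhs => rw [this]
      push_cast
      ring
    linear_combination this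
  rw [e2, e0, Nat.add_sub_cancel]
  ring

/-- `F = x z^p - 1`. -/
theorem klt_e {p : ℕ} [Fact p.Prime] [CharP K p] {x y z : K} (hx : x ∈ O) (hy : y ∈ O)
    (hz : z ∈ O) (hy0 : y ≠ 0) (hz0 : z ≠ 0) {e α : ℤ} (hF : HasOrd O (x * z ^ p - 1) α)
    (h : HasFormOrd O (wedge x y z : Form k K) e) : α ≤ e + 1 := by
  have he := HasFormOrd.nonneg hO hK hx hy hz h
  rcases le_or_gt α 0 with hα | hα
  · omega
  have h1 := HasOrd.one_add hO hK hF hα
  have h2 : HasOrd O (z ^ p * x) 0 := by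
    have e1 : 1 + (x * z ^ p - 1) = z ^ p * x := by ring
    rwa [e1] at h1
  have h3 := (HasOrd.of_mul_zero hO hK (O.pow_mem hz p) hx h2).1
  refine K10_of_coord1 hO hK hy hz hy0 hz0 hF h3 ?_ h
  rw [wedge_sub, wedge_one, sub_zero, wedge_mul, wedge_pow_char, smul_zero, zero_add]

/-- `F = x - 1`. -/
theorem klt_f {x y z : K} (hy : y ∈ O) (hz : z ∈ O) (hy0 : y ≠ 0) (hz0 : z ≠ 0)
    {e α : ℤ} (hF : HasOrd O (x - 1) α)
    (h : HasFormOrd O (wedge x y z : Form k K) e) : α ≤ e + 1 := by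
  refine K10_of_coord1 hO hK hy hz hy0 hz0 hF (HasOrd.one hO hK) ?_ h
  rw [wedge_sub, wedge_one, sub_zero, one_smul]

/-- The chart `P2`: `F = (x - 1) z + x^(p-2) y^(p-1)`, `R = y`:
`d(x-1) ∧ dy ∧ dF = (x - 1) dx ∧ dy ∧ dz`, so by `HasFormOrd.log` for `f1 = x - 1`, `f2 = y`, `f3 = F`:
`v(x-1) + β + α ≤ ord((x-1) dx∧dy∧dz) + 1 = e + v(x-1) + 1`. -/
theorem klt_P2 {x y z : K} (m n : ℕ) (hx1 : x ≠ 1) {e α β : ℤ}
    (hF : HasOrd O ((x - 1) * z + x ^ m * y ^ n) α) (hR : HasOrd O y β)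
    (h : HasFormOrd O (wedge x y z : Form k K) e) : α + β ≤ e + 1 := by
  obtain ⟨m1, h1⟩ := HasOrd.exists hO hK (sub_ne_zero.2 hx1)
  have h' := HasFormOrd.smul hO hK h h1
  have hw : ((x - 1) • wedge x y z : Form k K) = wedge (x - 1) y ((x - 1) * z + x ^ m * y ^ n) := by
    rw [wedge_sub, wedge_one, sub_zero,
      show (x - 1) * z + x ^ m * y ^ n = (x - 1) * z - (-x ^ m) * y ^ n by ring, K6_sub3, K6_mul3,
      K6_mul3, K10_pow3, K6_w22, K6_sub3, K6_one3, sub_zero, K6_w13]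
    have e3 : (wedge x y (-x ^ m) : Form k K) = 0 := by
      rw [show -x ^ m = 0 - x ^ m by ring, K6_sub3, K10_pow3, K6_w13, smul_zero, sub_zero,
        show (0 : K) = 1 - 1 by ring, K6_sub3, sub_self]
    rw [e3]
    simp
  rw [hw] at h'
  have hl := HasFormOrd.log hO hK h1 hR hF (HasOrd.one hO hK) (e := e + m1) (by rwa [one_smul])
  omega

/-- The chart `P1`: `F = y^n - (1 - x) z`, `R = y`. -/
theorem klt_P1 {x y z : K} (n : ℕ) (hx1 : x ≠ 1) {e α β : ℤ}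
    (hF : HasOrd O (y ^ n - (1 - x) * z) α) (hR : HasOrd O y β)
    (h : HasFormOrd O (wedge x y z : Form k K) e) : α + β ≤ e + 1 := by
  have e1 : y ^ n - (1 - x) * z = (x - 1) * z + x ^ 0 * y ^ n := by ring
  rw [e1] at hF
  exact klt_P2 hO hK 0 n hx1 hF hR h

/-- All charts: `α = v(F)`, `β = v(R)`; `0 ≤ α, β`, `α + β ≤ e + 1` and `0 ≤ e`
imply `2 α + 9 β < 10 (e + 1)`. -/
theorem klt_chart {p : ℕ} [Fact p.Prime] [CharP K p] (hp : 3 ≤ p) {A v w : K}
    (h : Gen k A v w) {c : Ch} (hc : c.inX) (hcO : ring k p A v w c ≤ O) {e α β : ℤ}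
    (hF : HasOrd O (FF p A v w c) α) (hR : HasOrd O (RR v w c) β)
    (he : HasFormOrd O (wedge (cx p A v w c) (cy p A v w c) (cz p A v w c) : Form k K) e) :
    2 * α + 9 * β < 10 * (e + 1) := by
  have hα := (HasOrd.nonneg_iff hO hK hF).2 (hcO (FF_mem hp h (Or.inl hc)))
  have hβ := (HasOrd.nonneg_iff hO hK hR).2 (hcO (RR_mem hc))
  have hcoord := coord_ring (p := p) h (Or.inl hc)
  have hx := hcO hcoord.hx
  have hy := hcO hcoord.hy
  have hz := hcO hcoord.hz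
  have he0 := HasFormOrd.nonneg hO hK hx hy hz he
  have h1 := HasOrd.one hO hK
  suffices hs : α + β ≤ e + 1 by omega
  rw [FF_eq hp h (Or.inl hc)] at hF
  have hp2 : 2 ≤ p := by omega
  have hone : ∀ {γ : ℤ}, HasOrd O (1 : K) γ → γ = 0 := fun hγ ↦ HasOrd.unique hO hK hγ h1
  cases c with
  | NI f =>
    have hβ0 : β = 0 := hone hR
    obtain ⟨a1, a2, a3, a4, a5, a6, a7, a8, a9⟩ := nz_frame h hp2 f
    have hx0 : cx p A v w (.NI f) ≠ 0 := sub_ne_zero.2 a4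
    have hz0 : cz p A v w (.NI f) ≠ 0 := inv_ne_zero (sub_ne_zero.2 a5)
    have : α ≤ e + 1 := by
      fin_cases f
      · exact klt_b hO hK hx hz hx0 hz0 hF he
      · exact klt_b hO hK hx hz hx0 hz0 hF he
      · exact klt_a hO hK (p - 1) hx hz hx0 hz0 hF he
      · exact klt_c hO hK hx hy hz hx0 hz0 hF he
      · exact klt_a hO hK (p - 1) hx hz hx0 hz0 hF he
      · exact klt_c hO hK hx hy hz hx0 hz0 hF he
    omega
  | NII f =>
    have hβ0 : β = 0 := hone hR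
    obtain ⟨a1, a2, a3, a4, a5, a6, a7, a8, a9⟩ := nz_frame h hp2 f
    have hy0 : cy p A v w (.NII f) ≠ 0 := div_ne_zero (sub_ne_zero.2 a4) (sub_ne_zero.2 a7)
    have hz0 : cz p A v w (.NII f) ≠ 0 := inv_ne_zero (sub_ne_zero.2 a5)
    have : α ≤ e + 1 := by
      fin_cases f
      · have := hone (γ := α) hF; omega
      · have := hone (γ := α) hF; omega
      · exact klt_d hO hK hp hx hy hz hy0 hz0 hF he
      · exact klt_e hO hK hx hy hz hy0 hz0 hF he
      · exact klt_d hO hK hp hx hy hz hy0 hz0 hF he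
      · exact klt_e hO hK hx hy hz hy0 hz0 hF he
    omega
  | M i =>
    have hβ0 : β = 0 := hone hR
    obtain ⟨a1, a2, a3, a4, a5, a6, a7, a8, a9⟩ := nz_frame h hp2 (fm i)
    have hy0 : cy p A v w (.M i) ≠ 0 := inv_ne_zero (sub_ne_zero.2 a4)
    have hz0 : cz p A v w (.M i) ≠ 0 := inv_ne_zero (sub_ne_zero.2 a5)
    have : α ≤ e + 1 := by
      fin_cases i
      · exact klt_f hO hK hy hz hy0 hz0 hF he
      · have := hone (γ := α) hF; omega
      · have := hone (γ := α) hF; omega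
    omega
  | T6 =>
    have hβ0 : β = 0 := hone hR
    have := hone (γ := α) hF
    omega
  | P1 =>
    obtain ⟨b1, b2, b3, b4, b5, b6, b7, b8, b9⟩ := nz h hp2
    have h6 : w ≠ v := fun hh ↦ b6 hh.symm
    refine klt_P1 hO hK (p - 1) ?_ hF hR he
    change (w - 1) / (v - 1) ≠ 1
    rw [Ne, div_eq_one_iff_eq (sub_ne_zero.2 b4)]
    intro hh
    exact h6 (sub_left_injective hh)
  | P2 =>
    obtain ⟨b1, b2, b3, b4, b5, b6, b7, b8, b9⟩ := nz h hp2
    refine klt_P2 hO hK (p - 2) (p - 1) ?_ hF hR he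
    change (v - 1) / (w - 1) ≠ 1
    rw [Ne, div_eq_one_iff_eq (sub_ne_zero.2 b5)]
    intro hh
    exact b6 (sub_left_injective hh)
  | P3 => exact hc.elim
  | P4 => exact hc.elim
  | Y0 => exact hc.elim

/-- The log discrepancy inequality. `a = ord (JJ) + e`, `b = 10 ord (JJ) + 2 α + 9 β`. -/
theorem klt_final {p : ℕ} [Fact p.Prime] [CharP K p] (hp : 3 ≤ p) {A v w : K}
    (h : Gen k A v w) {c : Ch} (hc : c.inX) (hcO : ring k p A v w c ≤ O) {a b : ℤ}
    (ha : HasFormOrd O (wedge A v w : Form k K) a) (hb : HasOrd O (dd p A v w c) b) :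
    (0 : ℚ) < 1 + a - b / 10 := by
  have hp2 : 2 ≤ p := by omega
  have hJ0 := JJ_ne_zero h hp2 c
  obtain ⟨j, hj⟩ := HasOrd.exists hO hK hJ0
  obtain ⟨α, hα⟩ := HasOrd.exists hO hK (FF_ne_zero h hp2 c)
  obtain ⟨β, hβ⟩ := HasOrd.exists hO hK (RR_ne_zero (k := k) h c)
  have h1 := HasFormOrd.smul hO hK ha (HasOrd.inv hO hK hj)
  rw [wedge_chart (p := p) h (Or.inl hc), smul_smul, inv_mul_cancel₀ hJ0, one_smul] at h1
  have h2 := klt_chart hO hK hp h hc hcO hα hβ h1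
  have h3 : HasOrd O (dd p A v w c) (10 * j + 2 * α + 9 * β) := by
    have := HasOrd.mul hO hK (HasOrd.mul hO hK (HasOrd.pow hO hK hj 10) (HasOrd.pow hO hK hα 2))
      (HasOrd.pow hO hK hβ 9)
    exact_mod_cast this
  have h4 := HasOrd.unique hO hK hb h3
  have h5 : b < 10 * (1 + a) := by omega
  have h6 : (b : ℚ) < 10 * (1 + a) := by exact_mod_cast h5
  linarith

end H1F
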