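import Pool.Agent.Lib.H1F.KLT.K7
import Pool.Agent.Lib.H1F.MO.M16

/-! # H1F, part KLT, chunk K11: the local equations agree on the intersections (from MONO) -/

universe u

namespace H1F

section K11aux

/-- The exponents of `dd c`. -/
def K11_ed (p : ℕ) : Ch → Fin 9 → ℤ
  | .NI f => (![![0, 0, 0, 8, 20, 0, 2, 0, 0], ![0, 0, 0, 20, 8, 0, 2, 0, 0],
      ![0, 8 * p + 2, 0, 8, 0, 20, 2, 0, 0], ![0, 10 * p, 0, 20 - 2 * p, 0, 10, 2, 0, 0],
      ![0, 0, 8 * p + 2, 0, 8, 20, 2, 0, 0], ![0, 0, 10 * p, 0, 20 - 2 * p, 10, 2, 0, 0]] : Fin 6 → Fin 9 → ℤ) f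
  | .NII f => (![![0, 0, 0, 0, 20, 0, 10, 0, 0], ![0, 0, 0, 20, 0, 0, 10, 0, 0],
      ![0, 10, 0, 0, 0, 20, 2, 8, 0], ![0, 10, 0, 20 - 2 * p, 0, 0, 2, 10, 0],
      ![0, 0, 10, 0, 0, 20, 2, 0, 8], ![0, 0, 10, 0, 20 - 2 * p, 0, 2, 0, 10]] : Fin 6 → Fin 9 → ℤ) f
  | .M i => (![![0, 0, 0, 20, 20, 0, 2, 0, 0], ![0, 10 * p - 10, 0, 20, 0, 20, 0, 0, 0],
      ![0, 0, 10 * p - 10, 0, 20, 20, 0, 0, 0]] : Fin 3 → Fin 9 → ℤ) i
  | .T6 => 0
  | .P1 => ![0, 0, 0, 9, 8, 10, 2, 0, 0]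
  | .P2 => ![0, 0, 0, 8, 9, 10, 2, 0, 0]
  | .P3 => ![0, 0, 0, 8, 8, 10, 2, 0, 0]
  | .P4 => 0
  | .Y0 => 0

/-- The orders of `D` along the special primes. -/
def K11_vD (p : ℕ) : Fin 16 → ℤ :=
  ![10 * (p + 1), -(10 * (p + 3)), -20, 0, -20, 0, 0, 0, 0, 2, 0, 0, 10, 10, 10, 29]

theorem K11_vF (p : ℕ) (c : Ch) (hc : c.inX) (P : Fin 16) (hP : P ∈ pres c) :
    vF p (K11_ed p c) P = K11_vD p P := by
  cases c with
  | NI f => fin_cases f <;> fin_cases P <;> first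
      | (exact absurd hP (by decide))
      | (simp [vF, K11_ed, K11_vD]; try ring)
  | NII f => fin_cases f <;> fin_cases P <;> first
      | (exact absurd hP (by decide))
      | (simp [vF, K11_ed, K11_vD]; try ring)
  | M i => fin_cases i <;> fin_cases P <;> first
      | (exact absurd hP (by decide))
      | (simp [vF, K11_ed, K11_vD]; try ring)
  | T6 => fin_cases P <;> first
      | (exact absurd hP (by decide))
      | (simp [vF, K11_ed, K11_vD]; try ring)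
  | P1 => fin_cases P <;> first
      | (exact absurd hP (by decide))
      | (simp [vF, K11_ed, K11_vD]; try ring)
  | P2 => fin_cases P <;> first
      | (exact absurd hP (by decide))
      | (simp [vF, K11_ed, K11_vD]; try ring)
  | P3 => exact hc.elim
  | P4 => exact hc.elim
  | Y0 => exact hc.elim

theorem K11_vF3 (p : ℕ) (P : Fin 16) (hP : P ∈ pres .P3) :
    vF p (K11_ed p .P3) P = K11_vD p P := by
  fin_cases P <;> first
      | (exact absurd hP (by decide))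
      | (simp [vF, K11_ed, K11_vD]; try ring)

variable {K : Type*} [Field K]

theorem K11_mono (p : ℕ) (A v w : K) (e : Fin 9 → ℤ) :
    mono p A v w e = A ^ e 0 * v ^ e 1 * w ^ e 2 * (v - 1) ^ e 3 * (w - 1) ^ e 4 * (v - w) ^ e 5 *
      (A - 1) ^ e 6 * (A - v ^ p) ^ e 7 * (A - w ^ p) ^ e 8 := by
  simp [mono, fn, Fin.prod_univ_succ]
  ring

theorem K11_z1 (p : ℕ) {x : K} (hx : x ≠ 0) : x ^ (8 * (p : ℤ) + 2) = (x ^ p) ^ 8 * x ^ 2 := by
  rw [zpow_add₀ hx, ← pow_mul]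
  norm_cast
  rw [mul_comm p 8]

theorem K11_z2 (p : ℕ) (x : K) : x ^ (10 * (p : ℤ)) = (x ^ p) ^ 10 := by
  rw [← pow_mul]
  norm_cast
  rw [mul_comm p 10]

theorem K11_z3 (p : ℕ) {x : K} (hx : x ≠ 0) : x ^ (20 - 2 * (p : ℤ)) = x ^ 20 / (x ^ p) ^ 2 := by
  rw [zpow_sub₀ hx, ← pow_mul]
  norm_cast
  rw [mul_comm p 2]

theorem K11_z4 (p : ℕ) {x : K} (hx : x ≠ 0) : x ^ (10 * (p : ℤ) - 10) = (x ^ p) ^ 10 / x ^ 10 := by
  rw [zpow_sub₀ hx, ← pow_mul]
  norm_cast
  rw [mul_comm p 10]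

theorem K11_z5 {p : ℕ} (hp : 1 ≤ p) {x : K} (hx : x ≠ 0) : x ^ (p - 1) = x ^ p / x := by
  obtain ⟨m, rfl⟩ : ∃ m, p = m + 1 := ⟨p - 1, by omega⟩
  rw [Nat.add_sub_cancel, pow_succ]
  field_simp

theorem K11_z6 (p : ℕ) (x : K) : ((1 - x) ^ p) ^ 2 = ((x - 1) ^ p) ^ 2 := by
  rw [← pow_mul, ← pow_mul, mul_comm, pow_mul, pow_mul]
  congr 1
  ring

theorem K11_dd_mono {p : ℕ} (hp : 1 ≤ p) {A v w : K} (hN : ∀ i, fn p A v w i ≠ 0) (c : Ch)
    (hc : c.inX ∨ c = .P3) : dd p A v w c = mono p A v w (K11_ed p c) := by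
  have hA : A ≠ 0 := hN 0
  have hv : v ≠ 0 := hN 1
  have hw : w ≠ 0 := hN 2
  have hv1 : v - 1 ≠ 0 := hN 3
  have hw1 : w - 1 ≠ 0 := hN 4
  have hvw : v - w ≠ 0 := hN 5
  have hA1 : A - 1 ≠ 0 := hN 6
  have hAv : A - v ^ p ≠ 0 := hN 7
  have hAw : A - w ^ p ≠ 0 := hN 8
  have h1v : 1 - v ≠ 0 := fun h ↦ hv1 (by linear_combination -h)
  have h1w : 1 - w ≠ 0 := fun h ↦ hw1 (by linear_combination -h)
  have hvp : v ^ p ≠ 0 := pow_ne_zero _ hv
  have hwp : w ^ p ≠ 0 := pow_ne_zero _ hw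
  have hvp1 : (v - 1) ^ p ≠ 0 := pow_ne_zero _ hv1
  have hwp1 : (w - 1) ^ p ≠ 0 := pow_ne_zero _ hw1
  have e1 := K11_z1 p hv
  have e1' := K11_z1 p hw
  have e2 := K11_z2 p v
  have e2' := K11_z2 p w
  have e3 := K11_z3 p hv1
  have e3' := K11_z3 p hw1
  have e4 := K11_z4 p hv
  have e4' := K11_z4 p hw
  have e5 := K11_z5 hp hv
  have e5' := K11_z5 hp hw
  have e6 := K11_z6 p v
  have e6' := K11_z6 p w
  have f1 : v⁻¹ - 1 = -((v - 1) / v) := by field_simp; ring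
  have f2 : w⁻¹ - 1 = -((w - 1) / w) := by field_simp; ring
  have f3 : w / v - 1 = -((v - w) / v) := by field_simp; ring
  have f4 : v / w - 1 = (v - w) / w := by field_simp
  have f5 : A / v ^ p - 1 = (A - v ^ p) / v ^ p := by field_simp
  have f6 : A / w ^ p - 1 = (A - w ^ p) / w ^ p := by field_simp
  have g1 : v ^ (p + 3) = v ^ p * v ^ 3 := pow_add _ _ _
  have g2 : w ^ (p + 3) = w ^ p * w ^ 3 := pow_add _ _ _
  rw [K11_mono]
  generalize hV : v ^ p = V at *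
  generalize hW : w ^ p = W at *
  generalize hBV : (v - 1) ^ p = BV at *
  generalize hBW : (w - 1) ^ p = BW at *
  cases c with
  | NI f =>
    fin_cases f
    · simp [dd, JJ, FF, RR, lamF, fv, fw, K11_ed]
      norm_cast
      field_simp
    · simp [dd, JJ, FF, RR, lamF, fv, fw, K11_ed]
      norm_cast
      field_simp
    · simp [dd, JJ, FF, RR, lamF, fv, fw, K11_ed, e1, e5, f1, f3, g1]
      norm_cast
      field_simp
      ring
    · simp [dd, JJ, FF, RR, lamF, fv, fw, K11_ed, e2, e3, f1, f3, g1, div_pow, e6]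
      norm_cast
      field_simp
    · simp [dd, JJ, FF, RR, lamF, fv, fw, K11_ed, e1', e5', f2, f4, g2]
      norm_cast
      field_simp
      ring
    · simp [dd, JJ, FF, RR, lamF, fv, fw, K11_ed, e2', e3', f2, f4, g2, div_pow, e6']
      norm_cast
      field_simp
  | NII f =>
    fin_cases f
    · simp [dd, JJ, FF, RR, lamF, fa, fv, fw, K11_ed]
      norm_cast
      field_simp
    · simp [dd, JJ, FF, RR, lamF, fa, fv, fw, K11_ed]
      norm_cast
      field_simp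
    · simp [dd, JJ, FF, RR, lamF, fa, fv, fw, K11_ed, f1, f3, f5, g1, hV]
      norm_cast
      field_simp
    · simp [dd, JJ, FF, RR, lamF, fa, fv, fw, K11_ed, e3, f1, f3, f5, g1, hV, div_pow, e6]
      norm_cast
      field_simp
    · simp [dd, JJ, FF, RR, lamF, fa, fv, fw, K11_ed, f2, f4, f6, g2, hW]
      norm_cast
      field_simp
    · simp [dd, JJ, FF, RR, lamF, fa, fv, fw, K11_ed, e3', f2, f4, f6, g2, hW, div_pow, e6']
      norm_cast
      field_simp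
  | M i =>
    fin_cases i
    · simp [dd, JJ, FF, RR, lamF, fm, fv, fw, K11_ed]
      norm_cast
      left
      ring
    · simp [dd, JJ, FF, RR, lamF, fm, fv, fw, K11_ed, e4, f1, f3, g1]
      norm_cast
      field_simp
    · simp [dd, JJ, FF, RR, lamF, fm, fv, fw, K11_ed, e4', f2, f4, g2]
      norm_cast
      field_simp
  | T6 => simp [dd, JJ, FF, RR, K11_ed]
  | P1 =>
    simp [dd, JJ, FF, RR, K11_ed]
    norm_cast
    field_simp
  | P2 =>
    simp [dd, JJ, FF, RR, K11_ed]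
    norm_cast
    field_simp
  | P3 =>
    simp [dd, JJ, FF, RR, K11_ed]
    norm_cast
    field_simp
  | P4 => simp [Ch.inX] at hc
  | Y0 => simp [Ch.inX] at hc

end K11aux

variable {k : Type u} [Field k] {K : Type u} [Field K] [Algebra k K]

theorem K11_charP (p : ℕ) [CharP K p] (k : Type u) [Field k] [Algebra k K] : CharP k p :=
  RingHom.charP (algebraMap k K) (algebraMap k K).injective p

/-- (MONO) `dd c / dd c'` is, up to sign, a monomial `mono p A v w e` in the nine special functions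
(`MO/M0.lean`) with order zero (`vF p e P = 0`) along all special primes which meet both charts:
`mono_mem_sup` (`MO/M16.lean`). -/
theorem dd_unit {p : ℕ} [Fact p.Prime] [CharP K p] (hp : 5 ≤ p) {A v w : K} (h : Gen k A v w)
    {c c' : Ch} (hc : c.inX) (hc' : c'.inX) :
    dd p A v w c / dd p A v w c' ∈ ring k p A v w c ⊔ ring k p A v w c' := by
  have := K11_charP (K := K) p k
  have hN := fn_ne_zero p hp h.indep
  rw [K11_dd_mono (by omega) hN c (Or.inl hc), K11_dd_mono (by omega) hN c' (Or.inl hc'),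
    ← mono_sub hN]
  refine mono_mem_sup p hp hN c c' hc hc' fun P hP hP' ↦ ?_
  rw [vF_sub, Pi.sub_apply, K11_vF p c hc P hP, K11_vF p c' hc' P hP', sub_self]

/-- (MONO) the same for `P3` instead of `P1`, `P2`; `c` in `B` (`mono_mem_sup_P3`). -/
theorem dd_unit_P3 {p : ℕ} [Fact p.Prime] [CharP K p] (hp : 5 ≤ p) {A v w : K}
    (h : Gen k A v w) {c : Ch} (hc : c.inX) (hc' : c.inX') :
    dd p A v w c / dd p A v w .P3 ∈ ring k p A v w c ⊔ ring k p A v w .P3 ∧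
    dd p A v w .P3 / dd p A v w c ∈ ring k p A v w c ⊔ ring k p A v w .P3 := by
  have := K11_charP (K := K) p k
  have hN := fn_ne_zero p hp h.indep
  have hB : c.inB := by
    cases c <;> first | exact trivial | exact hc.elim | exact hc'.elim
  rw [K11_dd_mono (by omega) hN c (Or.inl hc), K11_dd_mono (by omega) hN .P3 (Or.inr rfl),
    ← mono_sub hN, ← mono_sub hN]
  constructor
  · refine mono_mem_sup_P3 p hp h.indep c hB fun P hP hP' ↦ ?_
    rw [vF_sub, Pi.sub_apply, K11_vF p c hc P hP, K11_vF3 p P hP', sub_self]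
  · refine mono_mem_sup_P3 p hp h.indep c hB fun P hP hP' ↦ ?_
    rw [vF_sub, Pi.sub_apply, K11_vF p c hc P hP, K11_vF3 p P hP', sub_self]

/-- for `c` in `B`: `yy_mem_sup_P4`. -/
theorem yy_mem {p : ℕ} [Fact p.Prime] [CharP K p] (hp : 5 ≤ p) {A v w : K}
    (h : Gen k A v w) {c : Ch} (hc : c.inX) (hc' : c.inX') :
    yy p A v w ∈ ring k p A v w c ⊔ ring k p A v w .P4 ∧
    (yy p A v w)⁻¹ ∈ ring k p A v w c ⊔ ring k p A v w .P4 := by
  have := K11_charP (K := K) p k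
  have hB : c.inB := by
    cases c <;> first | exact trivial | exact hc.elim | exact hc'.elim
  exact yy_mem_sup_P4 p hp h.indep c hB

/-- identities between the local equations -/
theorem dd_P1 {p : ℕ} {A v w : K} (h : Gen k A v w) (hp : 5 ≤ p) :
    dd p A v w .P1 = dd p A v w .P3 * (v - 1) := by
  obtain ⟨-, -, -, hv, hw, -⟩ := nz h (p := p) (by omega)
  have hv1 : v - 1 ≠ 0 := sub_ne_zero.2 hv
  have hw1 : w - 1 ≠ 0 := sub_ne_zero.2 hw
  simp only [dd, JJ, FF, RR]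
  field_simp

theorem dd_P2 {p : ℕ} {A v w : K} (h : Gen k A v w) (hp : 5 ≤ p) :
    dd p A v w .P2 = dd p A v w .P3 * (w - 1) := by
  obtain ⟨-, -, -, hv, hw, -⟩ := nz h (p := p) (by omega)
  have hv1 : v - 1 ≠ 0 := sub_ne_zero.2 hv
  have hw1 : w - 1 ≠ 0 := sub_ne_zero.2 hw
  simp only [dd, JJ, FF, RR]
  field_simp

theorem dd_P1_P2 {p : ℕ} {A v w : K} (h : Gen k A v w) (hp : 5 ≤ p) :
    dd p A v w .P1 * (w - 1) = dd p A v w .P2 * (v - 1) := by
  rw [dd_P1 h hp, dd_P2 h hp]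
  ring

end H1F
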