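import Pool.Agent.Lib.H1F.KLT.K1

/-! # H1F, part KLT, chunk K3: orders at a discrete valuation ring of `K` -/

universe u

namespace H1F

variable {k : Type u} [Field k] {K : Type u} [Field K] [Algebra k K] {O : Subalgebra k K}

theorem K3_unit_ne (u : Oˣ) : ((u : O) : K) ≠ 0 := by
  intro h
  have : (u : O) = 0 := Subtype.ext h
  exact u.ne_zero this

theorem K3_unif_ne {π : K} (h : IsUniformizer O π) : π ≠ 0 := by
  obtain ⟨hm, hi⟩ := h
  intro h0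
  exact hi.ne_zero (Subtype.ext h0)

theorem K3_unit_inv (u : Oˣ) : (((u⁻¹ : Oˣ) : O) : K) = ((u : O) : K)⁻¹ := by
  have h : ((u : O) : K) * (((u⁻¹ : Oˣ) : O) : K) = 1 := congrArg (Subtype.val) (u.mul_inv)
  exact eq_inv_of_mul_eq_one_right h

theorem K3_mk_unit {x : K} (hx : x ≠ 0) (h : x ∈ O) (h' : x⁻¹ ∈ O) :
    ∃ u : Oˣ, ((u : O) : K) = x :=
  ⟨⟨⟨x, h⟩, ⟨x⁻¹, h'⟩, Subtype.ext (mul_inv_cancel₀ hx), Subtype.ext (inv_mul_cancel₀ hx)⟩, rfl⟩

theorem HasOrd.ne_zero {f : K} {m : ℤ} (h : HasOrd O f m) : f ≠ 0 := by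
  obtain ⟨π, hπ, u, rfl⟩ := h
  exact mul_ne_zero (zpow_ne_zero _ (K3_unif_ne hπ)) (K3_unit_ne u)

section

variable (hO : IsDiscreteValuationRing O) (hK : IsFractionRing O K)

include hO

/-- two uniformizers differ by a unit -/
theorem K3_unif {π π' : K} (h : IsUniformizer O π) (h' : IsUniformizer O π') :
    ∃ u : Oˣ, π' = π * ((u : O) : K) := by
  obtain ⟨hm, hi⟩ := h
  obtain ⟨hm', hi'⟩ := h'
  obtain ⟨u, hu⟩ := IsDiscreteValuationRing.associated_of_irreducible O hi hi'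
  exact ⟨u, (congrArg Subtype.val hu).symm⟩

/-- any uniformizer can be used -/
theorem K3_ord_with {f : K} {m : ℤ} (h : HasOrd O f m) {π : K} (hπ : IsUniformizer O π) :
    ∃ u : Oˣ, f = π ^ m * ((u : O) : K) := by
  obtain ⟨π', hπ', u, rfl⟩ := h
  obtain ⟨t, rfl⟩ := K3_unif hO hπ hπ'
  refine ⟨t ^ m * u, ?_⟩
  rw [mul_zpow]
  have : ((((t ^ m * u : Oˣ)) : O) : K) = (((t : O) : K)) ^ m * ((u : O) : K) := by
    have h1 : (((t ^ m : Oˣ) : O) : K) = (((t : O) : K)) ^ m := by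
      cases m with
      | ofNat n => simp
      | negSucc n =>
        rw [zpow_negSucc, zpow_negSucc, K3_unit_inv]
        simp
    rw [Units.val_mul]
    change ((((t ^ m : Oˣ) : O) : K)) * _ = _
    rw [h1]
  rw [this]
  ring

theorem K3_exists_unif : ∃ π, IsUniformizer O π := by
  obtain ⟨π, hπ⟩ := IsDiscreteValuationRing.exists_irreducible O
  exact ⟨π, π.2, hπ⟩

include hK

theorem HasOrd.exists {f : K} (hf : f ≠ 0) : ∃ n, HasOrd O f n := by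
  obtain ⟨π, hπ⟩ := IsDiscreteValuationRing.exists_irreducible O
  obtain ⟨a, b, hb, rfl⟩ := IsFractionRing.div_surjective (A := O) f
  have hb0 : b ≠ 0 := nonZeroDivisors.ne_zero hb
  have ha0 : a ≠ 0 := by
    rintro rfl
    simp at hf
  obtain ⟨m, u, hu⟩ := IsDiscreteValuationRing.eq_unit_mul_pow_irreducible ha0 hπ
  obtain ⟨n, t, ht⟩ := IsDiscreteValuationRing.eq_unit_mul_pow_irreducible hb0 hπ
  have hπ0 : (π : K) ≠ 0 := K3_unif_ne ⟨π.2, hπ⟩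
  refine ⟨(m : ℤ) - n, (π : K), ⟨π.2, hπ⟩, u * t⁻¹, ?_⟩
  have e1 : (algebraMap O K) a = ((u : O) : K) * (π : K) ^ m := by rw [hu]; rfl
  have e2 : (algebraMap O K) b = ((t : O) : K) * (π : K) ^ n := by rw [ht]; rfl
  rw [e1, e2, zpow_sub₀ hπ0, zpow_natCast, zpow_natCast]
  have e3 : (((u * t⁻¹ : Oˣ) : O) : K) = ((u : O) : K) * ((t : O) : K)⁻¹ := by
    rw [Units.val_mul, ← K3_unit_inv]
    rfl
  rw [e3]
  have := K3_unit_ne t
  field_simp

theorem HasOrd.unique {f : K} {m n : ℤ} (h : HasOrd O f m) (h' : HasOrd O f n) : m = n := by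
  obtain ⟨π, hπ⟩ := K3_exists_unif hO
  obtain ⟨u, hu⟩ := K3_ord_with hO h hπ
  obtain ⟨t, ht⟩ := K3_ord_with hO h' hπ
  have hπ0 := K3_unif_ne hπ
  -- it is enough to treat m ≤ n
  have key : ∀ (m n : ℤ) (u t : Oˣ), π ^ m * ((u : O) : K) = π ^ n * ((t : O) : K) → n ≤ m := by
    intro m n u t hut
    by_contra hcon
    push Not at hcon
    obtain ⟨d, hd⟩ : ∃ d : ℕ, n = m + (d + 1) := ⟨(n - m - 1).toNat, by omega⟩
    subst hd
    have h1 : ((u : O) : K) = π * (π ^ d * ((t : O) : K)) := by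
      have h2 : π ^ m * ((u : O) : K) = π ^ m * (π * (π ^ d * ((t : O) : K))) := by
        rw [hut, zpow_add₀ hπ0, zpow_add₀ hπ0, zpow_natCast, zpow_one]
        ring
      exact mul_left_cancel₀ (zpow_ne_zero _ hπ0) h2
    obtain ⟨hm, hi⟩ := hπ
    have h3 : (u : O) = (⟨π, hm⟩ : O) * ((⟨π, hm⟩ : O) ^ d * t) := Subtype.ext h1
    have h4 : IsUnit ((⟨π, hm⟩ : O) * ((⟨π, hm⟩ : O) ^ d * t)) := h3 ▸ u.isUnit
    exact hi.not_isUnit (isUnit_of_mul_isUnit_left h4)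
  refine le_antisymm (key n m t u (ht ▸ hu)) (key m n u t (hu ▸ ht))

theorem HasOrd.mul {f g : K} {m n : ℤ} (h : HasOrd O f m) (h' : HasOrd O g n) :
    HasOrd O (f * g) (m + n) := by
  obtain ⟨π, hπ⟩ := K3_exists_unif hO
  obtain ⟨u, rfl⟩ := K3_ord_with hO h hπ
  obtain ⟨t, rfl⟩ := K3_ord_with hO h' hπ
  refine ⟨π, hπ, u * t, ?_⟩
  rw [zpow_add₀ (K3_unif_ne hπ), Units.val_mul]
  change _ = _ * (((u : O) : K) * ((t : O) : K))
  ring

theorem HasOrd.inv {f : K} {m : ℤ} (h : HasOrd O f m) : HasOrd O f⁻¹ (-m) := by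
  obtain ⟨π, hπ, u, rfl⟩ := h
  refine ⟨π, hπ, u⁻¹, ?_⟩
  rw [K3_unit_inv, mul_inv, zpow_neg]

theorem HasOrd.one : HasOrd O 1 0 := by
  obtain ⟨π, hπ⟩ := K3_exists_unif hO
  exact ⟨π, hπ, 1, by simp⟩

theorem HasOrd.pow {f : K} {m : ℤ} (h : HasOrd O f m) (n : ℕ) : HasOrd O (f ^ n) (n * m) := by
  induction n with
  | zero => simpa using HasOrd.one hO hK
  | succ n ih =>
    rw [pow_succ]
    have := HasOrd.mul hO hK ih h
    convert this using 1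
    push_cast
    ring

theorem HasOrd.neg {f : K} {m : ℤ} (h : HasOrd O f m) : HasOrd O (-f) m := by
  obtain ⟨π, hπ, u, rfl⟩ := h
  refine ⟨π, hπ, -u, ?_⟩
  rw [Units.val_neg]
  change _ = _ * (-((u : O) : K))
  ring

theorem HasOrd.nonneg_iff {f : K} {m : ℤ} (h : HasOrd O f m) : 0 ≤ m ↔ f ∈ O := by
  obtain ⟨π, hπ, u, rfl⟩ := h
  obtain ⟨hm, hi⟩ := hπ
  have hπ0 : π ≠ 0 := K3_unif_ne ⟨hm, hi⟩
  constructor
  · intro h0
    obtain ⟨n, rfl⟩ := Int.eq_ofNat_of_zero_le h0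
    rw [zpow_natCast]
    exact O.mul_mem (O.pow_mem hm n) (u : O).2
  · intro hf
    by_contra hcon
    push Not at hcon
    obtain ⟨d, hd⟩ : ∃ d : ℕ, m = -(d + 1) := ⟨(-m - 1).toNat, by omega⟩
    subst hd
    have h1 : ((u : O) : K) = π * (π ^ d * (π ^ (-((d:ℤ) + 1)) * ((u : O) : K))) := by
      rw [zpow_neg, zpow_add₀ hπ0, zpow_natCast, zpow_one]
      field_simp
    have h3 : (u : O) = (⟨π, hm⟩ : O) * ((⟨π, hm⟩ : O) ^ d *
        (⟨π ^ (-((d:ℤ) + 1)) * ((u : O) : K), hf⟩ : O)) := Subtype.ext h1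
    have h4 : IsUnit ((⟨π, hm⟩ : O) * ((⟨π, hm⟩ : O) ^ d *
        (⟨π ^ (-((d:ℤ) + 1)) * ((u : O) : K), hf⟩ : O))) := h3 ▸ u.isUnit
    exact hi.not_isUnit (isUnit_of_mul_isUnit_left h4)

/-- order zero = unit -/
theorem HasOrd.zero_iff {f : K} (hf : f ≠ 0) : HasOrd O f 0 ↔ f ∈ O ∧ f⁻¹ ∈ O := by
  constructor
  · rintro ⟨π, hπ, u, rfl⟩
    rw [zpow_zero, one_mul, ← K3_unit_inv]
    exact ⟨(u : O).2, ((u⁻¹ : Oˣ) : O).2⟩
  · rintro ⟨h1, h2⟩
    obtain ⟨u, hu⟩ := K3_mk_unit hf h1 h2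
    obtain ⟨π, hπ⟩ := K3_exists_unif hO
    exact ⟨π, hπ, u, by rw [hu, zpow_zero, one_mul]⟩

/-- if `f ∈ O` has positive order then `1 + f` (and `u + f`, `u` a unit) has order zero -/
theorem HasOrd.one_add {f : K} {m : ℤ} (h : HasOrd O f m) (hm : 0 < m) : HasOrd O (1 + f) 0 := by
  have hfO : f ∈ O := (HasOrd.nonneg_iff hO hK h).1 hm.le
  have h1 : IsUnit (1 + (⟨f, hfO⟩ : O)) := by
    have hnu : (⟨f, hfO⟩ : O) ∈ IsLocalRing.maximalIdeal O := by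
      rw [IsLocalRing.mem_maximalIdeal, mem_nonunits_iff]
      rintro ⟨u, hu⟩
      have h0 : HasOrd O f 0 := by
        obtain ⟨π, hπ⟩ := K3_exists_unif hO
        exact ⟨π, hπ, u, by rw [hu, zpow_zero, one_mul]⟩
      have := HasOrd.unique hO hK h h0
      omega
    by_contra hcon
    have h2 : (1 + (⟨f, hfO⟩ : O)) ∈ IsLocalRing.maximalIdeal O := by
      rwa [IsLocalRing.mem_maximalIdeal, mem_nonunits_iff]
    have h3 := Ideal.sub_mem _ h2 hnu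
    rw [add_sub_cancel_right] at h3
    exact (IsLocalRing.maximalIdeal.isMaximal O).ne_top ((Ideal.eq_top_iff_one _).2 h3)
  obtain ⟨u, hu⟩ := h1
  obtain ⟨π, hπ⟩ := K3_exists_unif hO
  refine ⟨π, hπ, u, ?_⟩
  rw [hu, zpow_zero, one_mul]
  rfl

/-- If a product `a * b` of elements of `O` has order zero, so have the factors. -/
theorem HasOrd.of_mul_zero {a b : K} (ha : a ∈ O) (hb : b ∈ O) (h : HasOrd O (a * b) 0) :
    HasOrd O a 0 ∧ HasOrd O b 0 := by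
  have h0 := h.ne_zero
  have ha0 : a ≠ 0 := left_ne_zero_of_mul h0
  have hb0 : b ≠ 0 := right_ne_zero_of_mul h0
  obtain ⟨m, hm⟩ := HasOrd.exists hO hK ha0
  obtain ⟨n, hn⟩ := HasOrd.exists hO hK hb0
  have h1 := (HasOrd.nonneg_iff hO hK hm).2 ha
  have h2 := (HasOrd.nonneg_iff hO hK hn).2 hb
  have h3 := HasOrd.unique hO hK (HasOrd.mul hO hK hm hn) h
  have h4 : m = 0 := by omega
  have h5 : n = 0 := by omega
  subst h4 h5
  exact ⟨hm, hn⟩

end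

end H1F
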