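import Pool.Agent.Lib.H1F.KLT.K1

/-! # H1F, part KLT, chunk K6: change of frames and Jacobians of the charts -/

universe u

namespace H1F

variable {k : Type u} [Field k] {K : Type u} [Field K] [Algebra k K]

theorem K6_w13 (a b : K) : (wedge a b a : Form k K) = 0 := by
  rw [wedge_cycle, wedge_cycle, wedge_self]

theorem K6_w22 (a b : K) : (wedge a b b : Form k K) = 0 := by
  rw [wedge_cycle, wedge_self]

theorem K6_23 (a b c : K) : (wedge a b c : Form k K) = -wedge a c b := K1_swap23 a b c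

/-- division by a p-th power in the first slot -/
theorem K6_divp (p : ℕ) [CharP K p] {v : K} (hv : v ≠ 0) (A b c : K) :
    (wedge (A / v ^ p) b c : Form k K) = (v ^ p)⁻¹ • wedge A b c := by
  rw [div_eq_mul_inv, wedge_mul, wedge_inv (pow_ne_zero _ hv), wedge_pow_char]
  simp

/-- second slot rules -/
theorem K6_inv2 {b : K} (hb : b ≠ 0) (a c : K) :
    (wedge a b⁻¹ c : Form k K) = -((b ^ 2)⁻¹ • wedge a b c) := by
  rw [wedge_swap, wedge_inv hb, wedge_swap b a c]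
  simp

theorem K6_inv3 {c : K} (hc : c ≠ 0) (a b : K) :
    (wedge a b c⁻¹ : Form k K) = -((c ^ 2)⁻¹ • wedge a b c) := by
  rw [← wedge_cycle, wedge_inv hc, wedge_cycle c a b]

theorem K6_mul2 (a b b' c : K) :
    (wedge a (b * b') c : Form k K) = b • wedge a b' c + b' • wedge a b c := by
  rw [wedge_swap, wedge_mul, wedge_swap b' a c, wedge_swap b a c]
  simp only [smul_neg, neg_add_rev, neg_neg]
  rw [add_comm]

theorem K6_mul3 (a b c c' : K) :
    (wedge a b (c * c') : Form k K) = c • wedge a b c' + c' • wedge a b c := by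
  rw [← wedge_cycle, wedge_mul, wedge_cycle c' a b, wedge_cycle c a b]

theorem K6_sub2 (a b b' c : K) :
    (wedge a (b - b') c : Form k K) = wedge a b c - wedge a b' c := by
  rw [wedge_swap, wedge_sub, wedge_swap a b c, wedge_swap a b' c]
  simp only [neg_sub]
  abel

theorem K6_sub3 (a b c c' : K) :
    (wedge a b (c - c') : Form k K) = wedge a b c - wedge a b c' := by
  rw [← wedge_cycle, wedge_sub, wedge_cycle c a b, wedge_cycle c' a b]

theorem K6_one1 (b c : K) : (wedge 1 b c : Form k K) = 0 := wedge_one b c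

theorem K6_one2 (a c : K) : (wedge a 1 c : Form k K) = 0 := by
  rw [wedge_swap, wedge_one, neg_zero]

theorem K6_one3 (a b : K) : (wedge a b 1 : Form k K) = 0 := by
  rw [← wedge_cycle, wedge_one]

/-- For `f = 1` use `wedge_cycle`, `wedge_swap`.  For `f = 2, 3` (`a = A / v ^ p`, `v' = 1/v`,
`w' = w / v`): `d a = v^-p dA` (`wedge_pow_char`), `dv' = -v^-2 dv`, `dw' = v^-1 dw - w v^-2 dv`, so
`da ∧ dv' ∧ dw' = -v^(-p-3) dA ∧ dv ∧ dw`; `f = 4, 5` the same with `w`. -/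
theorem wedge_frame (p : ℕ) [CharP K p] {A v w : K} (hv : v ≠ 0) (hw : w ≠ 0) (f : Fin 6) :
    (wedge A v w : Form k K) =
      lamF p v w f • wedge (fa p A v w f) (fv v w f) (fw v w f) := by
  have hvp : v ^ p ≠ 0 := pow_ne_zero _ hv
  have hwp : w ^ p ≠ 0 := pow_ne_zero _ hw
  have h2 : (wedge (A / v ^ p) v⁻¹ (w / v) : Form k K) = (-(v ^ (p + 3))⁻¹) • wedge A v w := by
    rw [K6_divp p hv, K6_inv2 hv, div_eq_mul_inv, K6_mul3, K6_inv3 hv, K6_w22, smul_zero, neg_zero,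
      smul_zero, zero_add, pow_add]
    match_scalars
    field_simp
  have h4 : (wedge (A / w ^ p) w⁻¹ (v / w) : Form k K) = (w ^ (p + 3))⁻¹ • wedge A v w := by
    rw [K6_divp p hw, K6_inv2 hw, div_eq_mul_inv, K6_mul3, K6_inv3 hw, K6_w22, smul_zero, neg_zero,
      smul_zero, zero_add, pow_add, K6_23 A w v]
    match_scalars
    field_simp
  have hv3 : v ^ (p + 3) ≠ 0 := pow_ne_zero _ hv
  have hw3 : w ^ (p + 3) ≠ 0 := pow_ne_zero _ hw
  fin_cases f
  · change _ = (1 : K) • wedge A v w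
    rw [one_smul]
  · change _ = (-1 : K) • wedge A w v
    rw [K6_23 A w v]
    simp
  · change _ = (-v ^ (p + 3)) • wedge (A / v ^ p) v⁻¹ (w / v)
    rw [h2, smul_smul]
    have : -v ^ (p + 3) * -(v ^ (p + 3))⁻¹ = 1 := by field_simp
    rw [this, one_smul]
  · change _ = (v ^ (p + 3)) • wedge (A / v ^ p) (w / v) v⁻¹
    rw [K6_23 (A / v ^ p) (w / v) v⁻¹, h2]
    match_scalars
    field_simp
  · change _ = (w ^ (p + 3)) • wedge (A / w ^ p) w⁻¹ (v / w)
    rw [h4, smul_smul]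
    have : w ^ (p + 3) * (w ^ (p + 3))⁻¹ = 1 := by field_simp
    rw [this, one_smul]
  · change _ = (-w ^ (p + 3)) • wedge (A / w ^ p) (v / w) w⁻¹
    rw [K6_23 (A / w ^ p) (v / w) w⁻¹, h4]
    match_scalars
    field_simp

/-- `b = v - 1`, `q = (a-1)/b`, `s = (w-1)⁻¹`: `a = 1 + b q`, `w = 1 + s⁻¹`, `v = 1 + b`. -/
theorem wedge_NI {a v w : K} (hv : v ≠ 1) (hw : w ≠ 1) :
    (wedge a v w : Form k K) =
      ((v - 1) * (w - 1) ^ 2) • wedge (v - 1) ((a - 1) / (v - 1)) (w - 1)⁻¹ := by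
  have hv1 : v - 1 ≠ 0 := sub_ne_zero.2 hv
  have hw1 : w - 1 ≠ 0 := sub_ne_zero.2 hw
  rw [K6_inv3 hw1, K6_sub3, K6_one3, sub_zero, div_eq_mul_inv, K6_mul2, wedge_swap (v - 1) (v - 1)⁻¹,
    wedge_inv hv1, wedge_self, K6_sub2, K6_one2, wedge_sub, wedge_one, wedge_swap v a w]
  match_scalars
  field_simp

/-- `c = a - 1`, `q' = (v-1)/c`, `s = (w-1)⁻¹`: `v = 1 + q' c`. -/
theorem wedge_NII {a v w : K} (ha : a ≠ 1) (hw : w ≠ 1) :
    (wedge a v w : Form k K) =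
      (-((a - 1) * (w - 1) ^ 2)) • wedge (a - 1) ((v - 1) / (a - 1)) (w - 1)⁻¹ := by
  have ha1 : a - 1 ≠ 0 := sub_ne_zero.2 ha
  have hw1 : w - 1 ≠ 0 := sub_ne_zero.2 hw
  rw [K6_inv3 hw1, K6_sub3, K6_one3, sub_zero, div_eq_mul_inv, K6_mul2, wedge_swap (a - 1) (a - 1)⁻¹,
    wedge_inv ha1, wedge_self, K6_sub2, K6_one2, wedge_sub, wedge_one]
  match_scalars
  field_simp

theorem wedge_MM {a v w : K} (hv : v ≠ 1) (hw : w ≠ 1) :
    (wedge a v w : Form k K) =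
      ((v - 1) ^ 2 * (w - 1) ^ 2) • wedge a (v - 1)⁻¹ (w - 1)⁻¹ := by
  have hv1 : v - 1 ≠ 0 := sub_ne_zero.2 hv
  have hw1 : w - 1 ≠ 0 := sub_ne_zero.2 hw
  rw [K6_inv3 hw1, K6_inv2 hv1, K6_sub3, K6_sub2, K6_one2, K6_one3, sub_zero, sub_zero]
  match_scalars
  field_simp

/-- wedge with a polynomial expression of the other two arguments vanishes -/
theorem K6_yy (p : ℕ) [Fact p.Prime] [CharP K p] {A v w : K} (hv : v ≠ 1) (hw : w ≠ 1)
    (hvw : v ≠ w) : (wedge A v w : Form k K) =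
      ((v - 1) * (w - 1) * (v - w)) • wedge (yy p A v w) v w := by
  have hv1 : v - 1 ≠ 0 := sub_ne_zero.2 hv
  have hw1 : w - 1 ≠ 0 := sub_ne_zero.2 hw
  have hvw1 : v - w ≠ 0 := sub_ne_zero.2 hvw
  have hp : p ≠ 0 := (Fact.out : p.Prime).ne_zero
  have e1 : A = 1 + (v - 1) ^ (p - 1) * (w - 1) + (v - 1) * (w - 1) * (v - w) * yy p A v w := by
    unfold yy
    field_simp
    ring
  have z1 : (wedge (v - 1) v w : Form k K) = 0 := by
    rw [wedge_sub, wedge_one, wedge_self, sub_zero]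
  have z2 : (wedge (w - 1) v w : Form k K) = 0 := by
    rw [wedge_sub, wedge_one, K6_w13, sub_zero]
  have z3 : (wedge (v - w) v w : Form k K) = 0 := by
    rw [wedge_sub, wedge_self, K6_w13, sub_zero]
  have z4 : (wedge ((v - 1) ^ (p - 1)) v w : Form k K) = 0 := by
    rw [wedge_pow, z1, smul_zero]
  conv_lhs => rw [e1]
  rw [wedge_add, wedge_add, wedge_one, wedge_mul, wedge_mul _ (yy p A v w), wedge_mul _ (v - w),
    wedge_mul (v - 1), z1, z2, z3, z4]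
  simp

/-- `A = 1 + β^(p-1) δ + β δ (β - δ) y`. -/
theorem wedge_P3 (p : ℕ) [Fact p.Prime] [CharP K p] {A v w : K} (hv : v ≠ 1) (hw : w ≠ 1)
    (hvw : v ≠ w) :
    (wedge A v w : Form k K) =
      ((v - 1) * (w - 1) * (v - w)) • wedge (v - 1) (w - 1) (yy p A v w) := by
  rw [K6_yy p hv hw hvw, ← wedge_cycle (yy p A v w) (v - 1) (w - 1), K6_sub2, K6_sub3, K6_one3,
    K6_one2, sub_zero, sub_zero]

theorem K6_nn (p : ℕ) [Fact p.Prime] [CharP K p] {A v w : K} (hv : v ≠ 1) (hw : w ≠ 1)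
    (hvw : v ≠ w) : nn p A v w = (w - 1) ^ 2 * yy p A v w := by
  have hv1 : v - 1 ≠ 0 := sub_ne_zero.2 hv
  have hw1 : w - 1 ≠ 0 := sub_ne_zero.2 hw
  have hvw1 : v - w ≠ 0 := sub_ne_zero.2 hvw
  have hp : 1 ≤ p := (Fact.out : p.Prime).one_lt.le
  have e1 : (v - 1) ^ p = v ^ p - 1 := by
    rw [sub_pow_char, one_pow]
  have e2 : (v - 1) ^ (p - 1) = (v ^ p - 1) / (v - 1) := by
    rw [eq_div_iff hv1, ← e1, ← pow_succ, Nat.sub_add_cancel hp]
  unfold nn yy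
  rw [e2, CharP.cast_eq_zero]
  field_simp
  ring

/-- `s = (v-1)/(w-1)`, `r = w - 1`, `n`: in characteristic `p`, `nn p A v w =
(w-1) (A - 1 - (v-1)^(p-1) (w-1)) / ((v-1)(v-w))`, hence
`A = 1 + r^p s^(p-1) + r s (s-1) n`, `v = 1 + s r`, `w = 1 + r`, and
`dA ∧ dv ∧ dw = r s (s-1) dn ∧ (r ds) ∧ dr = r^2 s (s-1) ds ∧ dr ∧ dn`. -/
theorem wedge_P2 (p : ℕ) [Fact p.Prime] [CharP K p] {A v w : K} (hv : v ≠ 1) (hw : w ≠ 1)
    (hvw : v ≠ w) :
    (wedge A v w : Form k K) =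
      ((v - 1) * (v - w)) • wedge ((v - 1) / (w - 1)) (w - 1) (nn p A v w) := by
  have hv1 : v - 1 ≠ 0 := sub_ne_zero.2 hv
  have hw1 : w - 1 ≠ 0 := sub_ne_zero.2 hw
  have hvw1 : v - w ≠ 0 := sub_ne_zero.2 hvw
  rw [K6_nn p hv hw hvw, K6_yy p hv hw hvw]
  have h1 : (wedge ((v - 1) / (w - 1)) (w - 1) ((w - 1) ^ 2 * yy p A v w) : Form k K) =
      (w - 1) • wedge (yy p A v w) v w := by
    have h2 : (wedge ((v - 1) / (w - 1)) (w - 1) ((w - 1) ^ 2) : Form k K) = 0 := by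
      rw [← wedge_cycle, wedge_pow, K6_w13, smul_zero]
    rw [K6_mul3, h2, smul_zero, add_zero, div_eq_mul_inv, wedge_mul, wedge_inv hw1, wedge_self,
      smul_zero, neg_zero, smul_zero, zero_add, wedge_sub, K6_sub2, K6_sub2, K6_one1, K6_one2,
      K6_one2, sub_zero, sub_zero, sub_zero, wedge_cycle (yy p A v w) v w]
    match_scalars
    field_simp
  rw [h1]
  match_scalars
  field_simp

/-- `s' = (w-1)/(v-1)`, `r' = v - 1`, `n' = -s^2 n`: `A = 1 + r'^p s' - r' s' (1 - s') n'`. -/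
theorem wedge_P1 (p : ℕ) [Fact p.Prime] [CharP K p] {A v w : K} (hv : v ≠ 1) (hw : w ≠ 1)
    (hvw : v ≠ w) :
    (wedge A v w : Form k K) =
      ((w - 1) * (v - w)) • wedge ((w - 1) / (v - 1)) (v - 1)
        (-(((v - 1) / (w - 1)) ^ 2 * nn p A v w + p * ((v - 1) / (w - 1)))) := by
  have hv1 : v - 1 ≠ 0 := sub_ne_zero.2 hv
  have hw1 : w - 1 ≠ 0 := sub_ne_zero.2 hw
  have hvw1 : v - w ≠ 0 := sub_ne_zero.2 hvw
  have e1 : -(((v - 1) / (w - 1)) ^ 2 * nn p A v w + p * ((v - 1) / (w - 1))) =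
      (v - 1) ^ 2 * (-yy p A v w) := by
    rw [K6_nn p hv hw hvw, CharP.cast_eq_zero]
    field_simp
    ring
  rw [e1, K6_yy p hv hw hvw]
  have h1 : (wedge ((w - 1) / (v - 1)) (v - 1) ((v - 1) ^ 2 * (-yy p A v w)) : Form k K) =
      (v - 1) • wedge (yy p A v w) v w := by
    have h2 : (wedge ((w - 1) / (v - 1)) (v - 1) ((v - 1) ^ 2) : Form k K) = 0 := by
      rw [← wedge_cycle, wedge_pow, K6_w13, smul_zero]
    have h3 : (wedge w v (-yy p A v w) : Form k K) = wedge (yy p A v w) v w := by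
      rw [← wedge_cycle, wedge_neg, K6_23, neg_neg]
    rw [K6_mul3, h2, smul_zero, add_zero, div_eq_mul_inv, wedge_mul, wedge_inv hv1, wedge_self,
      smul_zero, neg_zero, smul_zero, zero_add, wedge_sub, K6_sub2, K6_sub2, K6_one1, K6_one2,
      K6_one2, sub_zero, sub_zero, sub_zero, h3]
    match_scalars
    field_simp
  rw [h1]
  match_scalars
  field_simp

end H1F
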