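import Pool.Agent.Lib.H1F.KLT.K8
import Pool.Agent.Lib.H1F.KLT.K6
import Pool.Agent.Lib.H1F.KLT.K3
import Pool.Agent.Lib.H1F.KLT.K11

/-! # H1F, part KLT, chunk K12: discrete valuation rings containing charts of `X` and `X'` -/

universe u

namespace H1F

variable {k : Type u} [Field k] {K : Type u} [Field K] [Algebra k K]

open MvPolynomial in
theorem K12_adjoin (x y z : K) {f : K} : f ∈ Algebra.adjoin k {x, y, z} ↔
    ∃ P : MvPolynomial (Fin 3) k, aeval ![x, y, z] P = f := by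
  have : ({x, y, z} : Set K) = Set.range ![x, y, z] := by
    rw [Matrix.range_cons, Matrix.range_cons, Matrix.range_cons, Matrix.range_empty,
      Set.union_empty]
    rfl
  rw [this, Algebra.adjoin_range_eq_range_aeval]
  exact Iff.rfl

open MvPolynomial in
/-- In the polynomial ring `k[x, y, z]` (`x, y, z` algebraically independent) `y` is prime and does
not divide `z`.  So if `t * z = y * a` with `t, a` in a ring `R` with coordinates `x, y, z`, then
`t = y * b` with `b ∈ R`. (Write `t = t₁ / s₁`, `a = a₁ / s₂`, polynomials; `t₁ s₂ z = y a₁ s₁`, so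
`y` divides `t₁ s₂`; it does not divide `s₂` unless `y⁻¹ ∈ R`, in which case the claim is
trivial.) -/
theorem coord_prime {R : Subalgebra k K} {x y z : K} (h : Coord R x y z)
    (hi : AlgebraicIndependent k ![x, y, z]) {t a : K} (ht : t ∈ R) (ha : a ∈ R)
    (hta : t * z = y * a) : ∃ b ∈ R, t = y * b := by
  obtain ⟨t1, ht1, s1, hs1, hs10, hs1R, e1⟩ := h.quot t ht
  obtain ⟨a1, ha1, s2, hs2, hs20, hs2R, e2⟩ := h.quot a ha
  obtain ⟨T1, rfl⟩ := (K12_adjoin x y z).1 ht1
  obtain ⟨S1, rfl⟩ := (K12_adjoin x y z).1 hs1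
  obtain ⟨A1, rfl⟩ := (K12_adjoin x y z).1 ha1
  obtain ⟨S2, rfl⟩ := (K12_adjoin x y z).1 hs2
  have hX1 : aeval ![x, y, z] (X 1 : MvPolynomial (Fin 3) k) = y := by simp
  have hX2 : aeval ![x, y, z] (X 2 : MvPolynomial (Fin 3) k) = z := by simp
  have hy0 : y ≠ 0 := by
    intro h0
    have : aeval ![x, y, z] (X 1 : MvPolynomial (Fin 3) k) =
        aeval ![x, y, z] (0 : MvPolynomial (Fin 3) k) := by
      rw [hX1, h0, map_zero]
    exact X_ne_zero (R := k) (1 : Fin 3) (hi this)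
  have key : T1 * S2 * X 2 = X 1 * (A1 * S1) := by
    apply hi
    rw [map_mul, map_mul, map_mul, map_mul, hX1, hX2]
    rw [e1, e2] at hta
    field_simp at hta
    linear_combination hta
  have hdvd : (X 1 : MvPolynomial (Fin 3) k) ∣ T1 * S2 * X 2 := ⟨_, key⟩
  rcases X_dvd_mul_iff.1 hdvd with h1 | h1
  · rcases X_dvd_mul_iff.1 h1 with ⟨T', hT'⟩ | ⟨S', hS'⟩
    · refine ⟨aeval ![x, y, z] T' * (aeval ![x, y, z] S1)⁻¹, R.mul_mem ?_ hs1R, ?_⟩
      · exact K5_adjoin_le h ((K12_adjoin x y z).2 ⟨T', rfl⟩)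
      · rw [e1, hT', map_mul, hX1]
        ring
    · have hyinv : y⁻¹ ∈ R := by
        have : y⁻¹ = aeval ![x, y, z] S' * (aeval ![x, y, z] S2)⁻¹ := by
          rw [hS', map_mul, hX1] at hs20
          have hS0 : aeval ![x, y, z] S' ≠ 0 := right_ne_zero_of_mul hs20
          rw [hS', map_mul, hX1]
          field_simp
        rw [this]
        exact R.mul_mem (K5_adjoin_le h ((K12_adjoin x y z).2 ⟨S', rfl⟩)) hs2R
      exact ⟨y⁻¹ * t, R.mul_mem hyinv ht, by field_simp⟩
  · exact absurd (X_dvd_X.1 h1) (by decide)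

open MvPolynomial in
theorem K12_indep {R : Subalgebra k K} {x y z A v w : K} (hG : Gen k A v w) (h : Coord R x y z)
    (hA : A⁻¹ ∈ R) (hv : v⁻¹ ∈ R) (hw : w⁻¹ ∈ R) : AlgebraicIndependent k ![x, y, z] := by
  have hset : ({x, y, z} : Set K) = Set.range ![x, y, z] := by
    rw [Matrix.range_cons, Matrix.range_cons, Matrix.range_cons, Matrix.range_empty,
      Set.union_empty]
    rfl
  set S := Algebra.adjoin k (Set.range ![x, y, z]) with hS
  have h0 : ∀ f ∈ S, IsAlgebraic S f := fun f hf ↦ isAlgebraic_algebraMap (⟨f, hf⟩ : S)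
  have h1 : ∀ f ∈ R, IsAlgebraic S f := by
    intro f hf
    obtain ⟨a, ha, s, hs, -, -, rfl⟩ := h.quot f hf
    rw [hset] at ha hs
    exact (h0 a ha).mul (h0 s hs).inv
  have hA' : IsAlgebraic S A := by simpa using (h1 _ hA).inv
  have hv' : IsAlgebraic S v := by simpa using (h1 _ hv).inv
  have hw' : IsAlgebraic S w := by simpa using (h1 _ hw).inv
  have h3 : ∀ P : MvPolynomial (Fin 3) k, IsAlgebraic S (aeval ![A, v, w] P) := by
    intro P
    induction P using MvPolynomial.induction_on with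
    | C a =>
      rw [algHom_C]
      exact h0 _ (S.algebraMap_mem a)
    | add P Q hP hQ =>
      rw [map_add]
      exact hP.add hQ
    | mul_X P i hP =>
      rw [map_mul, aeval_X]
      refine hP.mul ?_
      fin_cases i
      · exact hA'
      · exact hv'
      · exact hw'
  have : Algebra.IsAlgebraic S K := by
    constructor
    intro f
    obtain ⟨a, b, hb, hab⟩ := hG.gen f
    have : f = aeval ![A, v, w] a * (aeval ![A, v, w] b)⁻¹ := by
      rw [← hab]
      field_simp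
    rw [this]
    exact (h3 a).mul (h3 b).inv
  refine (Algebra.IsAlgebraic.isTranscendenceBasis_of_lift_le_trdeg_of_finite k ![x, y, z] ?_).1
  rw [trdeg_eq hG]
  simp

/-- The coordinates of the charts `P1`, `P2` are algebraically independent: `K` is algebraic over
(in fact equal to) the field generated by them. -/
theorem indep_P {p : ℕ} [Fact p.Prime] [CharP K p] {A v w : K} (h : Gen k A v w) {c : Ch}
    (hc : c = .P1 ∨ c = .P2) :
    AlgebraicIndependent k ![cx p A v w c, cy p A v w c, cz p A v w c] := by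
  rcases hc with rfl | rfl
  · refine K12_indep (R := ring k p A v w .P1) h (coord_ring h (Or.inl trivial)) ?_ ?_ ?_ <;>
      exact Algebra.subset_adjoin (by simp)
  · refine K12_indep (R := ring k p A v w .P2) h (coord_ring h (Or.inl trivial)) ?_ ?_ ?_ <;>
      exact Algebra.subset_adjoin (by simp)

theorem K12_z1 {p : ℕ} [Fact p.Prime] [CharP K p] {A v w : K} (h : Gen k A v w) :
    cz p A v w .P1 = -((v - 1) ^ 2 * yy p A v w) := by
  obtain ⟨-, -, -, hv, hw, hvw, -⟩ := nz h (p := p) (Fact.out : p.Prime).two_le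
  have hv1 : v - 1 ≠ 0 := sub_ne_zero.2 hv
  have hw1 : w - 1 ≠ 0 := sub_ne_zero.2 hw
  simp only [cz]
  rw [K6_nn p hv hw hvw, CharP.cast_eq_zero]
  field_simp
  ring

theorem K12_z2 {p : ℕ} [Fact p.Prime] [CharP K p] {A v w : K} (h : Gen k A v w) :
    cz p A v w .P2 = (w - 1) ^ 2 * yy p A v w := by
  obtain ⟨-, -, -, hv, hw, hvw, -⟩ := nz h (p := p) (Fact.out : p.Prime).two_le
  exact K6_nn p hv hw hvw

/-- the common part of `beta_unit` and `delta_unit` -/
theorem K12_beta {R L : Subalgebra k K} (hL : IsLocDVR R L) {x y z Y : K} (h : Coord R x y z)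
    (hi : AlgebraicIndependent k ![x, y, z]) (hy0 : y ≠ 0) {c : K} (hc : c ∈ R)
    (hz : z = c * y ^ 2 * Y) (hY : Y ∈ L) : y⁻¹ ∈ L := by
  obtain ⟨a, ha, t, ht, ht0, htL, e1⟩ := hL.loc Y hY
  have h1 : t * z = y * (c * y * a) := by
    rw [hz, e1]
    field_simp
  obtain ⟨b, hb, hb'⟩ := coord_prime h hi ht (R.mul_mem (R.mul_mem hc h.hy) ha) h1
  have h2 : y⁻¹ = b * t⁻¹ := by
    rw [hb'] at ht0
    have hb0 : b ≠ 0 := right_ne_zero_of_mul ht0
    rw [hb']
    field_simp
  rw [h2]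
  exact L.mul_mem (hL.le hb) htL

/-- the common part of `n1_unit` and `n2_unit` -/
theorem K12_n {R L : Subalgebra k K} (hL : IsLocDVR R L) {x y z Y : K} (h : Coord R x y z)
    (hi : AlgebraicIndependent k ![x, y, z]) (hy0 : y ≠ 0) (hz0 : z ≠ 0) {c : K} (hc : c ∈ R)
    (hcc : c * c = 1) (hz : z = c * y ^ 2 * Y) (hY : Y⁻¹ ∈ L) : (y ^ 2 * Y)⁻¹ ∈ L := by
  have hY0 : Y ≠ 0 := by
    rintro rfl
    simp at hz
    exact hz0 hz
  have hc0 : c ≠ 0 := by
    rintro rfl
    simp at hcc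
  have h' : Coord R x z y := by
    refine ⟨h.hx, h.hz, h.hy, ?_⟩
    have e : ({x, z, y} : Set K) = {x, y, z} := by
      ext t
      simp only [Set.mem_insert_iff, Set.mem_singleton_iff]
      tauto
    rw [e]
    exact h.quot
  have hi' : AlgebraicIndependent k ![x, z, y] := by
    have := hi.comp (Equiv.swap (1 : Fin 3) 2) (Equiv.injective _)
    have e : (![x, y, z] : Fin 3 → K) ∘ (Equiv.swap (1 : Fin 3) 2) = ![x, z, y] := by
      funext i
      fin_cases i <;> rfl
    rwa [e] at this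
  obtain ⟨a, ha, t, ht, ht0, htL, e1⟩ := hL.loc Y⁻¹ hY
  have h1 : (t * y) * y = z * (c * a) := by
    have e2 : a = t * Y⁻¹ := by
      rw [e1]
      field_simp
    rw [hz, e2]
    field_simp
    linear_combination -hcc
  obtain ⟨b, hb, hb'⟩ := coord_prime h' hi' (R.mul_mem ht h.hy) (R.mul_mem hc ha) h1
  obtain ⟨b', hb1, hb1'⟩ := coord_prime h' hi' ht hb hb'
  have h2 : (y ^ 2 * Y)⁻¹ = c * (b' * t⁻¹) := by
    rw [hb1'] at ht0
    have hb0 : b' ≠ 0 := right_ne_zero_of_mul ht0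
    rw [hb1', hz]
    field_simp
  rw [h2]
  exact L.mul_mem (hL.le hc) (L.mul_mem (hL.le hb1) htL)

/-- If `L` is a localization of `P1` and contains `yy`, then `v - 1` is a unit of `L`:
`n' = -(v-1)^2 yy`. `yy = a / t` with `a, t ∈ P1`, `t` a unit of `L`. `t n' = -(v-1)^2 a`, so by
`coord_prime` `t = (v-1) b`, `b ∈ P1`, and `v - 1` divides the unit `t` in `L`. -/
theorem beta_unit {p : ℕ} [Fact p.Prime] [CharP K p] (hp : 5 ≤ p) {A v w : K}
    (h : Gen k A v w) {L : Subalgebra k K} (hL : IsLocDVR (ring k p A v w .P1) L)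
    (hy : yy p A v w ∈ L) : (v - 1)⁻¹ ∈ L := by
  obtain ⟨-, -, -, hv, hw, hvw, -⟩ := nz h (p := p) (by omega)
  refine K12_beta hL (coord_ring h (Or.inl trivial)) (indep_P h (Or.inl rfl)) (sub_ne_zero.2 hv)
    (c := -1) (Subalgebra.neg_mem _ (Subalgebra.one_mem _)) ?_ hy
  rw [K12_z1 h]
  ring

/-- The same for `P2`, `w - 1`, `n = (w-1)^2 yy`. -/
theorem delta_unit {p : ℕ} [Fact p.Prime] [CharP K p] (hp : 5 ≤ p) {A v w : K}
    (h : Gen k A v w) {L : Subalgebra k K} (hL : IsLocDVR (ring k p A v w .P2) L)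
    (hy : yy p A v w ∈ L) : (w - 1)⁻¹ ∈ L := by
  obtain ⟨-, -, -, hv, hw, hvw, -⟩ := nz h (p := p) (by omega)
  refine K12_beta hL (coord_ring h (Or.inl trivial)) (indep_P h (Or.inr rfl)) (sub_ne_zero.2 hw)
    (c := 1) (Subalgebra.one_mem _) ?_ hy
  rw [K12_z2 h]
  ring

/-- If `L` is a localization of `P1` and contains `yy⁻¹`, then `n' = -(v-1)^2 yy` is a unit of
`L`: `yy⁻¹ = a / t`, `(v-1)^2 t = -n' a`, so `t = n' b` by `coord_prime` (twice, with `y`, `z`
exchanged). -/
theorem n1_unit {p : ℕ} [Fact p.Prime] [CharP K p] (hp : 5 ≤ p) {A v w : K}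
    (h : Gen k A v w) {L : Subalgebra k K} (hL : IsLocDVR (ring k p A v w .P1) L)
    (hy : (yy p A v w)⁻¹ ∈ L) : ((v - 1) ^ 2 * yy p A v w)⁻¹ ∈ L := by
  obtain ⟨-, -, -, hv, hw, hvw, -⟩ := nz h (p := p) (by omega)
  have hv1 : v - 1 ≠ 0 := sub_ne_zero.2 hv
  refine K12_n hL (coord_ring h (Or.inl trivial)) (indep_P h (Or.inl rfl)) hv1 ?_
    (c := -1) (Subalgebra.neg_mem _ (Subalgebra.one_mem _)) (by ring) ?_ hy
  · rw [K12_z1 h]
    exact neg_ne_zero.2 (mul_ne_zero (pow_ne_zero _ hv1) (yy_ne_zero h (by omega)))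
  · rw [K12_z1 h]
    ring

theorem n2_unit {p : ℕ} [Fact p.Prime] [CharP K p] (hp : 5 ≤ p) {A v w : K}
    (h : Gen k A v w) {L : Subalgebra k K} (hL : IsLocDVR (ring k p A v w .P2) L)
    (hy : (yy p A v w)⁻¹ ∈ L) : ((w - 1) ^ 2 * yy p A v w)⁻¹ ∈ L := by
  obtain ⟨-, -, -, hv, hw, hvw, -⟩ := nz h (p := p) (by omega)
  have hw1 : w - 1 ≠ 0 := sub_ne_zero.2 hw
  refine K12_n hL (coord_ring h (Or.inl trivial)) (indep_P h (Or.inr rfl)) hw1 ?_
    (c := 1) (Subalgebra.one_mem _) (by ring) ?_ hy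
  · rw [K12_z2 h]
    exact mul_ne_zero (pow_ne_zero _ hw1) (yy_ne_zero h (by omega))
  · rw [K12_z2 h]
    ring

/-- The local equations of `2 D` on `X` and of `D'` on `X'` agree at a discrete valuation ring `L`
which is a localization of the chart `c` of `X` and contains the chart `c'` of `X'`.
`c'` a chart of `B`: `dd_unit`.  `c' = P3`: `c` in `B`: `dd_unit_P3`; `c = P1`: `dd_P1` and
`beta_unit` (`yy ∈ P3 ≤ L`); `c = P2`: `dd_P2`, `delta_unit`.  `c' = P4`: `dd' = (dd P3)^2 / yy`;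
`c` in `B`: `yy_mem` and `dd_unit_P3` (`P3 ≤ L` since `P4 ≤ L` contains `v - 1`, `w - 1`, `A⁻¹`, ... and
`yy ∈ L`); `c = P1`: `(dd P1)^2 / dd' P4 = (v-1)^2 yy`, `n1_unit`; `c = P2`: `(w-1)^2 yy`,
`n2_unit`. -/
theorem dd'_unit {p : ℕ} [Fact p.Prime] [CharP K p] (hp : 5 ≤ p) {A v w : K}
    (h : Gen k A v w) {c c' : Ch} (hc : c.inX) (hc' : c'.inX') {L : Subalgebra k K}
    (hL : IsLocDVR (ring k p A v w c) L) (hcL : ring k p A v w c' ≤ L) :
    dd p A v w c ^ 2 / dd' p A v w c' ∈ L ∧ dd' p A v w c' / dd p A v w c ^ 2 ∈ L := by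
  have hp2 : 2 ≤ p := by omega
  obtain ⟨-, -, -, hv, hw, hvw, -⟩ := nz h (p := p) hp2
  have hv1 : v - 1 ≠ 0 := sub_ne_zero.2 hv
  have hw1 : w - 1 ≠ 0 := sub_ne_zero.2 hw
  have hy0 := yy_ne_zero h hp2
  have hd := dd_ne_zero (k := k) h hp2
  -- reduction to a unit
  have fin : ∀ u : K, dd p A v w c ^ 2 = u * dd' p A v w c' → u ∈ L → u⁻¹ ∈ L →
      dd p A v w c ^ 2 / dd' p A v w c' ∈ L ∧ dd' p A v w c' / dd p A v w c ^ 2 ∈ L := by
    intro u hu h1 h2
    have hd' := dd'_ne_zero (k := k) h hp2 c'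
    have hu0 : u ≠ 0 := by
      rintro rfl
      rw [zero_mul] at hu
      exact pow_ne_zero 2 (hd c) hu
    have e1 : dd p A v w c ^ 2 / dd' p A v w c' = u := by
      rw [hu]
      field_simp
    have e2 : dd' p A v w c' / dd p A v w c ^ 2 = u⁻¹ := by
      rw [hu]
      field_simp
    rw [e1, e2]
    exact ⟨h1, h2⟩
  have hsup : ring k p A v w c ⊔ ring k p A v w c' ≤ L := sup_le hL.le hcL
  -- `c'` a chart of `B`
  have caseB : c'.inX → dd' p A v w c' = dd p A v w c' ^ 2 →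
      dd p A v w c ^ 2 / dd' p A v w c' ∈ L ∧ dd' p A v w c' / dd p A v w c ^ 2 ∈ L := by
    intro hB he
    have h1 := hsup (dd_unit hp h hc hB)
    have h2 := dd_unit hp h hB hc
    rw [sup_comm] at h2
    have h2 := hsup h2
    rw [he, ← div_pow, ← div_pow]
    exact ⟨L.pow_mem h1 2, L.pow_mem h2 2⟩
  -- `c` a chart of `B` and `P3 ≤ L`
  have caseP3 : c.inX' → ring k p A v w .P3 ≤ L → dd p A v w c / dd p A v w .P3 ∈ L ∧
      dd p A v w .P3 / dd p A v w c ∈ L := by
    intro hB h3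
    have hs : ring k p A v w c ⊔ ring k p A v w .P3 ≤ L := sup_le hL.le h3
    obtain ⟨h1, h2⟩ := dd_unit_P3 hp h hc hB
    exact ⟨hs h1, hs h2⟩
  have case3 : c' = .P3 → dd p A v w c ^ 2 / dd' p A v w c' ∈ L ∧
      dd' p A v w c' / dd p A v w c ^ 2 ∈ L := by
    rintro rfl
    have hyL : yy p A v w ∈ L := hcL (Algebra.subset_adjoin (by simp))
    have hB : c.inX' → _ := fun hB ↦ (by
      obtain ⟨h1, h2⟩ := caseP3 hB hcL
      have he : dd' p A v w .P3 = dd p A v w .P3 ^ 2 := rfl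
      rw [he, ← div_pow, ← div_pow]
      exact ⟨L.pow_mem h1 2, L.pow_mem h2 2⟩ :
        dd p A v w c ^ 2 / dd' p A v w .P3 ∈ L ∧ dd' p A v w .P3 / dd p A v w c ^ 2 ∈ L)
    cases c with
    | NI f => exact hB trivial
    | NII f => exact hB trivial
    | M i => exact hB trivial
    | T6 => exact hB trivial
    | P1 =>
      have hu := beta_unit hp h hL hyL
      have hu' : v - 1 ∈ L := hcL (Algebra.subset_adjoin (by simp))
      refine fin ((v - 1) ^ 2) ?_ (L.pow_mem hu' 2) ?_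
      · rw [dd_P1 h hp]
        change _ = _ * dd p A v w .P3 ^ 2
        ring
      · rw [← inv_pow]
        exact L.pow_mem hu 2
    | P2 =>
      have hu := delta_unit hp h hL hyL
      have hu' : w - 1 ∈ L := hcL (Algebra.subset_adjoin (by simp))
      refine fin ((w - 1) ^ 2) ?_ (L.pow_mem hu' 2) ?_
      · rw [dd_P2 h hp]
        change _ = _ * dd p A v w .P3 ^ 2
        ring
      · rw [← inv_pow]
        exact L.pow_mem hu 2
    | P3 => exact hc.elim
    | P4 => exact hc.elim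
    | Y0 => exact hc.elim
  have case4 : c' = .P4 → dd p A v w c ^ 2 / dd' p A v w c' ∈ L ∧
      dd' p A v w c' / dd p A v w c ^ 2 ∈ L := by
    rintro rfl
    have hyL : (yy p A v w)⁻¹ ∈ L := hcL (Algebra.subset_adjoin (by simp))
    have he : dd' p A v w .P4 = dd p A v w .P3 ^ 2 / yy p A v w := by
      change dd p A v w .P4 ^ 2 / yy p A v w = _
      rfl
    have hB : c.inX' → _ := fun hB ↦ (by
      obtain ⟨g1, g2⟩ := yy_mem hp h hc hB
      have hy1 := hsup g1
      have hP3 : ring k p A v w .P3 ≤ L := by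
        change Algebra.adjoin k _ ≤ L
        rw [Algebra.adjoin_le_iff]
        rintro f (rfl | rfl | rfl | rfl | rfl | rfl)
        · exact hcL (Algebra.subset_adjoin (by simp))
        · exact hcL (Algebra.subset_adjoin (by simp))
        · exact hy1
        · exact hcL (Algebra.subset_adjoin (by simp))
        · exact hcL (Algebra.subset_adjoin (by simp))
        · exact hcL (Algebra.subset_adjoin (by simp))
      obtain ⟨h1, h2⟩ := caseP3 hB hP3
      have hd3 := hd .P3
      have hdc := hd c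
      refine fin ((dd p A v w c / dd p A v w .P3) ^ 2 * yy p A v w) ?_
        (L.mul_mem (L.pow_mem h1 2) hy1) ?_
      · rw [he]
        field_simp
      · have : ((dd p A v w c / dd p A v w .P3) ^ 2 * yy p A v w)⁻¹ =
            (dd p A v w .P3 / dd p A v w c) ^ 2 * (yy p A v w)⁻¹ := by
          field_simp
        rw [this]
        exact L.mul_mem (L.pow_mem h2 2) hyL :
        dd p A v w c ^ 2 / dd' p A v w .P4 ∈ L ∧ dd' p A v w .P4 / dd p A v w c ^ 2 ∈ L)
    cases c with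
    | NI f => exact hB trivial
    | NII f => exact hB trivial
    | M i => exact hB trivial
    | T6 => exact hB trivial
    | P1 =>
      have hu := n1_unit hp h hL hyL
      have hu' : (v - 1) ^ 2 * yy p A v w ∈ L := hcL (Algebra.subset_adjoin (by simp))
      refine fin ((v - 1) ^ 2 * yy p A v w) ?_ hu' hu
      rw [dd_P1 h hp, he]
      field_simp
    | P2 =>
      have hu := n2_unit hp h hL hyL
      have hu' : (w - 1) ^ 2 * yy p A v w ∈ L := hcL (Algebra.subset_adjoin (by simp))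
      refine fin ((w - 1) ^ 2 * yy p A v w) ?_ hu' hu
      rw [dd_P2 h hp, he]
      field_simp
    | P3 => exact hc.elim
    | P4 => exact hc.elim
    | Y0 => exact hc.elim
  cases c' with
  | NI f => exact caseB trivial rfl
  | NII f => exact caseB trivial rfl
  | M i => exact caseB trivial rfl
  | T6 => exact caseB trivial rfl
  | P1 => exact hc'.elim
  | P2 => exact hc'.elim
  | P3 => exact case3 rfl
  | P4 => exact case4 rfl
  | Y0 => exact hc'.elim

end H1F
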