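import Pool.Agent.Lib.H1F.AT.At
import Pool.Agent.Lib.H1F.FLIP.Loc
import Pool.Agent.Lib.H1F.KLT.KDefs

/-! # H1F, part KLT, chunk K13: a function has finitely many zeros of codimension one -/

open CategoryTheory AlgebraicGeometry Order

universe u

namespace H1F

instance K13_finite_Ch : Finite Ch := by
  let g : Fin 6 ⊕ Fin 6 ⊕ Fin 3 ⊕ Fin 6 → Ch := fun x ↦ match x with
    | .inl f => .NI f
    | .inr (.inl f) => .NII f
    | .inr (.inr (.inl i)) => .M i
    | .inr (.inr (.inr j)) => ![Ch.T6, .P1, .P2, .P3, .P4, .Y0] j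
  refine Finite.of_surjective g fun c ↦ ?_
  cases c with
  | NI f => exact ⟨.inl f, rfl⟩
  | NII f => exact ⟨.inr (.inl f), rfl⟩
  | M i => exact ⟨.inr (.inr (.inl i)), rfl⟩
  | T6 => exact ⟨.inr (.inr (.inr 0)), rfl⟩
  | P1 => exact ⟨.inr (.inr (.inr 1)), rfl⟩
  | P2 => exact ⟨.inr (.inr (.inr 2)), rfl⟩
  | P3 => exact ⟨.inr (.inr (.inr 3)), rfl⟩
  | P4 => exact ⟨.inr (.inr (.inr 4)), rfl⟩
  | Y0 => exact ⟨.inr (.inr (.inr 5)), rfl⟩

instance K13_nonempty_X : Nonempty {c : Ch // c.inX} := ⟨⟨.T6, trivial⟩⟩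

instance K13_nonempty_X1 : Nonempty {c : Ch // c.inX'} := ⟨⟨.T6, trivial⟩⟩

instance K13_nonempty_Y : Nonempty {c : Ch // c.inY} := ⟨⟨.T6, trivial⟩⟩

variable {k : Type u} [Field k] {K : Type u} [Field K] [Algebra k K]
  {ι : Type} [Finite ι] [Nonempty ι] {R : ι → Subalgebra k K}
  {X : Over (Spec (CommRingCat.of k))}

/-- The local ring at `x` as a subring of `K`. -/
noncomputable abbrev LK (X : Over (Spec (CommRingCat.of k))) [IsIntegral X.left]
    (e : X.left.functionField ≃ₐ[k] K) (x : X.left) : Subalgebra k K :=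
  (localRing k X x).map e.toAlgHom

/-- The codimension of a point of a chart is the height of the prime: the chart is an open
immersion (`Topology.IsOpenEmbedding.coheight_eq`), and in `Spec` it is the length of
chains of primes below the given one (`Ideal.height`, `Ideal.primeHeight`); or use
`AlgebraicGeometry.ringKrullDim_stalk_eq_coheight`. -/
theorem coheight_chart (a : Atlas R X) (i : ι) (y : SpecS (R i)) :
    coheight (a.c i y) = (PrimeSpectrum.asIdeal y).height := by
  have := a.isOpen i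
  exact (coheight_eq_of_isOpenImmersion (a.c i)).trans (idealHeight_eq_coheight _ y).symm

/-- The points `z` of codimension one of the chart `i` at which `f ∈ R i`, `f ≠ 0`, vanishes.
`z = a.c i y`; the prime `y` has height one (`coheight_chart`) and contains `f` (`hL.prime`), hence
is a minimal prime over `(f)`; there are finitely many of them
(`Ideal.finite_minimalPrimes_of_isNoetherianRing`). -/
theorem finite_zeros [IsIntegral X.left] (a : Atlas R X) (e : X.left.functionField ≃ₐ[k] K)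
    (hL : FLIP.LocData a (LK X e)) (i : ι) (hN : IsNoetherianRing (R i)) {f : K} (hf : f ≠ 0)
    (hfR : f ∈ R i) :
    {z : X.left | z ∈ Set.range (a.c i) ∧ coheight z = 1 ∧ f⁻¹ ∉ LK X e z}.Finite := by
  let F : R i := ⟨f, hfR⟩
  have hF : F ≠ 0 := fun h ↦ hf (congrArg Subtype.val h)
  have hfin : (Ideal.span {F}).minimalPrimes.Finite :=
    Ideal.finite_minimalPrimes_of_isNoetherianRing _ _
  have hfin2 : {y : SpecS (R i) | PrimeSpectrum.asIdeal y ∈ (Ideal.span {F}).minimalPrimes}.Finite :=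
    Set.Finite.preimage (f := fun y : SpecS (R i) ↦ PrimeSpectrum.asIdeal y)
      (fun y _ y' _ h ↦ PrimeSpectrum.ext h) hfin
  refine (hfin2.image (a.c i)).subset ?_
  rintro z ⟨⟨y, rfl⟩, hz, hfz⟩
  refine ⟨y, ?_, rfl⟩
  have hy : (PrimeSpectrum.asIdeal y).height = 1 := (coheight_chart a i y).symm.trans hz
  have hyp : (PrimeSpectrum.asIdeal y).IsPrime := y.isPrime
  have hFy : F ∈ PrimeSpectrum.asIdeal y := (hL.prime i y F).2 (Or.inr hfz)
  have : (PrimeSpectrum.asIdeal y).FiniteHeight := ⟨Or.inr (by rw [hy]; exact ENat.one_ne_top)⟩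
  refine Ideal.mem_minimalPrimes_of_height_le ?_ ?_
  · exact (Ideal.span_singleton_le_iff_mem _).2 hFy
  · rw [hy]
    exact Ideal.one_le_height_span_singleton_of_mem_nonZeroDivisors
      (mem_nonZeroDivisors_of_ne_zero hF)

/-- The chart rings are noetherian (they are finitely generated). -/
theorem K13_ring_fg (p : ℕ) (A v w : K) (c : Ch) : (ring k p A v w c).FG := by
  cases c with
  | NI f => exact Subalgebra.fg_def.2 ⟨_, by simp, rfl⟩
  | NII f => exact Subalgebra.fg_def.2 ⟨_, by simp, rfl⟩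
  | M i => fin_cases i <;> exact Subalgebra.fg_def.2 ⟨_, by simp, rfl⟩
  | T6 => exact Subalgebra.fg_def.2 ⟨_, by simp, rfl⟩
  | P1 => exact Subalgebra.fg_def.2 ⟨_, by simp, rfl⟩
  | P2 => exact Subalgebra.fg_def.2 ⟨_, by simp, rfl⟩
  | P3 => exact Subalgebra.fg_def.2 ⟨_, by simp, rfl⟩
  | P4 => exact Subalgebra.fg_def.2 ⟨_, by simp, rfl⟩
  | Y0 => exact Subalgebra.fg_def.2 ⟨_, by simp, rfl⟩

theorem K13_ring_noeth (p : ℕ) (A v w : K) (c : Ch) : IsNoetherianRing (ring k p A v w c) :=
  isNoetherianRing_of_fg (K13_ring_fg p A v w c)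

end H1F
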