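import Pool.Agent.Lib.H1F.KLT.K4

/-! # H1F, part KLT, chunk K16: transport by an isomorphism of fields -/

universe u

namespace H1F

variable {k : Type u} [Field k] {K₁ K₂ : Type u} [Field K₁] [Algebra k K₁] [Field K₂]
  [Algebra k K₂] (e : K₁ ≃ₐ[k] K₂)

theorem K16_map : ∃ Φ : Form k K₁ →+ Form k K₂,
    (∀ (a : K₁) (ω : Form k K₁), Φ (a • ω) = e a • Φ ω) ∧
    ∀ a b c : K₁, Φ (wedge a b c) = wedge (e a) (e b) (e c) := by
  let _ : Algebra K₁ K₂ := (e : K₁ →+* K₂).toAlgebra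
  have : IsScalarTower k K₁ K₂ := IsScalarTower.of_algebraMap_eq fun x => (e.commutes x).symm
  let _ : Module K₁ (Form k K₂) := Module.compHom _ (e : K₁ →+* K₂)
  let φ : Ω[K₁⁄k] →ₗ[K₁] Ω[K₂⁄k] := KaehlerDifferential.map k k K₁ K₂
  have hφs : ∀ (a : K₁) (x : Ω[K₁⁄k]), φ (a • x) = (e a) • φ x := by
    intro a x
    rw [map_smul, ← algebraMap_smul K₂ a (φ x)]
    rfl
  have hupd : ∀ (m : Fin 3 → Ω[K₁⁄k]) (i : Fin 3) (x : Ω[K₁⁄k]),
      (fun j ↦ φ (Function.update m i x j)) = Function.update (fun j ↦ φ (m j)) i (φ x) := by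
    intro m i x
    funext j
    by_cases hj : j = i
    · subst hj
      simp
    · simp [Function.update_of_ne hj]
  let A : Ω[K₁⁄k] [⋀^Fin 3]→ₗ[K₁] Form k K₂ :=
    { toFun := fun m ↦ exteriorPower.ιMulti K₂ 3 (fun i ↦ φ (m i))
      map_update_add' := by
        intro inst m i x y
        have : inst = instDecidableEqFin 3 := Subsingleton.elim _ _
        subst this
        rw [hupd, hupd, hupd, map_add]
        exact (exteriorPower.ιMulti K₂ 3).map_update_add _ _ _ _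
      map_update_smul' := by
        intro inst m i c x
        have : inst = instDecidableEqFin 3 := Subsingleton.elim _ _
        subst this
        rw [hupd, hupd, hφs]
        exact (exteriorPower.ιMulti K₂ 3).map_update_smul _ _ _ _
      map_eq_zero_of_eq' := by
        intro m i j hm hij
        exact (exteriorPower.ιMulti K₂ 3).map_eq_zero_of_eq _ (by rw [hm]) hij }
  let F : Form k K₁ →ₗ[K₁] Form k K₂ := exteriorPower.alternatingMapLinearEquiv A
  refine ⟨F.toAddMonoidHom, fun a ω ↦ F.map_smul a ω, fun a b c ↦ ?_⟩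
  change F (wedge a b c) = _
  unfold wedge
  rw [exteriorPower.alternatingMapLinearEquiv_apply_ιMulti]
  change exteriorPower.ιMulti K₂ 3 (fun i ↦ φ ((![_, _, _] : Fin 3 → Ω[K₁⁄k]) i)) = _
  congr 1
  funext i
  fin_cases i <;> exact KaehlerDifferential.map_D k k K₁ K₂ _

/-- The forms `da ∧ db ∧ dc` span. -/
theorem K16_span (K : Type u) [Field K] [Algebra k K] (N : Submodule K (Form k K))
    (h : ∀ a b c : K, (wedge a b c : Form k K) ∈ N) : N = ⊤ := by
  have hslot : ∀ (S : Set Ω[K⁄k]) (y z : Ω[K⁄k]),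
      (∀ x ∈ S, exteriorPower.ιMulti K 3 ![x, y, z] ∈ N) → ∀ x ∈ Submodule.span K S,
        exteriorPower.ιMulti K 3 ![x, y, z] ∈ N := by
    intro S y z hS x hx
    have : Submodule.span K S ≤ N.comap (K1_lin y z) := by
      rw [Submodule.span_le]
      intro x hx
      simp only [Submodule.comap_coe, Set.mem_preimage, SetLike.mem_coe, K1_lin_apply]
      exact hS x hx
    have := this hx
    rwa [Submodule.mem_comap, K1_lin_apply] at this
  have htop := KaehlerDifferential.span_range_derivation k K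
  have h3 : ∀ x y z : Ω[K⁄k], exteriorPower.ιMulti K 3 ![x, y, z] ∈ N := by
    intro x y z
    refine hslot (Set.range (KaehlerDifferential.D k K)) _ _ ?_ x (by rw [htop]; trivial)
    rintro _ ⟨a, rfl⟩
    rw [K1_T12]
    refine N.neg_mem (hslot (Set.range (KaehlerDifferential.D k K)) _ _ ?_ y
      (by rw [htop]; trivial))
    rintro _ ⟨b, rfl⟩
    rw [K1_T23, K1_T12]
    refine N.neg_mem (N.neg_mem (hslot (Set.range (KaehlerDifferential.D k K)) _ _ ?_ z
      (by rw [htop]; trivial)))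
    rintro _ ⟨c, rfl⟩
    exact h c b a
  rw [eq_top_iff, ← exteriorPower.ιMulti_span, Submodule.span_le]
  rintro _ ⟨m, rfl⟩
  have : m = ![m 0, m 1, m 2] := by
    funext i
    fin_cases i <;> rfl
  rw [this]
  exact h3 _ _ _

/-- The additive isomorphism of the spaces of 3-forms which is induced by `e` (it is
`e`-semilinear). Construct it from `KaehlerDifferential.map` and `exteriorPower.map` (after making
`K₂` a `K₁`-algebra by `e`), or from universal properties. -/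
theorem exists_formMap : ∃ Φ : Form k K₁ ≃+ Form k K₂,
    (∀ (a : K₁) (ω : Form k K₁), Φ (a • ω) = e a • Φ ω) ∧
    ∀ a b c : K₁, Φ (wedge a b c) = wedge (e a) (e b) (e c) := by
  have key : ∀ (K : Type u) [Field K] [Algebra k K] (F : Form k K →+ Form k K),
      (∀ (a : K) (ω : Form k K), F (a • ω) = a • F ω) → (∀ a b c : K, F (wedge a b c) = wedge a b c) →
      ∀ ω, F ω = ω := by
    intro K _ _ F h1 h2 ω
    let G : Form k K →ₗ[K] Form k K := { F with map_smul' := h1 }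
    have := K16_span K (LinearMap.eqLocus G LinearMap.id) (fun a b c ↦ h2 a b c)
    have h3 : ω ∈ LinearMap.eqLocus G LinearMap.id := by rw [this]; trivial
    exact h3
  obtain ⟨Φ, h1, h2⟩ := K16_map e
  obtain ⟨Ψ, g1, g2⟩ := K16_map e.symm
  refine ⟨AddMonoidHom.toAddEquiv Φ Ψ ?_ ?_, h1, h2⟩
  · ext1 ω
    refine key K₁ (Ψ.comp Φ) (fun a ω ↦ ?_) (fun a b c ↦ ?_) ω
    · simp [h1, g1]
    · simp [h2, g2]
  · ext1 ω
    refine key K₂ (Φ.comp Ψ) (fun a ω ↦ ?_) (fun a b c ↦ ?_) ω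
    · simp [h1, g1]
    · simp [h2, g2]

theorem K16_unif {O : Subalgebra k K₁} {π : K₁} (h : IsUniformizer O π) :
    IsUniformizer (O.map e.toAlgHom) (e π) := by
  obtain ⟨hm, hi⟩ := h
  let E : O ≃ₐ[k] (O.map e.toAlgHom) := e.subalgebraMap O
  have hE : (⟨e π, Subalgebra.mem_map.2 ⟨π, hm, rfl⟩⟩ : O.map e.toAlgHom) = E ⟨π, hm⟩ :=
    Subtype.ext rfl
  refine ⟨Subalgebra.mem_map.2 ⟨π, hm, rfl⟩, ?_⟩
  rw [hE]
  exact (MulEquiv.irreducible_iff E).2 hi

theorem HasOrd.map {O : Subalgebra k K₁} {f : K₁} {n : ℤ} (h : HasOrd O f n) :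
    HasOrd (O.map e.toAlgHom) (e f) n := by
  obtain ⟨π, hπ, u, rfl⟩ := h
  let E : O ≃ₐ[k] (O.map e.toAlgHom) := e.subalgebraMap O
  refine ⟨e π, K16_unif e hπ, Units.map (E : O →* (O.map e.toAlgHom)) u, ?_⟩
  rw [map_mul, map_zpow₀]
  rfl

theorem K16_reg {O : Subalgebra k K₁} {Φ : Form k K₁ →+ Form k K₂}
    (h1 : ∀ (a : K₁) (ω : Form k K₁), Φ (a • ω) = e a • Φ ω)
    (h2 : ∀ a b c : K₁, Φ (wedge a b c) = wedge (e a) (e b) (e c)) {O' : Subalgebra k K₂}
    (hO' : ∀ a ∈ O, e a ∈ O') {η : Form k K₁} (hη : η ∈ regularForms O) :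
    Φ η ∈ regularForms O' := by
  unfold regularForms at hη
  induction hη using Submodule.span_induction with
  | mem ω h =>
    obtain ⟨a, ha, b, hb, c, hc, rfl⟩ := h
    rw [h2]
    exact K4_reg_wedge (hO' a ha) (hO' b hb) (hO' c hc)
  | zero =>
    rw [map_zero]
    exact Submodule.zero_mem _
  | add ω ω' _ _ ih ih' =>
    rw [map_add]
    exact Submodule.add_mem _ ih ih'
  | smul a ω _ ih =>
    have : Φ (a • ω) = e (a : K₁) • Φ ω := h1 (a : K₁) ω
    rw [this]
    exact K4_reg_smul ih (hO' a a.2)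

theorem HasFormOrd.map {O : Subalgebra k K₁} {a b c : K₁} {n : ℤ}
    (h : HasFormOrd O (wedge a b c : Form k K₁) n) :
    HasFormOrd (O.map e.toAlgHom) (wedge (e a) (e b) (e c) : Form k K₂) n := by
  obtain ⟨Φ, h1, h2⟩ := K16_map e
  obtain ⟨Ψ, g1, g2⟩ := K16_map e.symm
  obtain ⟨π, hπ, ⟨η, hη, hω⟩, hn⟩ := h
  refine ⟨e π, K16_unif e hπ, ⟨Φ η, K16_reg e h1 h2 (fun a ha ↦ Subalgebra.mem_map.2 ⟨a, ha, rfl⟩)
    hη, ?_⟩, ?_⟩
  · rw [← h2, hω, h1, map_zpow₀]
  · rintro ⟨η', hη', hω'⟩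
    refine hn ⟨Ψ η', K16_reg e.symm g1 g2 (fun a ha ↦ ?_) hη', ?_⟩
    · obtain ⟨b, hb, rfl⟩ := Subalgebra.mem_map.1 ha
      change e.symm (e b) ∈ O
      rwa [e.symm_apply_apply]
    · have := congrArg Ψ hω'
      rw [g2, g1, map_zpow₀] at this
      simpa using this

end H1F
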