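import Pool.Agent.Lib.H1F.KLT.KDefs

/-! # H1F, part KLT, chunk K2: the form `dA ∧ dv ∧ dw` is not zero -/

open MvPolynomial TensorProduct

universe u

namespace H1F

variable {k : Type u} [Field k] {K : Type u} [Field K] [Algebra k K]

/-- `P = MvPolynomial (Fin 3) k` acts on `K` by `aeval ![A, v, w]`, which is injective
(`h.indep`), and `K` is its fraction field (`h.gen`).  So `K` is formally etale over `P`,
`KaehlerDifferential.tensorKaehlerEquivOfFormallyEtale` gives `K ⊗[P] Ω[P⁄k] ≃ Ω[K⁄k]`, and
`KaehlerDifferential.mvPolynomialBasis` gives a `K`-basis `e` of `Ω[K⁄k]` with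
`e i = D (![A, v, w] i)`.  The alternating form `e.det` induces a linear map on the third exterior
power (`exteriorPower.alternatingMapLinearEquiv`) which sends `wedge A v w` to
`e.det e = 1 ≠ 0`.  (Alternatively: construct the three partial derivations of `K` over `k`
and the determinant.) -/
theorem K2_basis {A v w : K} (h : Gen k A v w) :
    ∃ b : Module.Basis (Fin 3) K Ω[K⁄k], ∀ i, b i = KaehlerDifferential.D k K (![A, v, w] i) := by
  let P := MvPolynomial (Fin 3) k
  let _ : Algebra P K := (aeval (R := k) ![A, v, w]).toRingHom.toAlgebra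
  have hmap : ∀ x : P, algebraMap P K x = aeval ![A, v, w] x := fun x ↦ rfl
  have : IsScalarTower k P K := IsScalarTower.of_algebraMap_eq fun x ↦ by
    rw [hmap]
    exact ((aeval (R := k) ![A, v, w]).commutes x).symm
  have : FaithfulSMul P K := by
    rw [faithfulSMul_iff_algebraMap_injective]
    exact h.indep
  have : IsFractionRing P K := IsFractionRing.of_field P K fun z ↦ by
    obtain ⟨a, b, hb, hab⟩ := h.gen z
    refine ⟨a, b, ?_⟩
    rw [hmap, hmap, eq_div_iff hb]
    exact hab
  have : Algebra.FormallyEtale P K := Algebra.FormallyEtale.of_isLocalization (nonZeroDivisors P)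
  let e := KaehlerDifferential.tensorKaehlerEquivOfFormallyEtale k P K
  let b : Module.Basis (Fin 3) K (K ⊗[P] Ω[P⁄k]) :=
    (KaehlerDifferential.mvPolynomialBasis k (Fin 3)).baseChange K
  refine ⟨b.map e, fun i ↦ ?_⟩
  rw [Module.Basis.map_apply]
  have h1 : b i = 1 ⊗ₜ[P] KaehlerDifferential.D k P (X i) := by
    rw [Module.Basis.baseChange_apply, KaehlerDifferential.mvPolynomialBasis_apply]
  rw [h1, KaehlerDifferential.tensorKaehlerEquivOfFormallyEtale_apply,
    KaehlerDifferential.mapBaseChange_tmul, one_smul, KaehlerDifferential.map_D, hmap, aeval_X]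

theorem wedge_ne_zero {A v w : K} (h : Gen k A v w) : (wedge A v w : Form k K) ≠ 0 := by
  obtain ⟨b, hb⟩ := K2_basis h
  have h1 : exteriorPower.alternatingMapLinearEquiv b.det (wedge A v w : Form k K) = 1 := by
    unfold wedge
    rw [exteriorPower.alternatingMapLinearEquiv_apply_ιMulti]
    have h2 : (![KaehlerDifferential.D k K A, KaehlerDifferential.D k K v,
        KaehlerDifferential.D k K w] : Fin 3 → Ω[K⁄k]) = b := by
      funext i
      rw [hb i]
      fin_cases i <;> rfl
    rw [h2]
    exact b.det_self
  intro h0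
  rw [h0, map_zero] at h1
  exact zero_ne_one h1

end H1F
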