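import Pool.Agent.Lib.H1F.KLT.K13
import Pool.Agent.Lib.H1F.KLT.K2
import Pool.Agent.Lib.H1F.KLT.K10
import Pool.Agent.Lib.H1F.KLT.K12
import Pool.Agent.Lib.H1F.KLT.K16

/-! # H1F, part KLT, chunk K14: points of codimension one of `X` -/

open CategoryTheory AlgebraicGeometry Order

universe u

namespace H1F

variable {k : Type u} [Field k] {K : Type u} [Field K] [Algebra k K]
  {ι : Type} [Finite ι] [Nonempty ι] {R : ι → Subalgebra k K}
  {X : Over (Spec (CommRingCat.of k))} [IsIntegral X.left] [IsLocallyNoetherian X.left]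
  (e : X.left.functionField ≃ₐ[k] K)

/-- transport back and forth -/
theorem K14_map_symm {K₁ K₂ : Type u} [Field K₁] [Algebra k K₁] [Field K₂] [Algebra k K₂]
    (e : K₁ ≃ₐ[k] K₂) (O : Subalgebra k K₁) : (O.map e.toAlgHom).map e.symm.toAlgHom = O := by
  ext x
  constructor
  · intro hx
    obtain ⟨y, hy, rfl⟩ := Subalgebra.mem_map.1 hx
    obtain ⟨z, hz, rfl⟩ := Subalgebra.mem_map.1 hy
    change e.symm (e z) ∈ O
    rwa [e.symm_apply_apply]
  · intro hx
    refine Subalgebra.mem_map.2 ⟨e x, Subalgebra.mem_map.2 ⟨x, hx, rfl⟩, ?_⟩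
    exact e.symm_apply_apply x

omit [IsLocallyNoetherian X.left] in
theorem K14_mem (z : X.left) (f : K) : f ∈ LK X e z ↔ e.symm f ∈ localRing k X z := by
  constructor
  · intro hf
    obtain ⟨y, hy, rfl⟩ := Subalgebra.mem_map.1 hf
    change e.symm (e y) ∈ _
    rwa [e.symm_apply_apply]
  · intro hf
    exact Subalgebra.mem_map.2 ⟨e.symm f, hf, e.apply_symm_apply f⟩

/-- `hasOrd_iff` (AT17) and `HasOrd.map` for `e` and `e.symm`. -/
theorem LK_hasOrd_iff (hX : Variety k X) {z : X.left} (hz : coheight z = 1) {f : K}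
    (hf : f ≠ 0) (n : ℤ) : HasOrd (LK X e z) f n ↔ Scheme.ord (e.symm f) z = n := by
  have hf' : e.symm f ≠ 0 := by
    rw [Ne, EmbeddingLike.map_eq_zero_iff]
    exact hf
  rw [← hasOrd_iff hX hz hf']
  constructor
  · intro h
    have h1 := HasOrd.map e.symm h
    rwa [K14_map_symm] at h1
  · intro h
    have h1 := HasOrd.map e h
    rwa [e.apply_symm_apply] at h1

/-- `isDivisorial_localRing` (AT16); transport by `e`. -/
theorem LK_dvr (hX : Variety k X) (hd : Algebra.trdeg k K = 3) {z : X.left}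
    (hz : coheight z = 1) :
    IsDiscreteValuationRing (LK X e z) ∧ IsFractionRing (LK X e z) K := by
  constructor
  · have := isDVR_localRing hX hz
    let E : localRing k X z ≃ₐ[k] (LK X e z) := e.subalgebraMap (localRing k X z)
    exact IsDiscreteValuationRing.RingEquivClass.isDiscreteValuationRing E
  · have := isFractionRing_localRing X z
    refine IsFractionRing.of_field _ _ fun x ↦ ?_
    obtain ⟨r, s, -, hrs⟩ := IsFractionRing.div_surjective (A := localRing k X z) (e.symm x)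
    refine ⟨⟨e r, Subalgebra.mem_map.2 ⟨r, r.2, rfl⟩⟩, ⟨e s, Subalgebra.mem_map.2 ⟨s, s.2, rfl⟩⟩, ?_⟩
    have h1 : x = e (e.symm x) := (e.apply_symm_apply x).symm
    rw [h1, ← hrs, map_div₀]
    rfl

/-- `LK_dvr` and `hL.le`, `hL.loc`. -/
theorem LK_isLocDVR (a : Atlas R X) (hL : FLIP.LocData a (LK X e)) (hX : Variety k X)
    (hd : Algebra.trdeg k K = 3) (i : ι) {z : X.left} (hi : z ∈ Set.range (a.c i))
    (hz : coheight z = 1) : IsLocDVR (R i) (LK X e z) := by
  obtain ⟨h1, h2⟩ := LK_dvr e hX hd hz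
  obtain ⟨y, rfl⟩ := hi
  refine ⟨hL.le i y, h1, h2, fun f hf ↦ ?_⟩
  obtain ⟨r, hr, s, hs, hs0, hsi, h⟩ := (hL.loc i y f).1 hf
  exact ⟨r, hr, s, hs, hs0, hsi, h⟩

/-- If `f / g` and `g / f` are in the local ring, the orders are equal. -/
theorem ord_eq_of_div (hX : Variety k X) (hd : Algebra.trdeg k K = 3)
    {z : X.left} (hz : coheight z = 1) {f g : K} (hf : f ≠ 0) (hg : g ≠ 0)
    (h : f / g ∈ LK X e z) (h' : g / f ∈ LK X e z) :
    Scheme.ord (e.symm f) z = Scheme.ord (e.symm g) z := by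
  obtain ⟨h1, h2⟩ := LK_dvr e hX hd hz
  have hf1 := (LK_hasOrd_iff e hX hz hf _).2 rfl
  have hg1 := (LK_hasOrd_iff e hX hz hg _).2 rfl
  have h3 := HasOrd.mul h1 h2 hf1 (HasOrd.inv h1 h2 hg1)
  have h4 := HasOrd.mul h1 h2 hg1 (HasOrd.inv h1 h2 hf1)
  rw [← div_eq_mul_inv] at h3 h4
  have h5 := (HasOrd.nonneg_iff h1 h2 h3).2 h
  have h6 := (HasOrd.nonneg_iff h1 h2 h4).2 h'
  omega

omit [IsLocallyNoetherian X.left] in
/-- A valuation ring with centre `x` contains the local ring. -/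
theorem HasCentre.le {O : Subalgebra k X.left.functionField} {x : X.left}
    (h : HasCentre k X O x) : localRing k X x ≤ O := by
  refine Algebra.adjoin_le ?_
  rintro _ ⟨s, rfl⟩
  exact (h s).1

/-- Two local equations of a divisor at `x` differ by a unit of the local ring (`AT18`,
`mem_localRing_of_ord_nonneg`; `Scheme.ord_mul`). -/
theorem LocalEq.div_mem (hX : Variety k X) {D : X.left → ℤ} {x : X.left}
    {f g : X.left.functionField} (hf : LocalEq D x f) (hg : LocalEq D x g) :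
    f / g ∈ localRing k X x := by
  refine mem_localRing_of_ord_nonneg hX x _ fun z hz hzx ↦ ?_
  have h1 := hf.2 z hz hzx
  have h2 := hg.2 z hz hzx
  have h3 : Scheme.ord (f / g * g) z = Scheme.ord (f / g) z + Scheme.ord g z :=
    Scheme.ord_mul (div_ne_zero hf.1 hg.1) hg.1
  rw [div_mul_cancel₀ _ hg.1] at h3
  omega

section

variable {p : ℕ} [Fact p.Prime] [CharP k p] {A v w : K}

/-- `dd_unit` in the local ring: `R i ⊔ R j ≤ LK X e z` (`hL.mem_range_iff`). -/
theorem ord_dd (hp : 5 ≤ p) (h : Gen k A v w)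
    (a : Atlas (fun i : {c : Ch // c.inX} ↦ ring k p A v w i) X)
    (hL : FLIP.LocData a (LK X e)) (hX : Variety k X) (hd : Algebra.trdeg k K = 3)
    {i j : {c : Ch // c.inX}} {z : X.left} (hi : z ∈ Set.range (a.c i))
    (hj : z ∈ Set.range (a.c j)) (hz : coheight z = 1) :
    Scheme.ord (e.symm (dd p A v w i)) z = Scheme.ord (e.symm (dd p A v w j)) z := by
  have : CharP K p := charP_of_injective_algebraMap (algebraMap k K).injective p
  have h1 := (hL.mem_range_iff z i).1 hi
  have h2 := (hL.mem_range_iff z j).1 hj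
  exact ord_eq_of_div e hX hd hz (dd_ne_zero h (by omega) _) (dd_ne_zero h (by omega) _)
    (sup_le h1 h2 (dd_unit hp h i.2 j.2)) (sup_le h2 h1 (dd_unit hp h j.2 i.2))

/-- In `K` first: `coord_ring`, `Coord.localize` (`hL.loc`), `wedge_chart`, `wedge_ne_zero`,
`hasFormOrd_of_coord`, `LK_hasOrd_iff`. -/
theorem LK_hasFormOrd_JJ (hp : 5 ≤ p) (h : Gen k A v w)
    (a : Atlas (fun i : {c : Ch // c.inX} ↦ ring k p A v w i) X)
    (hL : FLIP.LocData a (LK X e)) (hX : Variety k X) (hd : Algebra.trdeg k K = 3)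
    {i : {c : Ch // c.inX}} {z : X.left} (hi : z ∈ Set.range (a.c i)) (hz : coheight z = 1) :
    HasFormOrd (LK X e z) (wedge A v w : Form k K) (Scheme.ord (e.symm (JJ p A v w i)) z) := by
  have : CharP K p := charP_of_injective_algebraMap (algebraMap k K).injective p
  have h1 := LK_isLocDVR e a hL hX hd i hi hz
  have h2 := (coord_ring h (Or.inl i.2) : Coord (ring k p A v w i) _ _ _).localize h1.le h1.loc
  have h3 : (wedge A v w : Form k K) = _ := wedge_chart (p := p) h (Or.inl i.2)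
  have hne : (wedge (cx p A v w i) (cy p A v w i) (cz p A v w i) : Form k K) ≠ 0 := by
    intro h0
    rw [h0, smul_zero] at h3
    exact wedge_ne_zero h h3
  rw [h3]
  exact hasFormOrd_of_coord h1.dvr h1.frac h2 hne
    ((LK_hasOrd_iff e hX hz (JJ_ne_zero h (by omega) _) _).2 rfl)

/-- `LK_hasFormOrd_JJ` and `HasFormOrd.map` for `e.symm`. -/
theorem hasFormOrd_JJ (hp : 5 ≤ p) (h : Gen k A v w)
    (a : Atlas (fun i : {c : Ch // c.inX} ↦ ring k p A v w i) X)
    (hL : FLIP.LocData a (LK X e)) (hX : Variety k X) (hd : Algebra.trdeg k K = 3)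
    {i : {c : Ch // c.inX}} {z : X.left} (hi : z ∈ Set.range (a.c i)) (hz : coheight z = 1) :
    HasFormOrd (localRing k X z)
      (wedge (e.symm A) (e.symm v) (e.symm w) : Form k X.left.functionField)
      (Scheme.ord (e.symm (JJ p A v w i)) z) := by
  have h1 := HasFormOrd.map e.symm (LK_hasFormOrd_JJ e hp h a hL hX hd hi hz)
  rwa [K14_map_symm] at h1

end

end H1F
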