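import Pool.Agent.Lib.H1F.KLT.K3

/-! # H1F, part KLT, chunk K4: orders of 3-forms and the inequality (LOG) -/

universe u

namespace H1F

variable {k : Type u} [Field k] {K : Type u} [Field K] [Algebra k K] {O : Subalgebra k K}

theorem K4_reg_smul {η : Form k K} (h : η ∈ regularForms O) {a : K} (ha : a ∈ O) :
    a • η ∈ regularForms O := (regularForms O).smul_mem (⟨a, ha⟩ : O) h

theorem K4_reg_wedge {a b c : K} (ha : a ∈ O) (hb : b ∈ O) (hc : c ∈ O) :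
    (wedge a b c : Form k K) ∈ regularForms O :=
  Submodule.subset_span ⟨a, ha, b, hb, c, hc, rfl⟩

theorem K4_zpow {π : K} (hπ : π ≠ 0) (n : ℤ) (b c : K) :
    (wedge (π ^ n) b c : Form k K) = ((n : K) * π ^ (n - 1)) • wedge π b c := by
  cases n with
  | ofNat n =>
    rw [Int.ofNat_eq_natCast, zpow_natCast, wedge_pow]
    congr 1
    rcases Nat.eq_zero_or_pos n with rfl | hn
    · simp
    · obtain ⟨m, rfl⟩ : ∃ m, n = m + 1 := ⟨n - 1, by omega⟩
      have e : ((m + 1 : ℕ) : ℤ) - 1 = (m : ℤ) := by push_cast; ring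
      rw [e, zpow_natCast, Nat.add_sub_cancel]
      push_cast
      ring
  | negSucc n =>
    rw [zpow_negSucc, wedge_inv (pow_ne_zero _ hπ), wedge_pow, smul_smul, ← neg_smul]
    congr 1
    rw [show (Int.negSucc n : ℤ) - 1 = -((n : ℤ) + 2) by
      rw [Int.negSucc_eq]; ring, Int.negSucc_eq]
    push_cast
    rw [zpow_neg, show ((n:ℤ) + 2) = ((n + 2 : ℕ) : ℤ) by push_cast; rfl, zpow_natCast]
    have h1 : (π ^ (n + 1)) ^ 2 = π ^ n * π ^ (n + 2) := by ring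
    have h2 : π ^ n ≠ 0 := pow_ne_zero _ hπ
    have h3 : π ^ (n + 2) ≠ 0 := pow_ne_zero _ hπ
    rw [h1, mul_inv]
    field_simp

/-- the first slot -/
theorem K4_first {π : K} (hπ : π ≠ 0) (n : ℤ) (u b c : K) :
    (wedge (π ^ n * u) b c : Form k K) =
      π ^ (n - 1) • (π • wedge u b c + ((n : K) * u) • wedge π b c) := by
  rw [wedge_mul, K4_zpow hπ, smul_add, smul_smul, smul_smul, smul_smul]
  congr 2
  · rw [zpow_sub_one₀ hπ]
    field_simp
  · ring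

theorem K4_w13 (a b : K) : (wedge a b a : Form k K) = 0 := by
  rw [wedge_cycle, wedge_cycle, wedge_self]

theorem K4_expand {π : K} (hπ : π ≠ 0) (a1 a2 a3 : ℤ) (u1 u2 u3 : K) :
    (wedge (π ^ a1 * u1) (π ^ a2 * u2) (π ^ a3 * u3) : Form k K) =
      π ^ (a1 + a2 + a3 - 1) • (π • wedge u3 u1 u2 + ((a3 : K) * u3) • wedge π u1 u2 +
        ((a2 : K) * u2) • wedge u3 u1 π + ((a1 : K) * u1) • wedge π u2 u3) := by
  rw [K4_first hπ]
  have e1 : (wedge u1 (π ^ a2 * u2) (π ^ a3 * u3) : Form k K) =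
      π ^ (a2 - 1) • (π • (π ^ (a3 - 1) • (π • wedge u3 u1 u2 + ((a3 : K) * u3) • wedge π u1 u2)) +
        ((a2 : K) * u2) • (π ^ (a3 - 1) • (π • wedge u3 u1 π))) := by
    rw [wedge_cycle, K4_first hπ]
    congr 2
    · rw [wedge_cycle, K4_first hπ]
    · rw [wedge_cycle π, K4_first hπ, K4_w13, smul_zero, add_zero]
  have e2 : (wedge π (π ^ a2 * u2) (π ^ a3 * u3) : Form k K) =
      π ^ (a2 - 1) • (π • (π ^ (a3 - 1) • (π • wedge π u2 u3))) := by
    rw [wedge_cycle, K4_first hπ, K4_w13, smul_zero, add_zero, wedge_cycle, K4_first hπ,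
      wedge_self, smul_zero, add_zero, wedge_cycle]
  rw [e1, e2]
  have e3 : π ^ (a1 + a2 + a3 - 1) = π ^ a1 * π ^ a2 * π ^ a3 / π := by
    rw [zpow_sub_one₀ hπ, zpow_add₀ hπ, zpow_add₀ hπ]
    ring
  rw [e3, zpow_sub_one₀ hπ, zpow_sub_one₀ hπ, zpow_sub_one₀ hπ]
  match_scalars <;> field_simp

variable (hO : IsDiscreteValuationRing O) (hK : IsFractionRing O K)

include hO hK

/-- The uniformizer in the definition of `HasFormOrd` may be changed: two uniformizers differ by a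
unit of `O` and `regularForms O` is an `O`-module.  So if `ω = π ^ n • η` with `η` regular (for one
uniformizer) and `HasFormOrd O ω e`, then `n ≤ e`. -/
theorem HasFormOrd.le {ω : Form k K} {e n : ℤ} (h : HasFormOrd O ω e) {g : K} (hg : HasOrd O g n)
    {η : Form k K} (hη : η ∈ regularForms O) (hω : ω = g • η) : n ≤ e := by
  obtain ⟨π, hπ, -, hn⟩ := h
  by_contra hcon
  push Not at hcon
  obtain ⟨d, hd⟩ : ∃ d : ℕ, n = e + 1 + d := ⟨(n - e - 1).toNat, by omega⟩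
  obtain ⟨u, hu⟩ := K3_ord_with hO hg hπ
  have hπ0 := K3_unif_ne hπ
  obtain ⟨hm, hi⟩ := hπ
  refine hn ⟨(π ^ d * ((u : O) : K)) • η, K4_reg_smul hη (O.mul_mem (O.pow_mem hm d) (u : O).2), ?_⟩
  rw [hω, hu, hd, zpow_add₀ hπ0, smul_smul, zpow_natCast, mul_assoc]

theorem HasFormOrd.unique {ω : Form k K} {e e' : ℤ} (h : HasFormOrd O ω e)
    (h' : HasFormOrd O ω e') : e = e' := by
  have key : ∀ {e e' : ℤ}, HasFormOrd O ω e → HasFormOrd O ω e' → e' ≤ e := by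
    intro e e' h h'
    obtain ⟨π, hπ, ⟨η, hη, hω⟩, -⟩ := h'
    exact HasFormOrd.le hO hK h ⟨π, hπ, 1, by simp⟩ hη hω
  exact le_antisymm (key h' h) (key h h')

/-- multiplication by `g ∈ K`, `g ≠ 0`, shifts the order -/
theorem HasFormOrd.smul {ω : Form k K} {e m : ℤ} (h : HasFormOrd O ω e) {g : K}
    (hg : HasOrd O g m) : HasFormOrd O (g • ω) (e + m) := by
  obtain ⟨π, hπ, ⟨η, hη, hω⟩, hn⟩ := h
  have hπ0 := K3_unif_ne hπ
  obtain ⟨u, hu⟩ := K3_ord_with hO hg hπ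
  have hu0 := K3_unit_ne u
  refine ⟨π, hπ, ⟨((u : O) : K) • η, K4_reg_smul hη (u : O).2, ?_⟩, ?_⟩
  · rw [hω, hu, smul_smul, smul_smul, zpow_add₀ hπ0]
    congr 1
    ring
  · rintro ⟨η', hη', hω'⟩
    refine hn ⟨(((u⁻¹ : Oˣ) : O) : K) • η', K4_reg_smul hη' ((u⁻¹ : Oˣ) : O).2, ?_⟩
    have hg0 : g ≠ 0 := hg.ne_zero
    have h1 : ω = g⁻¹ • (g • ω) := by rw [smul_smul, inv_mul_cancel₀ hg0, one_smul]
    rw [h1, hω', hu, K3_unit_inv, smul_smul, smul_smul]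
    congr 1
    rw [show e + m + 1 = (e + 1) + m by ring, zpow_add₀ hπ0]
    field_simp

/-- (LOG) `1 + ord (g • df ∧ dg ∧ dh) ≥ v(g) + v(f1) + v(f2) + v(f3)`.
Write `f_i = π ^ a_i * u_i` with units `u_i` (the same `π` for all three, `HasOrd` for the chosen
uniformizer).  `D (π ^ a u) = π ^ a (a (u / π) D π + D u)` (for `a : ℤ`).  Expanding the wedge of
the three and using `wedge_self`, at most one factor `D π` survives in every term, so
`wedge f1 f2 f3 = π ^ (a1 + a2 + a3 - 1) • η` with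
`η = π • wedge u1 u2 u3 + a1 u1 • wedge π u2 u3 + a2 u2 • wedge u1 π u3 + a3 u3 • wedge u1 u2 π`
regular.  Now use `HasFormOrd.le` with `g * π ^ (a1+a2+a3-1)`. -/
theorem HasFormOrd.log {f1 f2 f3 g : K} {a1 a2 a3 m e : ℤ} (h1 : HasOrd O f1 a1)
    (h2 : HasOrd O f2 a2) (h3 : HasOrd O f3 a3) (hg : HasOrd O g m)
    (h : HasFormOrd O (g • (wedge f1 f2 f3 : Form k K)) e) : m + a1 + a2 + a3 ≤ e + 1 := by
  obtain ⟨π, hπ⟩ := K3_exists_unif hO
  have hπ0 := K3_unif_ne hπ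
  have hπO : π ∈ O := hπ.1
  obtain ⟨u1, rfl⟩ := K3_ord_with hO h1 hπ
  obtain ⟨u2, rfl⟩ := K3_ord_with hO h2 hπ
  obtain ⟨u3, rfl⟩ := K3_ord_with hO h3 hπ
  rw [K4_expand hπ0, smul_smul] at h
  have hint : ∀ n : ℤ, (n : K) ∈ O := fun n ↦ O.intCast_mem n
  have hpow : HasOrd O (π ^ (a1 + a2 + a3 - 1)) (a1 + a2 + a3 - 1) := ⟨π, hπ, 1, by simp⟩
  have hmul := HasOrd.mul hO hK hg hpow
  have hle := HasFormOrd.le hO hK h hmul (η := _) ?_ rfl
  · omega
  · refine Submodule.add_mem _ (Submodule.add_mem _ (Submodule.add_mem _ ?_ ?_) ?_) ?_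
    · exact K4_reg_smul (K4_reg_wedge (u3 : O).2 (u1 : O).2 (u2 : O).2) hπO
    · exact K4_reg_smul (K4_reg_wedge hπO (u1 : O).2 (u2 : O).2) (O.mul_mem (hint _) (u3 : O).2)
    · exact K4_reg_smul (K4_reg_wedge (u3 : O).2 (u1 : O).2 hπO) (O.mul_mem (hint _) (u2 : O).2)
    · exact K4_reg_smul (K4_reg_wedge hπO (u2 : O).2 (u3 : O).2) (O.mul_mem (hint _) (u1 : O).2)

/-- the form `dx ∧ dy ∧ dz` with `x, y, z ∈ O` has nonnegative order -/
theorem HasFormOrd.nonneg {x y z : K} (hx : x ∈ O) (hy : y ∈ O) (hz : z ∈ O) {e : ℤ}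
    (h : HasFormOrd O (wedge x y z : Form k K) e) : 0 ≤ e :=
  HasFormOrd.le hO hK h (HasOrd.one hO hK) (K4_reg_wedge hx hy hz) (one_smul _ _).symm

end H1F
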