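import Pool.Agent.Lib.H1F.KLT.K4

/-! # H1F, part KLT, chunk K5: regular forms of a ring with coordinates -/

universe u

namespace H1F

variable {k : Type u} [Field k] {K : Type u} [Field K] [Algebra k K]

theorem K5_adjoin_le {O : Subalgebra k K} {x y z : K} (h : Coord O x y z) :
    Algebra.adjoin k {x, y, z} ≤ O := by
  refine Algebra.adjoin_le ?_
  intro t ht
  simp only [Set.mem_insert_iff, Set.mem_singleton_iff] at ht
  rcases ht with rfl | rfl | rfl
  · exact h.hx
  · exact h.hy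
  · exact h.hz

theorem K5_D_poly {O : Subalgebra k K} {x y z : K} (h : Coord O x y z) {f : K}
    (hf : f ∈ Algebra.adjoin k {x, y, z}) :
    KaehlerDifferential.D k K f ∈ Submodule.span O {KaehlerDifferential.D k K x,
      KaehlerDifferential.D k K y, KaehlerDifferential.D k K z} := by
  set N := Submodule.span O {KaehlerDifferential.D k K x,
      KaehlerDifferential.D k K y, KaehlerDifferential.D k K z} with hN
  have hs : ∀ (a : K) (_ : a ∈ O) (ω : Ω[K⁄k]), ω ∈ N → a • ω ∈ N :=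
    fun a ha ω hω ↦ N.smul_mem (⟨a, ha⟩ : O) hω
  induction hf using Algebra.adjoin_induction with
  | mem t ht =>
    simp only [Set.mem_insert_iff, Set.mem_singleton_iff] at ht
    rcases ht with rfl | rfl | rfl
    · exact Submodule.subset_span (by simp)
    · exact Submodule.subset_span (by simp)
    · exact Submodule.subset_span (by simp)
  | algebraMap r =>
    rw [Derivation.map_algebraMap]
    exact N.zero_mem
  | add a b _ _ h1 h2 =>
    rw [map_add]
    exact N.add_mem h1 h2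
  | mul a b ha hb h1 h2 =>
    rw [Derivation.leibniz]
    exact N.add_mem (hs a (K5_adjoin_le h ha) _ h2) (hs b (K5_adjoin_le h hb) _ h1)

/-- `D f` for `f ∈ O`: `f = a / s`, `D f = s⁻¹ (D a - f D s)`, and for a polynomial `a` in
`x, y, z` the differential `D a` is in the `k[x,y,z]`-span of `D x, D y, D z`
(`Algebra.adjoin_induction`). -/
theorem D_mem_span {O : Subalgebra k K} {x y z : K} (h : Coord O x y z) {f : K} (hf : f ∈ O) :
    KaehlerDifferential.D k K f ∈ Submodule.span O {KaehlerDifferential.D k K x,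
      KaehlerDifferential.D k K y, KaehlerDifferential.D k K z} := by
  obtain ⟨a, ha, s, hs, hs0, hsi, hfa⟩ := h.quot f hf
  set N := Submodule.span O {KaehlerDifferential.D k K x,
      KaehlerDifferential.D k K y, KaehlerDifferential.D k K z} with hN
  have hsm : ∀ (a : K) (_ : a ∈ O) (ω : Ω[K⁄k]), ω ∈ N → a • ω ∈ N :=
    fun a ha ω hω ↦ N.smul_mem (⟨a, ha⟩ : O) hω
  have h1 : f * s = a := by rw [hfa]; field_simp
  have h2 : KaehlerDifferential.D k K a =
      f • KaehlerDifferential.D k K s + s • KaehlerDifferential.D k K f := by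
    rw [← h1, Derivation.leibniz]
  have h3 : KaehlerDifferential.D k K f =
      s⁻¹ • (KaehlerDifferential.D k K a - f • KaehlerDifferential.D k K s) := by
    rw [h2, add_sub_cancel_left, smul_smul, inv_mul_cancel₀ hs0, one_smul]
  rw [h3]
  exact hsm _ hsi _ (N.sub_mem (K5_D_poly h ha) (hsm _ hf _ (K5_D_poly h hs)))

/-- by `D_mem_span` and `wedge_mem_span` -/
theorem regularForms_eq {O : Subalgebra k K} {x y z : K} (h : Coord O x y z) :
    regularForms O = Submodule.span O {(wedge x y z : Form k K)} := by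
  apply le_antisymm
  · refine Submodule.span_le.2 ?_
    rintro ω ⟨a, ha, b, hb, c, hc, rfl⟩
    exact wedge_mem_span O x y z (D_mem_span h ha) (D_mem_span h hb) (D_mem_span h hc)
  · refine Submodule.span_le.2 ?_
    rintro ω rfl
    exact K4_reg_wedge h.hx h.hy h.hz

/-- The order of `J • dx ∧ dy ∧ dz` is the order of `J`: `J = π ^ n * u`;
if `J • ω₀ = π ^ (n+1) • (a • ω₀)` with `a ∈ O`, then `J = π ^ (n+1) a` as `ω₀ ≠ 0`, so
`u = π a`, a contradiction. -/
theorem hasFormOrd_of_coord {O : Subalgebra k K} (hO : IsDiscreteValuationRing O)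
    (hK : IsFractionRing O K) {x y z : K} (h : Coord O x y z)
    (hne : (wedge x y z : Form k K) ≠ 0) {J : K} {n : ℤ} (hJ : HasOrd O J n) :
    HasFormOrd O (J • (wedge x y z : Form k K)) n := by
  obtain ⟨π, hπ, u, hu⟩ := id hJ
  have hπ0 := K3_unif_ne hπ
  refine ⟨π, hπ, ⟨((u : O) : K) • wedge x y z, K4_reg_smul (K4_reg_wedge h.hx h.hy h.hz)
    (u : O).2, ?_⟩, ?_⟩
  · rw [hu, smul_smul]
  · rintro ⟨η, hη, hω⟩
    rw [regularForms_eq h, Submodule.mem_span_singleton] at hη
    obtain ⟨a, rfl⟩ := hη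
    have h1 : J • (wedge x y z : Form k K) = (π ^ (n + 1) * (a : K)) • (wedge x y z : Form k K) := by
      rw [hω, mul_smul]
      rfl
    have h3 : J = π ^ (n + 1) * (a : K) := smul_left_injective K hne h1
    have h4 : (a : K) = (π ^ (n + 1))⁻¹ * J := by
      rw [h3]
      have := zpow_ne_zero (n + 1) hπ0
      field_simp
    have h5 : HasOrd O (π ^ (n + 1)) (n + 1) := ⟨π, hπ, 1, by simp⟩
    have h6 := HasOrd.mul hO hK (HasOrd.inv hO hK h5) hJ
    rw [← h4] at h6
    have h7 := (HasOrd.nonneg_iff hO hK h6).2 a.2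
    omega

/-- Localization: `L` consists of the quotients `a * s⁻¹`, `a, s ∈ R`, `s⁻¹ ∈ L`. -/
theorem Coord.localize {R L : Subalgebra k K} {x y z : K} (h : Coord R x y z) (hRL : R ≤ L)
    (hL : ∀ f ∈ L, ∃ a ∈ R, ∃ s ∈ R, s ≠ 0 ∧ s⁻¹ ∈ L ∧ f = a * s⁻¹) : Coord L x y z := by
  refine ⟨hRL h.hx, hRL h.hy, hRL h.hz, fun f hf ↦ ?_⟩
  obtain ⟨a, ha, s, hs, hs0, hsi, rfl⟩ := hL f hf
  obtain ⟨a1, ha1, s1, hs1, hs10, hs1i, rfl⟩ := h.quot a ha
  obtain ⟨a2, ha2, s2, hs2, hs20, hs2i, rfl⟩ := h.quot s hs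
  have ha20 : a2 ≠ 0 := left_ne_zero_of_mul hs0
  refine ⟨a1 * s2, Subalgebra.mul_mem _ ha1 hs2, s1 * a2, Subalgebra.mul_mem _ hs1 ha2,
    mul_ne_zero hs10 ha20, ?_, ?_⟩
  · have h1 : (s1 * a2)⁻¹ = s1⁻¹ * ((a2 * s2⁻¹)⁻¹ * s2⁻¹) := by
      field_simp
    rw [h1]
    exact L.mul_mem (hRL hs1i) (L.mul_mem hsi (hRL hs2i))
  · field_simp

/-- A ring generated by `x, y, z`, polynomials in `x, y, z` and inverses of such polynomials.
The quotients `a * s⁻¹` with `s` in the submonoid generated by the `t⁻¹`, `t ∈ T`, `t⁻¹` a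
polynomial, form a subalgebra. -/
theorem coord_of_gens {x y z : K} {G : Set K} (hx : x ∈ G) (hy : y ∈ G) (hz : z ∈ G)
    (hG : ∀ t ∈ G, t ∈ Algebra.adjoin k {x, y, z} ∨ (t ≠ 0 ∧ t⁻¹ ∈ Algebra.adjoin k {x, y, z})) :
    Coord (Algebra.adjoin k G) x y z := by
  refine ⟨Algebra.subset_adjoin hx, Algebra.subset_adjoin hy, Algebra.subset_adjoin hz,
    fun f hf ↦ ?_⟩
  set P := Algebra.adjoin k {x, y, z} with hP
  have hle : P ≤ Algebra.adjoin k G := Algebra.adjoin_mono (by
    intro t ht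
    simp only [Set.mem_insert_iff, Set.mem_singleton_iff] at ht
    rcases ht with rfl | rfl | rfl
    · exact hx
    · exact hy
    · exact hz)
  induction hf using Algebra.adjoin_induction with
  | mem t ht =>
    rcases hG t ht with h1 | ⟨h1, h2⟩
    · exact ⟨t, h1, 1, P.one_mem, one_ne_zero, by rw [inv_one]; exact Subalgebra.one_mem _,
        by rw [inv_one, mul_one]⟩
    · exact ⟨1, P.one_mem, t⁻¹, h2, inv_ne_zero h1, by rw [inv_inv]; exact Algebra.subset_adjoin ht,
        by rw [inv_inv, one_mul]⟩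
  | algebraMap r =>
    exact ⟨algebraMap k K r, P.algebraMap_mem r, 1, P.one_mem, one_ne_zero,
      by rw [inv_one]; exact Subalgebra.one_mem _, by rw [inv_one, mul_one]⟩
  | add a b _ _ h1 h2 =>
    obtain ⟨a1, ha1, s1, hs1, hs10, hs1i, rfl⟩ := h1
    obtain ⟨a2, ha2, s2, hs2, hs20, hs2i, rfl⟩ := h2
    refine ⟨a1 * s2 + a2 * s1, P.add_mem (P.mul_mem ha1 hs2) (P.mul_mem ha2 hs1), s1 * s2,
      P.mul_mem hs1 hs2, mul_ne_zero hs10 hs20, ?_, ?_⟩
    · rw [mul_inv]
      exact Subalgebra.mul_mem _ hs1i hs2i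
    · field_simp
  | mul a b _ _ h1 h2 =>
    obtain ⟨a1, ha1, s1, hs1, hs10, hs1i, rfl⟩ := h1
    obtain ⟨a2, ha2, s2, hs2, hs20, hs2i, rfl⟩ := h2
    refine ⟨a1 * a2, P.mul_mem ha1 ha2, s1 * s2,
      P.mul_mem hs1 hs2, mul_ne_zero hs10 hs20, ?_, ?_⟩
    · rw [mul_inv]
      exact Subalgebra.mul_mem _ hs1i hs2i
    · field_simp

end H1F
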