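import Pool.Agent.Lib.H1F.KLT.KDefs

/-! # H1F, part KLT, chunk K7: elements different from zero -/

open MvPolynomial

namespace H1F

variable {k : Type*} [Field k] {K : Type*} [Field K] [Algebra k K]

theorem K7_ne {A v w : K} (h : Gen k A v w) (P : MvPolynomial (Fin 3) k) (x : Fin 3 → k)
    (hx : eval x P ≠ 0) : aeval ![A, v, w] P ≠ 0 := by
  intro h0
  apply hx
  have : P = 0 := (injective_iff_map_eq_zero _).1 h.indep P h0
  rw [this, map_zero]

/-- A polynomial relation between `A, v, w` is trivial.  (To show that `aeval ![A,v,w] P ≠ 0` find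
a coefficient of `P` which is not zero, or a point of `k ^ 3` where `P` is not zero.) -/
theorem nz {A v w : K} (h : Gen k A v w) {p : ℕ} (hp : 2 ≤ p) :
    A ≠ 0 ∧ v ≠ 0 ∧ w ≠ 0 ∧ v ≠ 1 ∧ w ≠ 1 ∧ v ≠ w ∧ A ≠ 1 ∧ A ≠ v ^ p ∧ A ≠ w ^ p ∧
      A ≠ 1 + (v - 1) ^ (p - 1) * (w - 1) := by
  have hp0 : p ≠ 0 := by omega
  refine ⟨?_, ?_, ?_, ?_, ?_, ?_, ?_, ?_, ?_, ?_⟩
  · have := K7_ne h (X 0) ![1, 1, 1] (by simp)
    simpa using this
  · have := K7_ne h (X 1) ![1, 1, 1] (by simp)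
    simpa using this
  · have := K7_ne h (X 2) ![1, 1, 1] (by simp)
    simpa using this
  · have := K7_ne h (X 1 - 1) ![0, 0, 0] (by simp)
    rw [← sub_ne_zero]
    simpa using this
  · have := K7_ne h (X 2 - 1) ![0, 0, 0] (by simp)
    rw [← sub_ne_zero]
    simpa using this
  · have := K7_ne h (X 1 - X 2) ![0, 1, 0] (by simp)
    rw [← sub_ne_zero]
    simpa using this
  · have := K7_ne h (X 0 - 1) ![0, 0, 0] (by simp)
    rw [← sub_ne_zero]
    simpa using this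
  · have := K7_ne h (X 0 - X 1 ^ p) ![1, 0, 0] (by simp [hp0])
    rw [← sub_ne_zero]
    simpa using this
  · have := K7_ne h (X 0 - X 2 ^ p) ![1, 0, 0] (by simp [hp0])
    rw [← sub_ne_zero]
    simpa using this
  · have := K7_ne h (X 0 - (1 + (X 1 - 1) ^ (p - 1) * (X 2 - 1))) ![0, 0, 1] (by simp)
    rw [← sub_ne_zero]
    simpa using this

/-- The same for the frames. -/
theorem nz_frame {A v w : K} (h : Gen k A v w) {p : ℕ} (hp : 2 ≤ p) (f : Fin 6) :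
    fa p A v w f ≠ 0 ∧ fv v w f ≠ 0 ∧ fw v w f ≠ 0 ∧ fv v w f ≠ 1 ∧ fw v w f ≠ 1 ∧
      fv v w f ≠ fw v w f ∧ fa p A v w f ≠ 1 ∧ fa p A v w f ≠ fv v w f ^ p ∧
      fa p A v w f ≠ fw v w f ^ p := by
  obtain ⟨hA, hv, hw, hv1, hw1, hvw, hA1, hAv, hAw, -⟩ := nz h hp
  have hvp : v ^ p ≠ 0 := pow_ne_zero _ hv
  have hwp : w ^ p ≠ 0 := pow_ne_zero _ hw
  have f1 : w / v ≠ 1 := fun e ↦ hvw ((div_eq_one_iff_eq hv).1 e).symm
  have f2 : v / w ≠ 1 := fun e ↦ hvw ((div_eq_one_iff_eq hw).1 e)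
  have f3 : v⁻¹ ≠ 1 := fun e ↦ hv1 (inv_eq_one.1 e)
  have f4 : w⁻¹ ≠ 1 := fun e ↦ hw1 (inv_eq_one.1 e)
  have f5 : v⁻¹ ≠ w / v := fun e ↦ hw1 (by field_simp at e; exact e.symm)
  have f6 : w⁻¹ ≠ v / w := fun e ↦ hv1 (by field_simp at e; exact e.symm)
  have f7 : A / v ^ p ≠ 1 := fun e ↦ hAv ((div_eq_one_iff_eq hvp).1 e)
  have f8 : A / w ^ p ≠ 1 := fun e ↦ hAw ((div_eq_one_iff_eq hwp).1 e)
  have f9 : A / v ^ p ≠ (v⁻¹) ^ p := fun e ↦ hA1 (by rw [inv_pow] at e; field_simp at e; exact e)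
  have f10 : A / w ^ p ≠ (w⁻¹) ^ p := fun e ↦ hA1 (by rw [inv_pow] at e; field_simp at e; exact e)
  have f11 : A / v ^ p ≠ (w / v) ^ p := fun e ↦ hAw (by
    rw [div_pow] at e; field_simp at e; exact e)
  have f12 : A / w ^ p ≠ (v / w) ^ p := fun e ↦ hAv (by
    rw [div_pow] at e; field_simp at e; exact e)
  fin_cases f
  · exact ⟨hA, hv, hw, hv1, hw1, hvw, hA1, hAv, hAw⟩
  · exact ⟨hA, hw, hv, hw1, hv1, hvw.symm, hA1, hAw, hAv⟩
  · exact ⟨div_ne_zero hA hvp, inv_ne_zero hv, div_ne_zero hw hv, f3, f1, f5, f7, f9, f11⟩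
  · exact ⟨div_ne_zero hA hvp, div_ne_zero hw hv, inv_ne_zero hv, f1, f3, f5.symm, f7, f11, f9⟩
  · exact ⟨div_ne_zero hA hwp, inv_ne_zero hw, div_ne_zero hv hw, f4, f2, f6, f8, f10, f12⟩
  · exact ⟨div_ne_zero hA hwp, div_ne_zero hv hw, inv_ne_zero hw, f2, f4, f6.symm, f8, f12, f10⟩

theorem yy_ne_zero {A v w : K} (h : Gen k A v w) {p : ℕ} (hp : 2 ≤ p) : yy p A v w ≠ 0 := by
  obtain ⟨hA, hv, hw, hv1, hw1, hvw, hA1, hAv, hAw, hy⟩ := nz h hp
  unfold yy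
  refine div_ne_zero ?_ (mul_ne_zero (mul_ne_zero (sub_ne_zero.2 hv1) (sub_ne_zero.2 hw1))
    (sub_ne_zero.2 hvw))
  intro e
  apply hy
  linear_combination e

theorem K7_lamF {A v w : K} (h : Gen k A v w) {p : ℕ} (hp : 2 ≤ p) (f : Fin 6) :
    lamF p v w f ≠ 0 := by
  obtain ⟨hA, hv, hw, hv1, hw1, hvw, hA1, hAv, hAw, hy⟩ := nz h hp
  have h1 : v ^ (p + 3) ≠ 0 := pow_ne_zero _ hv
  have h2 : w ^ (p + 3) ≠ 0 := pow_ne_zero _ hw
  fin_cases f
  · exact one_ne_zero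
  · exact neg_ne_zero.2 one_ne_zero
  · exact neg_ne_zero.2 h1
  · exact h1
  · exact h2
  · exact neg_ne_zero.2 h2

theorem JJ_ne_zero {A v w : K} (h : Gen k A v w) {p : ℕ} (hp : 2 ≤ p) (c : Ch) :
    JJ p A v w c ≠ 0 := by
  obtain ⟨hA, hv, hw, hv1, hw1, hvw, hA1, hAv, hAw, hy⟩ := nz h hp
  have g1 := sub_ne_zero.2 hv1
  have g2 := sub_ne_zero.2 hw1
  have g3 := sub_ne_zero.2 hvw
  cases c with
  | NI f =>
    obtain ⟨-, -, -, a1, a2, -⟩ := nz_frame h hp f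
    exact mul_ne_zero (K7_lamF h hp f) (mul_ne_zero (sub_ne_zero.2 a1)
      (pow_ne_zero _ (sub_ne_zero.2 a2)))
  | NII f =>
    obtain ⟨-, -, -, -, a2, -, a3, -⟩ := nz_frame h hp f
    exact neg_ne_zero.2 (mul_ne_zero (K7_lamF h hp f) (mul_ne_zero (sub_ne_zero.2 a3)
      (pow_ne_zero _ (sub_ne_zero.2 a2))))
  | M i =>
    obtain ⟨-, -, -, a1, a2, -⟩ := nz_frame h hp (fm i)
    exact mul_ne_zero (K7_lamF h hp (fm i)) (mul_ne_zero (pow_ne_zero _ (sub_ne_zero.2 a1))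
      (pow_ne_zero _ (sub_ne_zero.2 a2)))
  | T6 => exact one_ne_zero
  | P1 => exact mul_ne_zero g2 g3
  | P2 => exact mul_ne_zero g1 g3
  | P3 => exact mul_ne_zero (mul_ne_zero g1 g2) g3
  | P4 => exact mul_ne_zero (mul_ne_zero g1 g2) g3
  | Y0 => exact mul_ne_zero (mul_ne_zero g1 g2) g3

theorem FF_ne_zero {A v w : K} (h : Gen k A v w) {p : ℕ} (hp : 2 ≤ p) (c : Ch) :
    FF p A v w c ≠ 0 := by
  obtain ⟨hA, hv, hw, hv1, hw1, hvw, hA1, hAv, hAw, hy⟩ := nz h hp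
  have g1 := sub_ne_zero.2 hv1
  have g2 := sub_ne_zero.2 hw1
  have g3 := sub_ne_zero.2 hvw
  have g4 := sub_ne_zero.2 hA1
  have g5 := sub_ne_zero.2 hAv
  have g6 := sub_ne_zero.2 hAw
  have g7 := sub_ne_zero.2 hv1.symm
  have g8 := sub_ne_zero.2 hw1.symm
  have g9 : v ^ (p - 1) ≠ 0 := pow_ne_zero _ hv
  have g10 : w ^ (p - 1) ≠ 0 := pow_ne_zero _ hw
  have g11 : (1 - v) ^ p ≠ 0 := pow_ne_zero _ g7
  have g12 : (1 - w) ^ p ≠ 0 := pow_ne_zero _ g8
  cases c with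
  | NI f =>
    fin_cases f
    · exact div_ne_zero g4 g1
    · exact div_ne_zero g4 g2
    · exact div_ne_zero g4 (mul_ne_zero g9 g7)
    · exact div_ne_zero g4 g11
    · exact div_ne_zero g4 (mul_ne_zero g10 g8)
    · exact div_ne_zero g4 g12
  | NII f =>
    fin_cases f
    · exact one_ne_zero
    · exact one_ne_zero
    · exact div_ne_zero g4 g5
    · exact div_ne_zero g4 g11
    · exact div_ne_zero g4 g6
    · exact div_ne_zero g4 g12
  | M i =>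
    fin_cases i
    · exact g4
    · exact one_ne_zero
    · exact one_ne_zero
  | T6 => exact one_ne_zero
  | P1 => exact div_ne_zero g4 g2
  | P2 => exact div_ne_zero g4 g1
  | P3 => exact div_ne_zero g4 (mul_ne_zero g1 g2)
  | P4 => exact div_ne_zero g4 (mul_ne_zero g1 g2)
  | Y0 => exact div_ne_zero g4 (mul_ne_zero g1 g2)

theorem RR_ne_zero {A v w : K} (h : Gen k A v w) (c : Ch) : RR v w c ≠ 0 := by
  obtain ⟨hA, hv, hw, hv1, hw1, -⟩ := nz h le_rfl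
  cases c with
  | P1 => exact sub_ne_zero.2 hv1
  | P2 => exact sub_ne_zero.2 hw1
  | _ => exact one_ne_zero

theorem dd_ne_zero {A v w : K} (h : Gen k A v w) {p : ℕ} (hp : 2 ≤ p) (c : Ch) :
    dd p A v w c ≠ 0 :=
  mul_ne_zero (mul_ne_zero (pow_ne_zero _ (JJ_ne_zero h hp c)) (pow_ne_zero _ (FF_ne_zero h hp c)))
    (pow_ne_zero _ (RR_ne_zero h c))

theorem dd'_ne_zero {A v w : K} (h : Gen k A v w) {p : ℕ} (hp : 2 ≤ p) (c : Ch) :
    dd' p A v w c ≠ 0 := by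
  have hc := fun c ↦ pow_ne_zero 2 (dd_ne_zero h hp c)
  cases c <;> simp only [dd'] <;>
    first
    | exact hc _
    | exact div_ne_zero (hc _) (yy_ne_zero h hp)

/-- `A, v, w` is a transcendence basis of `K` over `k`. -/
theorem trdeg_eq {A v w : K} (h : Gen k A v w) : Algebra.trdeg k K = 3 := by
  have hb : IsTranscendenceBasis k ![A, v, w] := by
    rw [h.indep.isTranscendenceBasis_iff_isAlgebraic]
    constructor
    intro z
    obtain ⟨a, b, hb, hab⟩ := h.gen z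
    have hmem : ∀ P : MvPolynomial (Fin 3) k,
        aeval ![A, v, w] P ∈ Algebra.adjoin k (Set.range ![A, v, w]) := by
      intro P
      rw [Algebra.adjoin_range_eq_range_aeval]
      exact ⟨P, rfl⟩
    set S := Algebra.adjoin k (Set.range ![A, v, w]) with hS
    let b' : S := ⟨aeval ![A, v, w] b, hmem b⟩
    let a' : S := ⟨aeval ![A, v, w] a, hmem a⟩
    refine ⟨Polynomial.C b' * Polynomial.X - Polynomial.C a', ?_, ?_⟩
    · intro h0
      have h1 := congrArg (fun q ↦ Polynomial.coeff q 1) h0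
      simp only [Polynomial.coeff_sub, Polynomial.coeff_C_mul, Polynomial.coeff_X_one, mul_one,
        Polynomial.coeff_C_succ, sub_zero, Polynomial.coeff_zero] at h1
      exact hb (congrArg Subtype.val h1)
    · simp only [map_sub, map_mul, Polynomial.aeval_C, Polynomial.aeval_X]
      rw [sub_eq_zero]
      change aeval ![A, v, w] b * z = aeval ![A, v, w] a
      rw [← hab, mul_comm]
  have := hb.lift_cardinalMk_eq_trdeg
  simpa using this.symm

end H1F
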