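import Pool.Agent.Lib.H1F.KLT.K5
import Pool.Agent.Lib.H1F.KLT.K7

/-! # H1F, part KLT, chunk K8: coordinates of the chart rings -/

universe u

namespace H1F

variable {k : Type u} [Field k] {K : Type u} [Field K] [Algebra k K]

/-- `a = 1 + b q` and `(w - v)/(w - 1) = 1 - b s`; `coord_of_gens`. -/
theorem coord_NI {a v w : K} (ha : a ≠ 0) (hv : v ≠ 1) (hw : w ≠ 1) (hvw : v ≠ w) :
    Coord (NI k a v w) (v - 1) ((a - 1) / (v - 1)) (w - 1)⁻¹ := by
  have hv1 : v - 1 ≠ 0 := sub_ne_zero.2 hv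
  have hw1 : w - 1 ≠ 0 := sub_ne_zero.2 hw
  have hwv : w - v ≠ 0 := sub_ne_zero.2 (Ne.symm hvw)
  have hX : v - 1 ∈ Algebra.adjoin k {v - 1, (a - 1) / (v - 1), (w - 1)⁻¹} :=
    Algebra.subset_adjoin (by simp)
  have hY : (a - 1) / (v - 1) ∈ Algebra.adjoin k {v - 1, (a - 1) / (v - 1), (w - 1)⁻¹} :=
    Algebra.subset_adjoin (by simp)
  have hZ : (w - 1)⁻¹ ∈ Algebra.adjoin k {v - 1, (a - 1) / (v - 1), (w - 1)⁻¹} :=
    Algebra.subset_adjoin (by simp)
  refine coord_of_gens (by simp) (by simp) (by simp) ?_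
  intro t ht
  simp only [Set.mem_insert_iff, Set.mem_singleton_iff] at ht
  rcases ht with rfl | rfl | rfl | rfl | rfl
  · exact Or.inl hX
  · exact Or.inl hY
  · exact Or.inl hZ
  · refine Or.inr ⟨inv_ne_zero ha, ?_⟩
    have : a⁻¹⁻¹ = 1 + (v - 1) * ((a - 1) / (v - 1)) := by field_simp; ring
    rw [this]
    exact add_mem (one_mem _) (mul_mem hX hY)
  · refine Or.inr ⟨div_ne_zero hw1 hwv, ?_⟩
    have : ((w - 1) / (w - v))⁻¹ = 1 - (v - 1) * (w - 1)⁻¹ := by field_simp; ring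
    rw [this]
    exact sub_mem (one_mem _) (mul_mem hX hZ)

/-- `a = 1 + c` and `(w - v)/(w - 1) = 1 - c q' s`. -/
theorem coord_NII {a v w : K} (ha : a ≠ 0) (ha1 : a ≠ 1) (hw : w ≠ 1) (hvw : v ≠ w) :
    Coord (NII k a v w) (a - 1) ((v - 1) / (a - 1)) (w - 1)⁻¹ := by
  have hv1 : a - 1 ≠ 0 := sub_ne_zero.2 ha1
  have hw1 : w - 1 ≠ 0 := sub_ne_zero.2 hw
  have hwv : w - v ≠ 0 := sub_ne_zero.2 (Ne.symm hvw)
  have hX : a - 1 ∈ Algebra.adjoin k {a - 1, (v - 1) / (a - 1), (w - 1)⁻¹} :=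
    Algebra.subset_adjoin (by simp)
  have hY : (v - 1) / (a - 1) ∈ Algebra.adjoin k {a - 1, (v - 1) / (a - 1), (w - 1)⁻¹} :=
    Algebra.subset_adjoin (by simp)
  have hZ : (w - 1)⁻¹ ∈ Algebra.adjoin k {a - 1, (v - 1) / (a - 1), (w - 1)⁻¹} :=
    Algebra.subset_adjoin (by simp)
  refine coord_of_gens (by simp) (by simp) (by simp) ?_
  intro t ht
  simp only [Set.mem_insert_iff, Set.mem_singleton_iff] at ht
  rcases ht with rfl | rfl | rfl | rfl | rfl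
  · exact Or.inl hX
  · exact Or.inl hY
  · exact Or.inl hZ
  · refine Or.inr ⟨inv_ne_zero ha, ?_⟩
    have : a⁻¹⁻¹ = 1 + (a - 1) := by rw [inv_inv]; ring
    rw [this]
    exact add_mem (one_mem _) hX
  · refine Or.inr ⟨div_ne_zero hw1 hwv, ?_⟩
    have : ((w - 1) / (w - v))⁻¹ = 1 - (a - 1) * ((v - 1) / (a - 1)) * (w - 1)⁻¹ := by
      field_simp; ring
    rw [this]
    exact sub_mem (one_mem _) (mul_mem (mul_mem hX hY) hZ)

theorem K8_MM_aux {p : ℕ} {a v : K} (hv : v ≠ 1) :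
    ((v - 1) ^ p / (a - v ^ p))⁻¹ = a * (v - 1)⁻¹ ^ p - (1 + (v - 1)⁻¹) ^ p := by
  have hv1 : v - 1 ≠ 0 := sub_ne_zero.2 hv
  have h1 : 1 + (v - 1)⁻¹ = v * (v - 1)⁻¹ := by field_simp; ring
  rw [h1, mul_pow, ← sub_mul, inv_div, inv_pow, div_eq_mul_inv]

/-- `(a - v^p)/(v-1)^p = a s1^p - (1 + s1)^p`. -/
theorem coord_MM {p : ℕ} {a v w : K} (ha : a ≠ 0) (hv : v ≠ 1) (hw : w ≠ 1) (hav : a ≠ v ^ p)
    (haw : a ≠ w ^ p) : Coord (MM k p a v w) a (v - 1)⁻¹ (w - 1)⁻¹ := by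
  have hv1 : v - 1 ≠ 0 := sub_ne_zero.2 hv
  have hw1 : w - 1 ≠ 0 := sub_ne_zero.2 hw
  have hX : a ∈ Algebra.adjoin k {a, (v - 1)⁻¹, (w - 1)⁻¹} :=
    Algebra.subset_adjoin (by simp)
  have hY : (v - 1)⁻¹ ∈ Algebra.adjoin k {a, (v - 1)⁻¹, (w - 1)⁻¹} :=
    Algebra.subset_adjoin (by simp)
  have hZ : (w - 1)⁻¹ ∈ Algebra.adjoin k {a, (v - 1)⁻¹, (w - 1)⁻¹} :=
    Algebra.subset_adjoin (by simp)
  refine coord_of_gens (by simp) (by simp) (by simp) ?_
  intro t ht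
  simp only [Set.mem_insert_iff, Set.mem_singleton_iff] at ht
  rcases ht with rfl | rfl | rfl | rfl | rfl | rfl
  · exact Or.inl hX
  · refine Or.inr ⟨inv_ne_zero ha, ?_⟩
    rw [inv_inv]
    exact hX
  · exact Or.inl hY
  · exact Or.inl hZ
  · refine Or.inr ⟨div_ne_zero (pow_ne_zero _ hv1) (sub_ne_zero.2 hav), ?_⟩
    rw [K8_MM_aux hv]
    exact sub_mem (mul_mem hX (pow_mem hY _)) (pow_mem (add_mem (one_mem _) hY) _)
  · refine Or.inr ⟨div_ne_zero (pow_ne_zero _ hw1) (sub_ne_zero.2 haw), ?_⟩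
    rw [K8_MM_aux hw]
    exact sub_mem (mul_mem hX (pow_mem hZ _)) (pow_mem (add_mem (one_mem _) hZ) _)

theorem coord_T6 {p : ℕ} {A v w : K} (h : Gen k A v w) (hp : 2 ≤ p) :
    Coord (T6 k p A v w) A v w := by
  obtain ⟨hA, hv, hw, -, -, -, hA1, hAv, hAw, -⟩ := nz h hp
  have hX : A ∈ Algebra.adjoin k {A, v, w} := Algebra.subset_adjoin (by simp)
  have hY : v ∈ Algebra.adjoin k {A, v, w} := Algebra.subset_adjoin (by simp)
  have hZ : w ∈ Algebra.adjoin k {A, v, w} := Algebra.subset_adjoin (by simp)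
  refine coord_of_gens (by simp) (by simp) (by simp) ?_
  intro t ht
  simp only [Set.mem_insert_iff, Set.mem_singleton_iff] at ht
  rcases ht with rfl | rfl | rfl | rfl | rfl | rfl | rfl | rfl | rfl
  · exact Or.inl hX
  · exact Or.inr ⟨inv_ne_zero hA, by rw [inv_inv]; exact hX⟩
  · exact Or.inl hY
  · exact Or.inr ⟨inv_ne_zero hv, by rw [inv_inv]; exact hY⟩
  · exact Or.inl hZ
  · exact Or.inr ⟨inv_ne_zero hw, by rw [inv_inv]; exact hZ⟩
  · exact Or.inr ⟨inv_ne_zero (sub_ne_zero.2 hA1), by rw [inv_inv]; exact sub_mem hX (one_mem _)⟩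
  · exact Or.inr ⟨inv_ne_zero (sub_ne_zero.2 hAv), by
      rw [inv_inv]; exact sub_mem hX (pow_mem hY _)⟩
  · exact Or.inr ⟨inv_ne_zero (sub_ne_zero.2 hAw), by
      rw [inv_inv]; exact sub_mem hX (pow_mem hZ _)⟩

/-- the coordinate `nn` in characteristic `p` -/
theorem K8_nn {p : ℕ} [Fact p.Prime] [CharP K p] {A v w : K} (hv : v ≠ 1) (hw : w ≠ 1)
    (hvw : v ≠ w) :
    nn p A v w = (A - 1 - (v - 1) ^ (p - 1) * (w - 1)) * (w - 1) / ((v - 1) * (v - w)) := by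
  have hv1 : v - 1 ≠ 0 := sub_ne_zero.2 hv
  have hw1 : w - 1 ≠ 0 := sub_ne_zero.2 hw
  have hwv : v - w ≠ 0 := sub_ne_zero.2 hvw
  have hp : 1 ≤ p := (Fact.out : p.Prime).one_lt.le
  have h1 : v ^ p = 1 + (v - 1) ^ p := by
    have h2 : (v - 1 + 1) ^ p = (v - 1) ^ p + 1 ^ p := add_pow_char (v - 1) 1 p
    rw [sub_add_cancel, one_pow] at h2
    rw [h2, add_comm]
  have h3 : (v - 1) ^ p = (v - 1) ^ (p - 1) * (v - 1) := by
    rw [← pow_succ, Nat.sub_add_cancel hp]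
  have h0 : (p : K) = 0 := CharP.cast_eq_zero K p
  unfold nn
  rw [h0, h1, h3]
  generalize (v - 1) ^ (p - 1) = X
  field_simp
  ring

/-- `w = 1 + r`, `v = 1 + s r`, `A = 1 + r^p s^(p-1) + r s (s-1) n` (characteristic `p`). -/
theorem coord_P2 {p : ℕ} [Fact p.Prime] [CharP K p] {A v w : K} (h : Gen k A v w) :
    Coord (P2 k p A v w) ((v - 1) / (w - 1)) (w - 1) (nn p A v w) := by
  have hp2 : 2 ≤ p := (Fact.out : p.Prime).two_le
  obtain ⟨hA, hv, hw, hv1, hw1, hvw, -, -, -, -⟩ := nz h hp2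
  have hv0 : v - 1 ≠ 0 := sub_ne_zero.2 hv1
  have hw0 : w - 1 ≠ 0 := sub_ne_zero.2 hw1
  have hvw0 : v - w ≠ 0 := sub_ne_zero.2 hvw
  have hX : (v - 1) / (w - 1) ∈ Algebra.adjoin k {(v - 1) / (w - 1), w - 1, nn p A v w} :=
    Algebra.subset_adjoin (by simp)
  have hY : w - 1 ∈ Algebra.adjoin k {(v - 1) / (w - 1), w - 1, nn p A v w} :=
    Algebra.subset_adjoin (by simp)
  have hZ : nn p A v w ∈ Algebra.adjoin k {(v - 1) / (w - 1), w - 1, nn p A v w} :=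
    Algebra.subset_adjoin (by simp)
  have hX1 : ((v - 1) / (w - 1)) - 1 ∈
      Algebra.adjoin k {(v - 1) / (w - 1), w - 1, nn p A v w} := sub_mem hX (one_mem _)
  have e1 : v = 1 + (v - 1) / (w - 1) * (w - 1) := by field_simp; ring
  have e2 : w = 1 + (w - 1) := by ring
  have e3 : A = 1 + ((v - 1) / (w - 1) * (w - 1)) ^ (p - 1) * (w - 1) +
      (w - 1) * ((v - 1) / (w - 1)) * ((v - 1) / (w - 1) - 1) * nn p A v w := by
    rw [K8_nn hv1 hw1 hvw, div_mul_cancel₀ _ hw0]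
    generalize (v - 1) ^ (p - 1) = X
    field_simp
    ring
  refine coord_of_gens (by simp) (by simp) (by simp) ?_
  intro t ht
  simp only [Set.mem_insert_iff, Set.mem_singleton_iff] at ht
  rcases ht with rfl | rfl | rfl | rfl | rfl | rfl
  · exact Or.inl hX
  · exact Or.inl hY
  · exact Or.inl hZ
  · refine Or.inr ⟨inv_ne_zero hA, ?_⟩
    rw [inv_inv]
    have := add_mem (add_mem (one_mem _) (mul_mem (pow_mem (mul_mem hX hY) (p - 1)) hY))
      (mul_mem (mul_mem (mul_mem hY hX) hX1) hZ)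
    rwa [← e3] at this
  · refine Or.inr ⟨inv_ne_zero hv, ?_⟩
    rw [inv_inv]
    have := add_mem (one_mem _) (mul_mem hX hY)
    rwa [← e1] at this
  · refine Or.inr ⟨inv_ne_zero hw, ?_⟩
    rw [inv_inv]
    have := add_mem (one_mem _) hY
    rwa [← e2] at this

/-- `v = 1 + r'`, `w = 1 + s' r'`, `A = 1 + r'^p s' - r' s' (1 - s') n'` (characteristic `p`). -/
theorem coord_P1 {p : ℕ} [Fact p.Prime] [CharP K p] {A v w : K} (h : Gen k A v w) :
    Coord (P1 k p A v w) ((w - 1) / (v - 1)) (v - 1)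
      (-(((v - 1) / (w - 1)) ^ 2 * nn p A v w + p * ((v - 1) / (w - 1)))) := by
  have hp2 : 2 ≤ p := (Fact.out : p.Prime).two_le
  obtain ⟨hA, hv, hw, hv1, hw1, hvw, -, -, -, -⟩ := nz h hp2
  have hv0 : v - 1 ≠ 0 := sub_ne_zero.2 hv1
  have hw0 : w - 1 ≠ 0 := sub_ne_zero.2 hw1
  have hvw0 : v - w ≠ 0 := sub_ne_zero.2 hvw
  have h0 : (p : K) = 0 := CharP.cast_eq_zero K p
  have e1 : w = 1 + (w - 1) / (v - 1) * (v - 1) := by field_simp; ring
  have e2 : v = 1 + (v - 1) := by ring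
  have e3 : A = 1 + (v - 1) ^ (p - 1) * ((w - 1) / (v - 1) * (v - 1)) -
      (v - 1) * ((w - 1) / (v - 1)) * (1 - (w - 1) / (v - 1)) *
        (-(((v - 1) / (w - 1)) ^ 2 * nn p A v w + p * ((v - 1) / (w - 1)))) := by
    rw [K8_nn hv1 hw1 hvw, h0]
    generalize (v - 1) ^ (p - 1) = X
    field_simp
    ring
  unfold P1
  set N := -(((v - 1) / (w - 1)) ^ 2 * nn p A v w + p * ((v - 1) / (w - 1))) with hN
  have hX : (w - 1) / (v - 1) ∈ Algebra.adjoin k {(w - 1) / (v - 1), v - 1, N} :=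
    Algebra.subset_adjoin (by simp)
  have hY : v - 1 ∈ Algebra.adjoin k {(w - 1) / (v - 1), v - 1, N} :=
    Algebra.subset_adjoin (by simp)
  have hZ : N ∈ Algebra.adjoin k {(w - 1) / (v - 1), v - 1, N} :=
    Algebra.subset_adjoin (by simp)
  have hX1 : 1 - (w - 1) / (v - 1) ∈
      Algebra.adjoin k {(w - 1) / (v - 1), v - 1, N} := sub_mem (one_mem _) hX
  refine coord_of_gens (by simp) (by simp) (by simp) ?_
  intro t ht
  simp only [Set.mem_insert_iff, Set.mem_singleton_iff] at ht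
  rcases ht with rfl | rfl | rfl | rfl | rfl | rfl
  · exact Or.inl hX
  · exact Or.inl hY
  · exact Or.inl hZ
  · refine Or.inr ⟨inv_ne_zero hA, ?_⟩
    rw [inv_inv]
    have := sub_mem (add_mem (one_mem _) (mul_mem (pow_mem hY (p - 1)) (mul_mem hX hY)))
      (mul_mem (mul_mem (mul_mem hY hX) hX1) hZ)
    rwa [← e3] at this
  · refine Or.inr ⟨inv_ne_zero hv, ?_⟩
    rw [inv_inv]
    have := add_mem (one_mem _) hY
    rwa [← e2] at this
  · refine Or.inr ⟨inv_ne_zero hw, ?_⟩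
    rw [inv_inv]
    have := add_mem (one_mem _) (mul_mem hX hY)
    rwa [← e1] at this

/-- `A = 1 + β^(p-1) δ + β δ (β - δ) y`. -/
theorem coord_P3 {p : ℕ} [Fact p.Prime] [CharP K p] {A v w : K} (h : Gen k A v w) :
    Coord (P3 k p A v w) (v - 1) (w - 1) (yy p A v w) := by
  have hp2 : 2 ≤ p := (Fact.out : p.Prime).two_le
  obtain ⟨hA, hv, hw, hv1, hw1, hvw, -, -, -, -⟩ := nz h hp2
  have hv0 : v - 1 ≠ 0 := sub_ne_zero.2 hv1
  have hw0 : w - 1 ≠ 0 := sub_ne_zero.2 hw1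
  have hvw0 : v - w ≠ 0 := sub_ne_zero.2 hvw
  have e1 : v = 1 + (v - 1) := by ring
  have e2 : w = 1 + (w - 1) := by ring
  have e3 : A = 1 + (v - 1) ^ (p - 1) * (w - 1) +
      (v - 1) * (w - 1) * ((v - 1) - (w - 1)) * yy p A v w := by
    unfold yy
    generalize (v - 1) ^ (p - 1) = X
    field_simp
    ring
  have hX : v - 1 ∈ Algebra.adjoin k {v - 1, w - 1, yy p A v w} :=
    Algebra.subset_adjoin (by simp)
  have hY : w - 1 ∈ Algebra.adjoin k {v - 1, w - 1, yy p A v w} :=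
    Algebra.subset_adjoin (by simp)
  have hZ : yy p A v w ∈ Algebra.adjoin k {v - 1, w - 1, yy p A v w} :=
    Algebra.subset_adjoin (by simp)
  refine coord_of_gens (by simp) (by simp) (by simp) ?_
  intro t ht
  simp only [Set.mem_insert_iff, Set.mem_singleton_iff] at ht
  rcases ht with rfl | rfl | rfl | rfl | rfl | rfl
  · exact Or.inl hX
  · exact Or.inl hY
  · exact Or.inl hZ
  · refine Or.inr ⟨inv_ne_zero hA, ?_⟩
    rw [inv_inv]
    have := add_mem (add_mem (one_mem _) (mul_mem (pow_mem hX (p - 1)) hY))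
      (mul_mem (mul_mem (mul_mem hX hY) (sub_mem hX hY)) hZ)
    rwa [← e3] at this
  · refine Or.inr ⟨inv_ne_zero hv, ?_⟩
    rw [inv_inv]
    have := add_mem (one_mem _) hX
    rwa [← e1] at this
  · refine Or.inr ⟨inv_ne_zero hw, ?_⟩
    rw [inv_inv]
    have := add_mem (one_mem _) hY
    rwa [← e2] at this

/-- All charts (from the previous statements and `nz_frame`). -/
theorem coord_ring {p : ℕ} [Fact p.Prime] [CharP K p] {A v w : K} (h : Gen k A v w) {c : Ch}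
    (hc : c.inX ∨ c = .P3) :
    Coord (ring k p A v w c) (cx p A v w c) (cy p A v w c) (cz p A v w c) := by
  have hp2 : 2 ≤ p := (Fact.out : p.Prime).two_le
  cases c with
  | NI f =>
    obtain ⟨h1, -, -, h4, h5, h6, -, -, -⟩ := nz_frame h hp2 f
    exact coord_NI h1 h4 h5 h6
  | NII f =>
    obtain ⟨h1, -, -, -, h5, h6, h7, -, -⟩ := nz_frame h hp2 f
    exact coord_NII h1 h7 h5 h6
  | M i =>
    obtain ⟨h1, -, -, h4, h5, -, -, h8, h9⟩ := nz_frame h hp2 (fm i)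
    have := coord_MM (k := k) h1 h4 h5 h8 h9
    fin_cases i <;> exact this
  | T6 => exact coord_T6 h hp2
  | P1 => exact coord_P1 h
  | P2 => exact coord_P2 h
  | P3 => exact coord_P3 h
  | P4 => simp [Ch.inX] at hc
  | Y0 => simp [Ch.inX] at hc

end H1F
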