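import Pool.Agent.Lib.H1F.KLT.K8
import Pool.Agent.Lib.H1F.KLT.K6

/-! # H1F, part KLT, chunk K9: the Jacobian on all charts; equations of `S_x` in coordinates -/

universe u

namespace H1F

variable {k : Type u} [Field k] {K : Type u} [Field K] [Algebra k K]

/-- Combine `wedge_frame` and `wedge_NI`, `wedge_NII`, `wedge_MM` (with the frame), `wedge_P1`, ... -/
theorem wedge_chart {p : ℕ} [Fact p.Prime] [CharP K p] {A v w : K} (h : Gen k A v w) {c : Ch}
    (hc : c.inX ∨ c = .P3) :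
    (wedge A v w : Form k K) =
      JJ p A v w c • wedge (cx p A v w c) (cy p A v w c) (cz p A v w c) := by
  have hp2 : 2 ≤ p := (Fact.out : p.Prime).two_le
  obtain ⟨hA, hv, hw, hv1, hw1, hvw, -, -, -, -⟩ := nz h hp2
  cases c with
  | NI f =>
    obtain ⟨h1, -, -, h4, h5, h6, -, -, -⟩ := nz_frame h hp2 f
    rw [wedge_frame p hv hw f, wedge_NI h4 h5, smul_smul]
    rfl
  | NII f =>
    obtain ⟨h1, -, -, -, h5, h6, h7, -, -⟩ := nz_frame h hp2 f
    rw [wedge_frame p hv hw f, wedge_NII h7 h5, smul_smul]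
    simp only [JJ, cx, cy, cz]
    congr 1
    ring
  | M i =>
    obtain ⟨h1, -, -, h4, h5, -, -, h8, h9⟩ := nz_frame h hp2 (fm i)
    rw [wedge_frame p hv hw (fm i), wedge_MM h4 h5, smul_smul]
    rfl
  | T6 => simp [JJ, cx, cy, cz]
  | P1 => exact wedge_P1 p hv1 hw1 hvw
  | P2 => exact wedge_P2 p hv1 hw1 hvw
  | P3 => exact wedge_P3 p hv1 hw1 hvw
  | P4 => simp [Ch.inX] at hc
  | Y0 => simp [Ch.inX] at hc

/-- The equations of `S_x` in the coordinates `x, y, z` of the chart. -/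
def FFc (p : ℕ) (x y z : K) : Ch → K
  | .NI f => ![y, y, y - x ^ (p - 1), x * y * z ^ p - 1, y - x ^ (p - 1), x * y * z ^ p - 1] f
  | .NII f => ![1, 1, 1 - y ^ p * x ^ (p - 1), x * z ^ p - 1, 1 - y ^ p * x ^ (p - 1),
      x * z ^ p - 1] f
  | .M i => ![x - 1, 1, 1] i
  | .T6 => 1
  | .P1 => y ^ (p - 1) - (1 - x) * z
  | .P2 => (x - 1) * z + x ^ (p - 2) * y ^ (p - 1)
  | .P3 => x ^ (p - 2) + (x - y) * z
  | .P4 => 1
  | .Y0 => 1

theorem K9_one_sub_pow {p : ℕ} [Fact p.Prime] [CharP K p] (v : K) :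
    (1 - v) ^ p = 1 - v ^ p := by
  rw [sub_pow_char, one_pow]

/-- the frames `2` and `4` on `NI` -/
theorem K9_NI2 {p : ℕ} [Fact p.Prime] [CharP K p] {A v : K} (hv : v ≠ 0) (hv1 : v ≠ 1) :
    (A - 1) / (v ^ (p - 1) * (1 - v)) =
      (A / v ^ p - 1) / (v⁻¹ - 1) - (v⁻¹ - 1) ^ (p - 1) := by
  have h1 : 1 - v ≠ 0 := sub_ne_zero.2 (Ne.symm hv1)
  have hp : 1 ≤ p := (Fact.out : p.Prime).one_lt.le
  have e1 : v⁻¹ - 1 = (1 - v) / v := by field_simp
  have e2 : v ^ p = v ^ (p - 1) * v := by rw [← pow_succ, Nat.sub_add_cancel hp]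
  have e3 : (1 - v) ^ (p - 1) * (1 - v) = 1 - v ^ (p - 1) * v := by
    rw [← pow_succ, Nat.sub_add_cancel hp, K9_one_sub_pow, e2]
  have e4 : (1 - v) ^ (p - 1) = (1 - v ^ (p - 1) * v) / (1 - v) := by
    rw [eq_div_iff h1, e3]
  have hX : v ^ (p - 1) ≠ 0 := pow_ne_zero _ hv
  rw [e1, div_pow, e4, e2]
  generalize v ^ (p - 1) = X at hX
  field_simp
  ring

/-- the frames `3` and `5` on `NI` and `NII` -/
theorem K9_N3 {p : ℕ} [Fact p.Prime] [CharP K p] {A v : K} (hv : v ≠ 0) (hv1 : v ≠ 1) :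
    (A - 1) / (1 - v) ^ p = (A / v ^ p - 1) * (v⁻¹ - 1)⁻¹ ^ p - 1 := by
  have h1 : 1 - v ≠ 0 := sub_ne_zero.2 (Ne.symm hv1)
  have e1 : v⁻¹ - 1 = (1 - v) / v := by field_simp
  have hX : v ^ p ≠ 0 := pow_ne_zero _ hv
  have hY : (1 - v) ^ p ≠ 0 := pow_ne_zero _ h1
  have e2 : v ^ p = 1 - (1 - v) ^ p := by rw [K9_one_sub_pow]; ring
  rw [e1, inv_div, div_pow]
  have e3 : (A / v ^ p - 1) * (v ^ p / (1 - v) ^ p) - 1 =
      (A - v ^ p - (1 - v) ^ p) / (1 - v) ^ p := by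
    field_simp
  rw [e3]
  congr 1
  rw [e2]
  ring

/-- the frames `2` and `4` on `NII` -/
theorem K9_NII2 {p : ℕ} [Fact p.Prime] [CharP K p] {A v : K} (hv : v ≠ 0) (hA : A ≠ v ^ p) :
    (A - 1) / (A - v ^ p) =
      1 - ((v⁻¹ - 1) / (A / v ^ p - 1)) ^ p * (A / v ^ p - 1) ^ (p - 1) := by
  have hp : 1 ≤ p := (Fact.out : p.Prime).one_lt.le
  have hX : v ^ p ≠ 0 := pow_ne_zero _ hv
  have hA' : A - v ^ p ≠ 0 := sub_ne_zero.2 hA
  have e0 : A / v ^ p - 1 = (A - v ^ p) / v ^ p := by field_simp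
  have hy : A / v ^ p - 1 ≠ 0 := by rw [e0]; exact div_ne_zero hA' hX
  have e1 : v⁻¹ - 1 = (1 - v) / v := by field_simp
  have e2 : (A / v ^ p - 1) ^ p = (A / v ^ p - 1) ^ (p - 1) * (A / v ^ p - 1) := by
    rw [← pow_succ, Nat.sub_add_cancel hp]
  have hy' : (A / v ^ p - 1) ^ (p - 1) ≠ 0 := pow_ne_zero _ hy
  have e3 : ((v⁻¹ - 1) / (A / v ^ p - 1)) ^ p * (A / v ^ p - 1) ^ (p - 1) =
      (v⁻¹ - 1) ^ p / (A / v ^ p - 1) := by
    rw [div_pow, e2]
    field_simp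
  rw [e3, e1, div_pow, K9_one_sub_pow, e0]
  field_simp
  ring

/-- Identities in `K` (characteristic `p ≥ 3`, `field_simp`, `sub_pow_char`, `p` is odd). -/
theorem FF_eq {p : ℕ} [Fact p.Prime] [CharP K p] (hp : 3 ≤ p) {A v w : K} (h : Gen k A v w)
    {c : Ch} (hc : c.inX ∨ c = .P3) :
    FF p A v w c = FFc p (cx p A v w c) (cy p A v w c) (cz p A v w c) c := by
  have hp2 : 2 ≤ p := (Fact.out : p.Prime).two_le
  obtain ⟨hA, hv, hw, hv1, hw1, hvw, hA1, hAv, hAw, -⟩ := nz h hp2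
  have hv0 : v - 1 ≠ 0 := sub_ne_zero.2 hv1
  have hw0 : w - 1 ≠ 0 := sub_ne_zero.2 hw1
  have hvw0 : v - w ≠ 0 := sub_ne_zero.2 hvw
  cases c with
  | NI f =>
    obtain ⟨-, -, -, h4, -, -, -, -, -⟩ := nz_frame h hp2 f
    have h4' : fv v w f - 1 ≠ 0 := sub_ne_zero.2 h4
    have e1 : (fv v w f - 1) * ((fa p A v w f - 1) / (fv v w f - 1)) = fa p A v w f - 1 :=
      mul_div_cancel₀ _ h4'
    simp only [FF, FFc, cx, cy, cz, e1]
    fin_cases f
    · rfl
    · rfl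
    · exact K9_NI2 hv hv1
    · exact K9_N3 hv hv1
    · exact K9_NI2 hw hw1
    · exact K9_N3 hw hw1
  | NII f =>
    simp only [FF, FFc, cx, cy, cz]
    fin_cases f
    · rfl
    · rfl
    · exact K9_NII2 hv hAv
    · exact K9_N3 hv hv1
    · exact K9_NII2 hw hAw
    · exact K9_N3 hw hw1
  | M i =>
    simp only [FF, FFc, cx, cy, cz]
    fin_cases i
    · rfl
    · rfl
    · rfl
  | T6 => rfl
  | P1 =>
    simp only [FF, FFc, cx, cy, cz]
    rw [K8_nn hv1 hw1 hvw, CharP.cast_eq_zero]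
    generalize (v - 1) ^ (p - 1) = X
    field_simp
    ring
  | P2 =>
    simp only [FF, FFc, cx, cy, cz]
    have e1 : ((v - 1) / (w - 1)) ^ (p - 2) * (w - 1) ^ (p - 1) = (v - 1) ^ (p - 2) * (w - 1) := by
      have : p - 1 = p - 2 + 1 := by omega
      rw [this, pow_succ, div_pow]
      have hX : (w - 1) ^ (p - 2) ≠ 0 := pow_ne_zero _ hw0
      field_simp
    have e2 : (v - 1) ^ (p - 1) = (v - 1) ^ (p - 2) * (v - 1) := by
      rw [← pow_succ]
      congr 1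
      omega
    rw [K8_nn hv1 hw1 hvw, e1, e2]
    generalize (v - 1) ^ (p - 2) = X
    field_simp
    ring
  | P3 =>
    simp only [FF, FFc, cx, cy, cz, yy]
    have e2 : (v - 1) ^ (p - 1) = (v - 1) ^ (p - 2) * (v - 1) := by
      rw [← pow_succ]
      congr 1
      omega
    rw [e2]
    generalize (v - 1) ^ (p - 2) = X
    field_simp
    ring
  | P4 => simp [Ch.inX] at hc
  | Y0 => simp [Ch.inX] at hc

theorem K9_FFc_mem (p : ℕ) {S : Subalgebra k K} {x y z : K} (hx : x ∈ S) (hy : y ∈ S)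
    (hz : z ∈ S) (c : Ch) : FFc p x y z c ∈ S := by
  cases c with
  | NI f =>
    simp only [FFc]
    fin_cases f
    · exact hy
    · exact hy
    · exact sub_mem hy (pow_mem hx _)
    · exact sub_mem (mul_mem (mul_mem hx hy) (pow_mem hz _)) (one_mem _)
    · exact sub_mem hy (pow_mem hx _)
    · exact sub_mem (mul_mem (mul_mem hx hy) (pow_mem hz _)) (one_mem _)
  | NII f =>
    simp only [FFc]
    fin_cases f
    · exact one_mem _
    · exact one_mem _
    · exact sub_mem (one_mem _) (mul_mem (pow_mem hy _) (pow_mem hx _))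
    · exact sub_mem (mul_mem hx (pow_mem hz _)) (one_mem _)
    · exact sub_mem (one_mem _) (mul_mem (pow_mem hy _) (pow_mem hx _))
    · exact sub_mem (mul_mem hx (pow_mem hz _)) (one_mem _)
  | M i =>
    simp only [FFc]
    fin_cases i
    · exact sub_mem hx (one_mem _)
    · exact one_mem _
    · exact one_mem _
  | T6 => exact one_mem _
  | P1 => exact sub_mem (pow_mem hy _) (mul_mem (sub_mem (one_mem _) hx) hz)
  | P2 => exact add_mem (mul_mem (sub_mem hx (one_mem _)) hz) (mul_mem (pow_mem hx _) (pow_mem hy _))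
  | P3 => exact add_mem (pow_mem hx _) (mul_mem (sub_mem hx hy) hz)
  | P4 => exact one_mem _
  | Y0 => exact one_mem _

theorem FF_mem {p : ℕ} [Fact p.Prime] [CharP K p] (hp : 3 ≤ p) {A v w : K} (h : Gen k A v w)
    {c : Ch} (hc : c.inX ∨ c = .P3) : FF p A v w c ∈ ring k p A v w c := by
  have h1 := coord_ring h hc
  rw [FF_eq hp h hc]
  exact K9_FFc_mem p h1.hx h1.hy h1.hz c

theorem RR_mem {p : ℕ} {A v w : K} {c : Ch} (hc : c.inX) : RR v w c ∈ ring k p A v w c := by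
  cases c with
  | NI f => exact one_mem _
  | NII f => exact one_mem _
  | M i => exact one_mem _
  | T6 => exact one_mem _
  | P1 => exact Algebra.subset_adjoin (by simp [RR])
  | P2 => exact Algebra.subset_adjoin (by simp [RR])
  | P3 => simp [Ch.inX] at hc
  | P4 => simp [Ch.inX] at hc
  | Y0 => simp [Ch.inX] at hc

end H1F
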